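import Pool.Agent.H97.ON.Lat

set_option autoImplicit false
set_option linter.unusedSimpArgs false

/-!
Colourings of the faces in a box with a prescribed part of the boundary; a closed loop of boundary
edges contributes the factor `n * x ^ (length)`.
-/

noncomputable section

namespace Pool.Agent.H97.ON

open H978R2.Hex Module
open Pool.Agent.X136.ON (Dir Ed Vx s1 s2 ch par ray bd mem_bd ea eb ec ch_iff ch_false ray_edge
  ray_right exists_right)

/-- the boundary edges of a colouring -/
def dd (L : ℕ) (σ : Finset (VV L)) : Finset Ed := DD (aa L) (bb L) (II L) σ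

/-- the weight of a colouring -/
def wg (L : ℕ) (n x : ℝ) (σ : Finset (VV L)) : ℝ := ww (aa L) (bb L) (II L) n x σ

theorem mem_dd {L : ℕ} {σ : Finset (VV L)} {e : Ed} :
    e ∈ dd L σ ↔ ¬ (aa L e ∈ σ ↔ bb L e ∈ σ) := by
  unfold dd DD
  rw [Finset.mem_filter]
  constructor
  · exact fun h => h.2
  · intro h
    refine ⟨hI L e fun h1 => h ?_, h⟩
    rw [h1]

theorem mem_dd_sep {L : ℕ} {σ : Finset (VV L)} {e : Ed} {f g : Fc} (h : Sep e f g) :
    e ∈ dd L σ ↔ ¬ (pr L f ∈ σ ↔ pr L g ∈ σ) := by
  rw [mem_dd]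
  unfold aa bb
  rcases h with ⟨h1, h2⟩ | ⟨h1, h2⟩
  · rw [h1, h2]
  · rw [h1, h2]
    exact not_congr ⟨fun h => h.symm, fun h => h.symm⟩

/-- the directions -/
def dirs : Finset Dir := {.A, .B, .C}

theorem mem_dirs (d : Dir) : d ∈ dirs := by
  unfold dirs
  cases d <;> simp

/-- the number of edges of `π` at `v` -/
def dg (π : Finset Ed) (v : V) : ℕ :=
  (if ed v .A ∈ π then 1 else 0) + (if ed v .B ∈ π then 1 else 0) + (if ed v .C ∈ π then 1 else 0)

theorem dg_dd (L : ℕ) (σ : Finset (VV L)) (v : V) : dg (dd L σ) v = 0 ∨ dg (dd L σ) v = 2 := by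
  obtain ⟨h1, h2, h3⟩ := sep_at v
  unfold dg
  have e1 := mem_dd_sep (σ := σ) (L := L) h1
  have e2 := mem_dd_sep (σ := σ) (L := L) h2
  have e3 := mem_dd_sep (σ := σ) (L := L) h3
  simp only [e1, e2, e3]
  by_cases a : pr L (fa v 0) ∈ σ <;> by_cases b : pr L (fa v 1) ∈ σ <;>
    by_cases c : pr L (fa v 2) ∈ σ <;> simp [a, b, c]

theorem dg_mono {π ρ : Finset Ed} (h : π ⊆ ρ) (v : V) : dg π v ≤ dg ρ v := by
  unfold dg
  have := @h (ed v .A)
  have := @h (ed v .B)
  have := @h (ed v .C)
  split_ifs <;> simp_all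

theorem dg_eq_sum (π : Finset Ed) (v : V) : dg π v = ∑ d ∈ dirs, if ed v d ∈ π then 1 else 0 := by
  unfold dg dirs
  rw [Finset.sum_insert (by simp), Finset.sum_insert (by simp), Finset.sum_singleton, add_assoc]

theorem dg_pos {π : Finset Ed} {v : V} {d : Dir} (h : ed v d ∈ π) : 1 ≤ dg π v := by
  unfold dg
  cases d <;> simp [h] <;> omega

theorem dg_zero {π : Finset Ed} {v : V} (h : dg π v = 0) (d : Dir) : ed v d ∉ π := by
  intro h1
  have := dg_pos h1
  omega

/-- adding an edge -/
theorem dg_insert {π : Finset Ed} {e : Ed} (he : e ∉ π) (w : V) :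
    dg (insert e π) w = dg π w + if Tch w e then 1 else 0 := by
  have key : ∀ d : Dir, e = ed w d → dg (insert e π) w = dg π w + 1 := by
    intro d hd
    subst hd
    unfold dg
    simp only [Finset.mem_insert]
    cases d
    · have h1 : ¬ ed w .B = ed w .A := fun h => by have := ed_inj w h; cases this
      have h2 : ¬ ed w .C = ed w .A := fun h => by have := ed_inj w h; cases this
      simp only [he, h1, h2, true_or, if_true, if_false, false_or]
      omega
    · have h1 : ¬ ed w .A = ed w .B := fun h => by have := ed_inj w h; cases this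
      have h2 : ¬ ed w .C = ed w .B := fun h => by have := ed_inj w h; cases this
      simp only [he, h1, h2, true_or, if_true, if_false, false_or]
      omega
    · have h1 : ¬ ed w .A = ed w .C := fun h => by have := ed_inj w h; cases this
      have h2 : ¬ ed w .B = ed w .C := fun h => by have := ed_inj w h; cases this
      simp only [he, h1, h2, true_or, if_true, if_false, false_or, add_zero]
  split_ifs with h
  · obtain ⟨d, hd⟩ := tch_iff.1 h
    exact key d hd
  · have h1 : ∀ d, ¬ ed w d = e := fun d hd => h (hd ▸ tch_ed w d)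
    unfold dg
    simp only [Finset.mem_insert, h1, false_or, add_zero]

theorem dg_empty (v : V) : dg ∅ v = 0 := by
  unfold dg
  simp

/-- both ends of the edge are in `T` -/
def Ein (T : Finset V) (e : Ed) : Prop := p0 e ∈ T ∧ p1 e ∈ T

instance (T : Finset V) (e : Ed) : Decidable (Ein T e) := by unfold Ein; infer_instance

theorem ein_iff {T : Finset V} {e : Ed} : Ein T e ↔ ∀ w, Tch w e → w ∈ T := by
  unfold Ein Tch
  constructor
  · rintro ⟨h1, h2⟩ w (h | h)
    · exact h ▸ h1
    · exact h ▸ h2
  · intro h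
    exact ⟨h _ (Or.inl rfl), h _ (Or.inr rfl)⟩

theorem ein_ed {T : Finset V} {v : V} {d : Dir} : Ein T (ed v d) ↔ v ∈ T ∧ nb v d ∈ T := by
  rw [ein_iff]
  constructor
  · intro h
    exact ⟨h _ (tch_ed v d), h _ (tch_nb v d)⟩
  · rintro ⟨h1, h2⟩ w hw
    rcases (tch_ed_iff v w d).1 hw with h | h
    · exact h ▸ h1
    · exact h ▸ h2

theorem Ein.mono {T T' : Finset V} (h : T ⊆ T') {e : Ed} (he : Ein T e) : Ein T' e :=
  ⟨h he.1, h he.2⟩

theorem ein_erase {T : Finset V} {u : V} {e : Ed} (he : Ein T e) (hu : ¬ Tch u e) :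
    Ein (T.erase u) e := by
  rw [ein_iff] at he ⊢
  intro w hw
  rw [Finset.mem_erase]
  exact ⟨fun h => hu (h ▸ hw), he w hw⟩

open Classical in
/-- colourings with the boundary edges `π` and other boundary edges inside `T` -/
def Cfg (L : ℕ) (T : Finset V) (π : Finset Ed) : Finset (Finset (VV L)) :=
  Finset.univ.filter fun σ => π ⊆ dd L σ ∧ ∀ e ∈ dd L σ, e ∉ π → Ein T e

theorem mem_Cfg {L : ℕ} {T : Finset V} {π : Finset Ed} {σ : Finset (VV L)} :
    σ ∈ Cfg L T π ↔ π ⊆ dd L σ ∧ ∀ e ∈ dd L σ, e ∉ π → Ein T e := by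
  unfold Cfg
  simp only [Finset.mem_filter, Finset.mem_univ, true_and]

/-- their total weight -/
def QQ (L : ℕ) (n x : ℝ) (T : Finset V) (π : Finset Ed) : ℝ := ∑ σ ∈ Cfg L T π, wg L n x σ

/-! ### loops -/

/-- two edges of `π` at a common vertex -/
def Nx (π : Finset Ed) (e e' : Ed) : Prop := e ∈ π ∧ e' ∈ π ∧ ∃ v, Tch v e ∧ Tch v e'

/-- `π` is a loop around which there is no vertex of `T` -/
structure LS (L : ℕ) (T : Finset V) (π : Finset Ed) : Prop where
  deg : ∀ v, dg π v = 0 ∨ dg π v = 2
  free : ∀ v ∈ T, dg π v = 0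
  conn : ∃ e0 ∈ π, ∀ e ∈ π, Relation.ReflTransGen (Nx π) e0 e
  box : ∀ e ∈ π, s1 e ∈ XX L ∧ s2 e ∈ XX L

theorem par_of_deg {π : Finset Ed} (h : ∀ v, dg π v = 0 ∨ dg π v = 2) (w : Vx) :
    par π w = false := by
  have hw : ∃ v : V, vx v = w := by
    obtain ⟨i, j, s⟩ := w
    cases s
    · refine ⟨(2 * i + j, -j), ?_⟩
      unfold vx
      simp only [neg_neg, Prod.mk.injEq, decide_eq_false_iff_not, true_and]
      omega
    · refine ⟨(2 * i + j + 1, -j), ?_⟩
      unfold vx
      simp only [neg_neg, Prod.mk.injEq, decide_eq_true_iff, true_and]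
      omega
  obtain ⟨v, rfl⟩ := hw
  have h1 := h v
  unfold dg at h1
  rw [ed_A, ed_B, ed_C] at h1
  unfold par ch
  by_cases a : ea (vx v) ∈ π <;> by_cases b : eb (vx v) ∈ π <;> by_cases c : ec (vx v) ∈ π <;>
    simp [a, b, c] at h1 ⊢

/-- outside of the box the interior is empty -/
theorem ray_outside {L : ℕ} {π : Finset Ed} (h : ∀ v, dg π v = 0 ∨ dg π v = 2)
    (hb : ∀ e ∈ π, s1 e ∈ XX L ∧ s2 e ∈ XX L) {f : Fc} (hf : f ∉ XX L) : ray π f = false := by
  have hp : ∀ w, par π w = false := par_of_deg h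
  -- moving outside of the box
  have step : ∀ (e : Ed) (g k : Fc), Sep e g k → g ∉ XX L → ray π g = ray π k := by
    intro e g k hs hg
    have h1 : ch π e = false := by
      rw [ch_false]
      intro he
      obtain ⟨h2, h3⟩ := hb e he
      rcases hs with ⟨h4, h5⟩ | ⟨h4, h5⟩
      · exact hg (h4 ▸ h2)
      · exact hg (h5 ▸ h3)
    have h2 := ray_edge hp e
    rw [h1] at h2
    rcases hs with ⟨h4, h5⟩ | ⟨h4, h5⟩
    · rw [h4, h5] at h2
      simpa using h2
    · rw [h4, h5] at h2
      revert h2
      cases ray π k <;> cases ray π g <;> simp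
  -- right
  obtain ⟨M, hM⟩ := exists_right π
  have hright : ∀ (m : ℕ) (i j : ℤ), (∀ k : ℕ, (i + k, j) ∉ XX L) →
      ray π (i, j) = ray π (i + m, j) := by
    intro m
    induction m with
    | zero => intro i j _; simp
    | succ m ih =>
      intro i j hk
      rw [ih i j hk, step (i + m, j, .A) (i + m, j) (i + m + 1, j) (Or.inl ⟨rfl, rfl⟩) (hk m)]
      push_cast
      rw [add_assoc]
  have hright' : ∀ i j : ℤ, (∀ k : ℕ, (i + k, j) ∉ XX L) → ray π (i, j) = false := by
    intro i j hk
    rw [hright (M - i).toNat i j hk]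
    apply ray_right hM
    simp only
    omega
  obtain ⟨i, j⟩ := f
  by_cases hj : -(L : ℤ) ≤ j ∧ j ≤ L
  · by_cases hi : i < -L
    · -- go up
      have hup : ∀ (m : ℕ), ray π (i, j) = ray π (i, j + m) := by
        intro m
        induction m with
        | zero => simp
        | succ m ih =>
          rw [ih, step (i, j + m, .B) (i, j + m) (i, j + m + 1) (Or.inl ⟨rfl, rfl⟩)
            (by rw [mem_XX]; simp only; omega)]
          push_cast
          rw [add_assoc]
      rw [hup (2 * L + 1)]
      apply hright'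
      intro k
      rw [mem_XX]
      simp only
      push_cast
      omega
    · apply hright'
      intro k
      rw [mem_XX] at hf ⊢
      simp only at hf ⊢
      omega
  · apply hright'
    intro k
    rw [mem_XX]
    simp only
    omega

/-- the interior of a loop -/
def inte (L : ℕ) (π : Finset Ed) : Finset (VV L) :=
  ((XX L).filter fun f => ray π f = true).image (pr L)

theorem mem_inte {L : ℕ} {π : Finset Ed} (h : ∀ v, dg π v = 0 ∨ dg π v = 2)
    (hb : ∀ e ∈ π, s1 e ∈ XX L ∧ s2 e ∈ XX L) {f : Fc} :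
    pr L f ∈ inte L π ↔ ray π f = true := by
  unfold inte
  rw [Finset.mem_image]
  constructor
  · rintro ⟨g, hg, he⟩
    rw [Finset.mem_filter] at hg
    rw [← pr_inj hg.1 he]
    exact hg.2
  · intro hr
    refine ⟨f, Finset.mem_filter.2 ⟨?_, hr⟩, rfl⟩
    by_contra hf
    rw [ray_outside h hb hf] at hr
    exact absurd hr (by simp)

theorem inte_edge {L : ℕ} {π : Finset Ed} (h : ∀ v, dg π v = 0 ∨ dg π v = 2)
    (hb : ∀ e ∈ π, s1 e ∈ XX L ∧ s2 e ∈ XX L) (e : Ed) :
    e ∈ π ↔ ¬ (aa L e ∈ inte L π ↔ bb L e ∈ inte L π) := by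
  unfold aa bb
  rw [mem_inte h hb, mem_inte h hb, ← ch_iff, ← ray_edge (par_of_deg h) e]
  cases ray π (s1 e) <;> cases ray π (s2 e) <;> simp

/-- flipping the interior -/
theorem dd_flip {L : ℕ} {π : Finset Ed} (h : ∀ v, dg π v = 0 ∨ dg π v = 2)
    (hb : ∀ e ∈ π, s1 e ∈ XX L ∧ s2 e ∈ XX L) (σ : Finset (VV L)) (e : Ed) :
    e ∈ dd L (symmDiff σ (inte L π)) ↔ ¬ (e ∈ dd L σ ↔ e ∈ π) := by
  rw [mem_dd, mem_dd, inte_edge h hb, Finset.mem_symmDiff, Finset.mem_symmDiff]
  generalize (aa L e ∈ σ) = p
  generalize (bb L e ∈ σ) = q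
  generalize (aa L e ∈ inte L π) = r
  generalize (bb L e ∈ inte L π) = s
  by_cases hp : p <;> by_cases hq : q <;> by_cases hr : r <;> by_cases hs : s <;>
    simp [hp, hq, hr, hs]

theorem wg_eq (L : ℕ) (n x : ℝ) (σ : Finset (VV L)) :
    wg L n x σ = n ^ KK (aa L) (bb L) σ * x ^ (dd L σ).card := rfl

/-- the number of clusters -/
theorem KK_flip {L : ℕ} {T : Finset V} {π : Finset Ed} (h : LS L T π) {σ : Finset (VV L)}
    (hσ : σ ∈ Cfg L T π) :
    KK (aa L) (bb L) σ = KK (aa L) (bb L) (symmDiff σ (inte L π)) + 1 := by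
  obtain ⟨hdeg, hfree, ⟨e0, he0, hconn⟩, hbox⟩ := h
  rw [mem_Cfg] at hσ
  obtain ⟨h1, h2⟩ := hσ
  set σ' := symmDiff σ (inte L π) with hσ'
  have hU : ∀ f : VV L → ℚ, f ∈ HH (aa L) (bb L) (fun i => aa L i ∈ σ ↔ bb L i ∈ σ) ↔
      ∀ e, e ∉ dd L σ → f (aa L e) = f (bb L e) := by
    intro f
    rw [mem_HH]
    refine forall_congr' fun e => ?_
    rw [mem_dd, not_not]
  have hW : ∀ f : VV L → ℚ, f ∈ HH (aa L) (bb L) (fun i => aa L i ∈ σ' ↔ bb L i ∈ σ') ↔
      ∀ e, (e ∉ dd L σ ∨ e ∈ π) → f (aa L e) = f (bb L e) := by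
    intro f
    rw [mem_HH]
    refine forall_congr' fun e => ?_
    have h3 := dd_flip hdeg hbox σ e
    have h4 := @h1 e
    rw [← hσ', mem_dd] at h3
    constructor
    · intro h5 h6
      apply h5
      by_contra h7
      apply h3.1 h7
      rcases h6 with h6 | h6
      · exact ⟨fun h => absurd h h6, fun h => absurd (h4 h) h6⟩
      · exact ⟨fun _ => h6, fun _ => h4 h6⟩
    · intro h5 h6
      apply h5
      by_contra h7
      push Not at h7
      exact h3.2 (fun h8 => h7.2 (h8.1 h7.1)) h6
  apply le_antisymm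
  · unfold KK kap
    let φ : (VV L → ℚ) →ₗ[ℚ] ℚ :=
      (LinearMap.proj (aa L e0) : (VV L → ℚ) →ₗ[ℚ] ℚ) - (LinearMap.proj (bb L e0) : (VV L → ℚ) →ₗ[ℚ] ℚ)
    apply finrank_le_ker _ _ φ
    intro f hf h0
    rw [hU] at hf
    rw [hW]
    have h3 : f (aa L e0) = f (bb L e0) := by
      have : f (aa L e0) - f (bb L e0) = 0 := h0
      linarith
    have key : ∀ e, Relation.ReflTransGen (Nx π) e0 e → f (aa L e) = f (bb L e) := by
      intro e he
      induction he with
      | refl => exact h3
      | @tail e e' _ hN ih =>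
        obtain ⟨g1, g2, v, g3, g4⟩ := hN
        by_cases hee : e = e'
        · rw [← hee]; exact ih
        · obtain ⟨d, hd⟩ := tch_iff.1 g3
          obtain ⟨d', hd'⟩ := tch_iff.1 g4
          have hdd : d ≠ d' := fun h => hee (by rw [hd, hd', h])
          have hv : dg π v = 2 := by
            rcases hdeg v with h | h
            · have := dg_pos (hd ▸ g1); omega
            · exact h
          have hvT : v ∉ T := fun h => by
            have := hfree v h; omega
          -- the third edge
          have hthird : ∀ d'', d'' ≠ d → d'' ≠ d' → f (aa L (ed v d'')) = f (bb L (ed v d'')) := by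
            intro d'' n1 n2
            apply hf
            intro hin
            have hnπ : ed v d'' ∉ π := by
              intro hp
              have a1 : ed v d ∈ π := hd ▸ g1
              have a2 : ed v d' ∈ π := hd' ▸ g2
              unfold dg at hv
              cases d <;> cases d' <;> cases d'' <;> simp_all
            exact hvT (ein_ed.1 (h2 _ hin hnπ)).1
          have heq : ∀ (d : Dir) (i j : Fin 3), Sep (ed v d) (fa v i) (fa v j) →
              (f (aa L (ed v d)) = f (bb L (ed v d)) ↔ f (pr L (fa v i)) = f (pr L (fa v j))) := by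
            intro d i j hs
            unfold aa bb
            rcases hs with ⟨s, t⟩ | ⟨s, t⟩
            · rw [s, t]
            · rw [s, t]
              exact eq_comm
          obtain ⟨sA, sB, sC⟩ := sep_at v
          have eA := heq _ _ _ sA
          have eB := heq _ _ _ sB
          have eC := heq _ _ _ sC
          rw [hd'] at *
          rw [hd] at ih
          cases d <;> cases d' <;> simp only [ne_eq, not_true, reduceCtorEq, not_false_iff] at hdd
          · have := hthird .C (by simp) (by simp)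
            rw [eC] at this
            rw [eA] at ih
            rw [eB, ih, this]
          · have := hthird .B (by simp) (by simp)
            rw [eB] at this
            rw [eA] at ih
            rw [eC, ← ih, this]
          · have := hthird .C (by simp) (by simp)
            rw [eC] at this
            rw [eB] at ih
            rw [eA, ih, this]
          · have := hthird .A (by simp) (by simp)
            rw [eA] at this
            rw [eB] at ih
            rw [eC, ← ih, this]
          · have := hthird .B (by simp) (by simp)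
            rw [eB] at this
            rw [eC] at ih
            rw [eA, ih, this]
          · have := hthird .A (by simp) (by simp)
            rw [eA] at this
            rw [eC] at ih
            rw [eB, this, ih]
    rintro e (he | he)
    · exact hf e he
    · exact key e (hconn e he)
  · unfold KK kap
    rw [Nat.add_one_le_iff]
    apply Submodule.finrank_lt_finrank_of_lt
    rw [lt_iff_le_not_ge]
    constructor
    · intro f hf
      rw [hU]
      rw [hW] at hf
      exact fun e he => hf e (Or.inl he)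
    · intro hle
      let g : VV L → ℚ := fun v => if v ∈ inte L π then 1 else 0
      have hg : g ∈ HH (aa L) (bb L) (fun i => aa L i ∈ σ ↔ bb L i ∈ σ) := by
        rw [hU]
        intro e he
        have hnp : e ∉ π := fun h => he (h1 h)
        rw [inte_edge hdeg hbox e, not_not] at hnp
        simp only [g, hnp]
      have hg2 := hle hg
      rw [hW] at hg2
      have h3 := hg2 e0 (Or.inr he0)
      have h4 := (inte_edge hdeg hbox e0).1 he0
      simp only [g] at h3
      by_cases h5 : aa L e0 ∈ inte L π <;> by_cases h6 : bb L e0 ∈ inte L π <;> simp_all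

/-- a loop contributes the factor `n * x ^ (length)` -/
theorem QQ_loop {L : ℕ} {T : Finset V} {π : Finset Ed} (h : LS L T π) (n x : ℝ) :
    QQ L n x T π = n * x ^ π.card * QQ L n x T ∅ := by
  have hL := h
  obtain ⟨hdeg, hfree, hconn, hbox⟩ := h
  have hπT : ∀ e ∈ π, ¬ Ein T e := by
    intro e he hT
    obtain ⟨d, hd⟩ := (tch_iff (v := p0 e) (e := e)).1 (Or.inl rfl)
    have h1 := hfree _ hT.1
    exact dg_zero h1 d (hd ▸ he)
  unfold QQ
  rw [Finset.mul_sum]
  refine Finset.sum_bij' (fun σ _ => symmDiff σ (inte L π)) (fun σ _ => symmDiff σ (inte L π))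
    ?_ ?_ ?_ ?_ ?_
  · intro σ hσ
    rw [mem_Cfg] at hσ ⊢
    refine ⟨Finset.empty_subset _, ?_⟩
    intro e he _
    rw [dd_flip hdeg hbox] at he
    have h1 := @hσ.1 e
    have h2 := hσ.2 e
    by_cases h3 : e ∈ π
    · exact absurd ⟨fun _ => h3, fun _ => h1 h3⟩ he
    · apply h2 _ h3
      by_contra h4
      exact he ⟨fun h => absurd h h4, fun h => absurd h h3⟩
  · intro σ hσ
    rw [mem_Cfg] at hσ ⊢
    have h0 : ∀ e ∈ π, e ∉ dd L σ := fun e he hd => hπT e he (hσ.2 e hd (Finset.notMem_empty _))
    refine ⟨?_, ?_⟩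
    · intro e he
      rw [dd_flip hdeg hbox]
      intro h1
      exact h0 e he (h1.2 he)
    · intro e he hn
      rw [dd_flip hdeg hbox] at he
      apply hσ.2 e _ (Finset.notMem_empty _)
      by_contra h4
      exact he ⟨fun h => absurd h h4, fun h => absurd h hn⟩
  · intro σ _
    rw [symmDiff_symmDiff_cancel_right]
  · intro σ _
    rw [symmDiff_symmDiff_cancel_right]
  · intro σ hσ
    rw [wg_eq, wg_eq, KK_flip hL hσ]
    have hc : (dd L σ).card = π.card + (dd L (symmDiff σ (inte L π))).card := by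
      rw [mem_Cfg] at hσ
      have e1 : dd L (symmDiff σ (inte L π)) = dd L σ \ π := by
        ext e
        rw [dd_flip hdeg hbox, Finset.mem_sdiff]
        have h1 := @hσ.1 e
        by_cases h2 : e ∈ π
        · simp [h2, h1 h2]
        · simp [h2]
      rw [e1, Finset.card_sdiff_of_subset hσ.1]
      have := Finset.card_le_card hσ.1
      omega
    rw [hc, pow_succ, pow_add]
    ring

end Pool.Agent.H97.ON
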