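import Pool.Agent.H97.ON.Sweep

set_option autoImplicit false
set_option linter.unusedSimpArgs false
set_option linter.unusedVariables false

/-!
Decay, boundedness and growth of the far masses.
-/

noncomputable section

namespace Pool.Agent.H97.ON

open H978R2.Hex H978R3.Wedge
open TH508.ON (exits wL ZL)
open Pool.Agent.TH232.Hex (push st good_push om_push out_push inactive_push good_st om_st)
open Pool.Agent.TH232.WX (WP wp_push wp_st domJ good_domJ wp_domJ om_domJ xPar ok_x wp_x om_x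
  x_finite scaleJ sJ sJ_gt aJ xJ xJ_pos Wg idx)
open Tr

variable {n x t : ℝ}

/-- comparison weights -/
def KJ (t : ℝ) (J m : ℕ) : ℝ := Real.cos (((m : ℝ) - ((J : ℝ) + 1) / 2) * t)

theorem K_ident (h : Prm n x t) {p : Par} (hp : Ok p) (J : ℕ) :
    ∑ m ∈ Finset.range 10, KJ t J m * Nm n x p m = Real.cos ((4 - ((J : ℝ) + 1) / 2) * t) := by
  have h1 := ident_N h hp (Real.cos ((4 - ((J : ℝ) + 1) / 2) * t))
    (-Real.sin ((4 - ((J : ℝ) + 1) / 2) * t))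
  refine Eq.trans (Finset.sum_congr rfl fun m _ => ?_) h1
  congr 1
  unfold KJ
  have e : ((m : ℝ) - ((J : ℝ) + 1) / 2) * t =
      ((m : ℝ) - 4) * t + (4 - ((J : ℝ) + 1) / 2) * t := by ring
  rw [e, Real.cos_add]
  ring

/-- value of the functional -/
def EJ (x t : ℝ) (J : ℕ) : ℝ :=
  Real.cos ((4 - ((J : ℝ) + 1) / 2) * t) - (if J = 3 then KJ t J 5 * x else 0)

/-- the far functional -/
def Gf (n x t : ℝ) (J : ℕ) (p : Par) : ℝ := ∑ m ∈ Finset.Icc 1 J, KJ t J m * Nm n x p m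

/-- the far mass -/
def SN (n x : ℝ) (J : ℕ) (p : Par) : ℝ := ∑ m ∈ Finset.Icc 1 J, Nm n x p m

/-- coefficient of the sides -/
def dl (t : ℝ) (J : ℕ) : ℝ := Real.cos (((J : ℝ) + 1) / 2 * t)

theorem K_zero (t : ℝ) (J : ℕ) : KJ t J 0 = dl t J := by
  unfold KJ dl
  rw [← Real.cos_neg]
  congr 1
  push_cast
  ring

theorem K_last (t : ℝ) (J : ℕ) : KJ t J (J + 1) = dl t J := by
  unfold KJ dl
  congr 1
  push_cast
  ring

theorem Nm_far {J : ℕ} (hJ : 3 ≤ J) (hJ6 : J ≤ 6) {p : Par} (hp : Ok p) (hw : WP J p) (m : ℕ)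
    (hm : J + 2 ≤ m) (hm9 : m ≤ 9) (h5 : m ≠ 5) : Nm n x p m = 0 := by
  unfold Nm
  exact zero_Mk hJ hJ6 hp hw _ (by omega) (by omega) (by omega)

theorem G_split (h : Prm n x t) {J : ℕ} (hJ : 3 ≤ J) (hJ6 : J ≤ 6) {p : Par} (hp : Ok p)
    (hw : WP J p) :
    Gf n x t J p + dl t J * (Nm n x p 0 + Nm n x p (J + 1)) = EJ x t J := by
  have h1 := K_ident h hp J
  have hz := fun m => Nm_far (n := n) (x := x) hJ hJ6 hp hw m
  have a0 := K_zero t J
  have a1 := K_last t J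
  unfold EJ Gf
  rw [← h1]
  interval_cases J
  · have i : Finset.Icc 1 3 = ({1, 2, 3} : Finset ℕ) := rfl
    rw [i]
    have e5 : Nm n x p 5 = x := by
      unfold Nm
      exact one_Mk h hp hw
    simp [Finset.sum_range_succ, hz 6, hz 7, hz 8, hz 9, e5, a0, a1]
    ring
  · have i : Finset.Icc 1 4 = ({1, 2, 3, 4} : Finset ℕ) := rfl
    rw [i]
    simp [Finset.sum_range_succ, hz 6, hz 7, hz 8, hz 9, a0, a1]
    ring
  · have i : Finset.Icc 1 5 = ({1, 2, 3, 4, 5} : Finset ℕ) := rfl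
    rw [i]
    simp [Finset.sum_range_succ, hz 7, hz 8, hz 9, a0, a1]
    ring
  · have i : Finset.Icc 1 6 = ({1, 2, 3, 4, 5, 6} : Finset ℕ) := rfl
    rw [i]
    simp [Finset.sum_range_succ, hz 8, hz 9, a0, a1]
    ring

/-- the masses of the sides are monotone -/
theorem near_mono (h : Prm n x t) {J : ℕ} (hJ : 3 ≤ J) (hJ6 : J ≤ 6) {p p' : Par} (hp : Ok p)
    (hp' : Ok p') (hw : WP J p) (hw' : WP J p') (hsub : ∀ v, Om p v → Om p' v) :
    Nm n x p 0 + Nm n x p (J + 1) ≤ Nm n x p' 0 + Nm n x p' (J + 1) := by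
  have key : ∀ k : ℤ, (k = -4 ∨ k = (J : ℤ) - 3) → Mk n x p k ≤ Mk n x p' k := by
    intro k hk'
    apply Mk_mono h.hn h.hx h.hnx hp hp' hsub
    intro z hz
    refine out_gen p p' k z hz ?_ ?_ ?_ ?_ ?_ ?_ ?_ ?_
    · intro h; exact hw'.w4.trans hw.w4.symm
    · intro h; exact hw'.w3.trans hw.w3.symm
    · intro h; rw [hw'.w2 (by omega), hw.w2 (by omega)]
    · intro h; rw [hw'.w1 (by omega), hw.w1 (by omega)]
    · intro h; rw [hw'.w0 (by omega), hw.w0 (by omega)]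
    · intro h; omega
    · intro h; omega
    · intro h; omega
  apply add_le_add
  · exact key _ (Or.inl (by norm_num))
  · exact key _ (Or.inr (by push_cast; ring))

theorem K_le_one (t : ℝ) (J m : ℕ) : KJ t J m ≤ 1 := Real.cos_le_one _

theorem K_ge {J m : ℕ} (ht : 0 ≤ t) (hJ : ((J : ℝ) - 1) / 2 * t ≤ Real.pi) (h1 : 1 ≤ m)
    (h2 : m ≤ J) : Real.cos (((J : ℝ) - 1) / 2 * t) ≤ KJ t J m := by
  unfold KJ
  rw [← Real.cos_abs (((m : ℝ) - ((J : ℝ) + 1) / 2) * t)]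
  have h1' : (1 : ℝ) ≤ m := by exact_mod_cast h1
  have h2' : (m : ℝ) ≤ J := by exact_mod_cast h2
  apply Real.cos_le_cos_of_nonneg_of_le_pi (abs_nonneg _) hJ
  rw [abs_mul, abs_of_nonneg ht]
  apply mul_le_mul_of_nonneg_right _ ht
  rw [abs_le]
  constructor <;> linarith

/-- comparison of the far functional and the far mass -/
theorem G_le_S (h : Prm n x t) (J : ℕ) (p : Par) : Gf n x t J p ≤ SN n x J p := by
  unfold Gf SN
  apply Finset.sum_le_sum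
  intro m _
  have := Nm_nonneg h p m
  have := K_le_one t J m
  nlinarith

theorem S_le_G (h : Prm n x t) {J : ℕ} (hJ : ((J : ℝ) - 1) / 2 * t ≤ Real.pi) (p : Par) :
    Real.cos (((J : ℝ) - 1) / 2 * t) * SN n x J p ≤ Gf n x t J p := by
  unfold Gf SN
  rw [Finset.mul_sum]
  apply Finset.sum_le_sum
  intro m hm
  rw [Finset.mem_Icc] at hm
  exact mul_le_mul_of_nonneg_right (K_ge h.tpos.le hJ hm.1 hm.2) (Nm_nonneg h p m)

theorem SN_nonneg (h : Prm n x t) (J : ℕ) (p : Par) : 0 ≤ SN n x J p :=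
  Finset.sum_nonneg fun m _ => Nm_nonneg h p m

theorem PP_eq (n x t ψ : ℝ) {J : ℕ} (hJ6 : J ≤ 6) (p : Par) :
    PP n x t ψ J p = ∑ m ∈ Finset.Icc 1 J, uu t ψ m * Nm n x p m := by
  unfold PP
  symm
  have : ∑ m ∈ Finset.Icc 1 J, uu t ψ m * Nm n x p m =
      ∑ m ∈ Finset.Icc 1 J, (if m ≤ J then uu t ψ m else 0) * Nm n x p m := by
    refine Finset.sum_congr rfl fun m hm => ?_
    rw [Finset.mem_Icc] at hm
    rw [if_pos hm.2]
  rw [this]
  apply Finset.sum_subset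
  · intro m hm
    rw [Finset.mem_Icc] at hm
    rw [Finset.mem_range]
    omega
  · intro m _ hm
    rw [Finset.mem_Icc, not_and, not_le] at hm
    rcases Nat.eq_zero_or_pos m with h0 | h0
    · subst h0
      rw [uu_zero]
      simp
    · rw [if_neg (by have := hm h0; omega)]
      simp

theorem sin_ge {J : ℕ} {ψ : ℝ} (hψ : ((J : ℝ) + 1) * ψ = Real.pi) (hψ0 : 0 < ψ) {m : ℕ}
    (h1 : 1 ≤ m) (h2 : m ≤ J) : Real.sin ψ ≤ Real.sin (m * ψ) := by
  have h1' : (1 : ℝ) ≤ m := by exact_mod_cast h1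
  have h2' : (m : ℝ) ≤ J := by exact_mod_cast h2
  have e1 : Real.sin ψ = Real.cos (Real.pi / 2 - ψ) := (Real.cos_pi_div_two_sub ψ).symm
  have e2 : Real.sin (m * ψ) = Real.cos |Real.pi / 2 - m * ψ| := by
    rw [Real.cos_abs, Real.cos_pi_div_two_sub]
  rw [e1, e2]
  have hpi := Real.pi_pos
  apply Real.cos_le_cos_of_nonneg_of_le_pi (abs_nonneg _) (by linarith)
  rw [abs_le]
  constructor <;> nlinarith

/-- bounds of the weights -/
theorem uu_bounds {J : ℕ} {ψ : ℝ} (hψ : ((J : ℝ) + 1) * ψ = Real.pi) (hψ0 : 0 < ψ)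
    (hr : 0 < rr t ψ) {m : ℕ} (h1 : 1 ≤ m) (h2 : m ≤ J) :
    (min 1 (rr t ψ)) ^ J * Real.sin ψ ≤ uu t ψ m ∧ uu t ψ m ≤ (max 1 (rr t ψ)) ^ J := by
  have hs := sin_ge hψ hψ0 h1 h2
  have hpi := Real.pi_pos
  have h1' : (1 : ℝ) ≤ m := by exact_mod_cast h1
  have h2' : (m : ℝ) ≤ J := by exact_mod_cast h2
  have hs0 : 0 ≤ Real.sin ψ := by
    apply Real.sin_nonneg_of_nonneg_of_le_pi hψ0.le
    nlinarith
  have hs1 := Real.sin_le_one (m * ψ)
  have hmin0 : 0 < min 1 (rr t ψ) := lt_min one_pos hr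
  have hmin1 : min 1 (rr t ψ) ≤ 1 := min_le_left _ _
  have hmax1 : 1 ≤ max 1 (rr t ψ) := le_max_left _ _
  unfold uu
  constructor
  · apply mul_le_mul _ hs hs0 (by positivity)
    calc (min 1 (rr t ψ)) ^ J ≤ (min 1 (rr t ψ)) ^ m :=
          pow_le_pow_of_le_one hmin0.le hmin1 h2
      _ ≤ rr t ψ ^ m := pow_le_pow_left₀ hmin0.le (min_le_right _ _) m
  · calc rr t ψ ^ m * Real.sin (m * ψ) ≤ rr t ψ ^ m * 1 :=
          mul_le_mul_of_nonneg_left hs1 (by positivity)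
      _ = rr t ψ ^ m := mul_one _
      _ ≤ (max 1 (rr t ψ)) ^ m := pow_le_pow_left₀ hr.le (le_max_right _ _) m
      _ ≤ (max 1 (rr t ψ)) ^ J := pow_le_pow_right₀ hmax1 h2

theorem PP_ge (h : Prm n x t) {J : ℕ} (hJ6 : J ≤ 6) {ψ : ℝ} (hψ : ((J : ℝ) + 1) * ψ = Real.pi)
    (hψ0 : 0 < ψ) (hr : 0 < rr t ψ) (p : Par) :
    (min 1 (rr t ψ)) ^ J * Real.sin ψ * SN n x J p ≤ PP n x t ψ J p := by
  rw [PP_eq n x t ψ hJ6]
  unfold SN
  rw [Finset.mul_sum]
  apply Finset.sum_le_sum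
  intro m hm
  rw [Finset.mem_Icc] at hm
  exact mul_le_mul_of_nonneg_right (uu_bounds hψ hψ0 hr hm.1 hm.2).1 (Nm_nonneg h p m)

theorem PP_le (h : Prm n x t) {J : ℕ} (hJ6 : J ≤ 6) {ψ : ℝ} (hψ : ((J : ℝ) + 1) * ψ = Real.pi)
    (hψ0 : 0 < ψ) (hr : 0 < rr t ψ) (p : Par) :
    PP n x t ψ J p ≤ (max 1 (rr t ψ)) ^ J * SN n x J p := by
  rw [PP_eq n x t ψ hJ6]
  unfold SN
  rw [Finset.mul_sum]
  apply Finset.sum_le_sum
  intro m hm
  rw [Finset.mem_Icc] at hm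
  exact mul_le_mul_of_nonneg_right (uu_bounds hψ hψ0 hr hm.1 hm.2).2 (Nm_nonneg h p m)

/-- iteration of the sweeps -/
theorem sweeps (h : Prm n x t) {J : ℕ} (hJ : 3 ≤ J) (hJ6 : J ≤ 6) {ψ σ : ℝ}
    (hψ : ((J : ℝ) + 1) * ψ = Real.pi) (hσ : 0 ≤ σ * (rr t ψ ^ 2 - 1))
    (hJt : (J : ℝ) * t ≤ Real.pi) (i : ℕ) :
    0 ≤ σ * (PP n x t ψ J (domJ J 0) - (rr t ψ ^ 2) ^ i * PP n x t ψ J (domJ J i)) := by
  induction i with
  | zero => simp
  | succ i ih =>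
    have h2 := sweep_gen h hJ hJ6 hψ hσ hJt (good_domJ hJ6 i) (wp_domJ hJ6 i)
    have e : domJ J (i + 1) = st (domJ J i) J := rfl
    rw [e, pow_succ]
    have h3 : 0 ≤ (rr t ψ ^ 2) ^ i := by positivity
    have h4 := mul_nonneg h3 h2
    nlinarith

/-- powers -/
theorem pow_rpow {s g : ℝ} (hs : 1 < s) (hg : 0 < g) (i : ℕ) :
    g ^ i = (s ^ i) ^ (Real.log g / Real.log s) := by
  have hs0 : 0 < s := by linarith
  have hl : 0 < Real.log s := Real.log_pos hs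
  have hsi : 0 < s ^ i := by positivity
  rw [Real.rpow_def_of_pos hsi, Real.log_pow]
  have e : (i : ℝ) * Real.log s * (Real.log g / Real.log s) = i * Real.log g := by
    field_simp
  rw [e, ← Real.log_pow, Real.exp_log (by positivity)]

/-- scales -/
theorem scale_pow {J : ℕ} (hJ : 3 ≤ J) (hJ6 : J ≤ 6) {g : ℝ} (hg : 1 < g) :
    ∃ a : ℝ, 0 < a ∧ ∀ N : ℤ, 1 ≤ N → ∃ i : ℕ,
      a * (N : ℝ) ^ (Real.log g / Real.log (sJ J)) ≤ g ^ i ∧
      ∀ v, Om (domJ J i) v → Om (xPar J N) v := by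
  have hs := sJ_gt J
  have hx := xJ_pos J
  have ha : 0 < aJ J := by unfold aJ; split_ifs <;> norm_num
  set b := aJ J * xJ J / 2 with hb
  have hbpos : 0 < b := by positivity
  set θ := Real.log g / Real.log (sJ J) with hθ
  have hθ0 : 0 < θ := div_pos (Real.log_pos hg) (Real.log_pos hs)
  have hg0 : 0 < g := by linarith
  refine ⟨1 / (g * b ^ θ), by positivity, ?_⟩
  intro N hN
  obtain ⟨i, h1, h2⟩ := scaleJ hJ hJ6 N hN
  refine ⟨i, ?_, h2⟩
  have hN1 : (1 : ℝ) ≤ N := by exact_mod_cast hN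
  have h3 : (N : ℝ) ^ θ ≤ (b * sJ J ^ (i + 1)) ^ θ :=
    Real.rpow_le_rpow (by linarith) h1 hθ0.le
  rw [Real.mul_rpow hbpos.le (by positivity), ← pow_rpow hs hg0, pow_succ] at h3
  have hbt : 0 < b ^ θ := Real.rpow_pos_of_pos hbpos θ
  rw [div_mul_eq_mul_div, one_mul, div_le_iff₀ (by positivity)]
  nlinarith

/-- facts on the angles -/
theorem angles (h : Prm n x t) {J : ℕ} (hJ : 3 ≤ J) {ψ : ℝ}
    (hψ : ((J : ℝ) + 1) * ψ = Real.pi) : 0 < ψ ∧ ψ < Real.pi / 2 ∧ 0 < Real.cos ψ ∧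
      0 < Real.sin ψ ∧ 0 < rr t ψ := by
  have hJ3 : (3 : ℝ) ≤ J := by exact_mod_cast hJ
  have hpi := Real.pi_pos
  have hψ0 : 0 < ψ := by
    by_contra hc
    push Not at hc
    nlinarith
  have hψ1 : ψ < Real.pi / 2 := by nlinarith
  have hcψ : 0 < Real.cos ψ := Real.cos_pos_of_mem_Ioo ⟨by linarith, hψ1⟩
  refine ⟨hψ0, hψ1, hcψ, Real.sin_pos_of_pos_of_lt_pi hψ0 (by linarith), ?_⟩
  unfold rr
  exact div_pos h.cos_pos hcψ

/-- **decay** -/
theorem decay (h : Prm n x t) {J : ℕ} (hJ : 3 ≤ J) (hJ6 : J ≤ 6) {ψ : ℝ}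
    (hψ : ((J : ℝ) + 1) * ψ = Real.pi) (ht : t < ψ) :
    ∃ C : ℝ, 0 < C ∧ ∀ N : ℤ, 1 ≤ N → SN n x J (xPar J N) ≤
      C * (N : ℝ) ^ (-(Real.log (rr t ψ ^ 2) / Real.log (sJ J))) := by
  obtain ⟨hψ0, hψ1, hcψ, hsψ, hr⟩ := angles h hJ hψ
  have hJ3 : (3 : ℝ) ≤ J := by exact_mod_cast hJ
  have hpi := Real.pi_pos
  have htp := h.tpos
  have hr1 : 1 < rr t ψ := by
    unfold rr
    rw [one_lt_div hcψ]
    exact Real.cos_lt_cos_of_nonneg_of_le_pi_div_two htp.le hψ1.le ht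
  have hr2 : 1 < rr t ψ ^ 2 := by nlinarith
  have hJt : (J : ℝ) * t ≤ Real.pi := by nlinarith
  have hd : 0 < dl t J := by
    unfold dl
    apply Real.cos_pos_of_mem_Ioo
    constructor
    · have : 0 < ((J : ℝ) + 1) / 2 * t := by positivity
      linarith
    · nlinarith
  have hK : ∀ p : Par, dl t J * SN n x J p ≤ Gf n x t J p := by
    intro p
    refine le_trans ?_ (S_le_G h (by nlinarith) p)
    apply mul_le_mul_of_nonneg_right _ (SN_nonneg h J p)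
    unfold dl
    apply Real.cos_le_cos_of_nonneg_of_le_pi
    · have : 0 ≤ ((J : ℝ) - 1) / 2 := by linarith
      positivity
    · nlinarith
    · nlinarith
  obtain ⟨a, ha, hsc⟩ := scale_pow hJ hJ6 hr2
  set c := (min 1 (rr t ψ)) ^ J * Real.sin ψ with hc
  have hcpos : 0 < c := by
    have : 0 < min 1 (rr t ψ) := lt_min one_pos hr
    positivity
  set P0 := PP n x t ψ J (domJ J 0) with hP0
  have hP0nn : 0 ≤ P0 := by
    have b1 := PP_ge h hJ6 hψ hψ0 hr (domJ J 0)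
    have b2 : 0 ≤ c * SN n x J (domJ J 0) := mul_nonneg hcpos.le (SN_nonneg h J (domJ J 0))
    exact b2.trans b1
  refine ⟨(P0 + 1) / (c * dl t J * a), by positivity, ?_⟩
  intro N hN
  obtain ⟨i, hi1, hi2⟩ := hsc N hN
  have s1 := hK (xPar J N)
  have s2 : Gf n x t J (xPar J N) ≤ Gf n x t J (domJ J i) := by
    have e1 := G_split h hJ hJ6 (ok_x J N hN) (wp_x J hJ6 N)
    have e2 := G_split h hJ hJ6 (good_domJ hJ6 i).ok (wp_domJ hJ6 i)
    have e3 := near_mono h hJ hJ6 (good_domJ hJ6 i).ok (ok_x J N hN) (wp_domJ hJ6 i)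
      (wp_x J hJ6 N) hi2
    nlinarith
  have s3 := G_le_S h J (domJ J i)
  have s4 := PP_ge h hJ6 hψ hψ0 hr (domJ J i)
  have s5 := sweeps h hJ hJ6 hψ (σ := 1) (by nlinarith) hJt i
  rw [one_mul, ← hP0] at s5
  have hgi : 0 < (rr t ψ ^ 2) ^ i := by positivity
  have hNp : 0 < (N : ℝ) ^ (Real.log (rr t ψ ^ 2) / Real.log (sJ J)) :=
    Real.rpow_pos_of_pos (by have : (1 : ℝ) ≤ N := by exact_mod_cast hN
                             linarith) _
  have hN0 : (0 : ℝ) ≤ N := by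
    have : (1 : ℝ) ≤ N := by exact_mod_cast hN
    linarith
  rw [Real.rpow_neg hN0, ← div_eq_mul_inv, le_div_iff₀ hNp, le_div_iff₀ (by positivity)]
  have t1 : c * (dl t J * SN n x J (xPar J N)) ≤ PP n x t ψ J (domJ J i) := by
    refine le_trans ?_ s4
    exact mul_le_mul_of_nonneg_left (s1.trans (s2.trans s3)) hcpos.le
  have t2 : (a * (N : ℝ) ^ (Real.log (rr t ψ ^ 2) / Real.log (sJ J))) *
      (c * (dl t J * SN n x J (xPar J N))) ≤ (rr t ψ ^ 2) ^ i * PP n x t ψ J (domJ J i) := by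
    exact mul_le_mul hi1 t1 (mul_nonneg hcpos.le (mul_nonneg hd.le (SN_nonneg h J (xPar J N))))
      hgi.le
  calc SN n x J (xPar J N) * (N : ℝ) ^ (Real.log (rr t ψ ^ 2) / Real.log (sJ J)) *
      (c * dl t J * a) =
      (a * (N : ℝ) ^ (Real.log (rr t ψ ^ 2) / Real.log (sJ J))) *
      (c * (dl t J * SN n x J (xPar J N))) := by ring
    _ ≤ (rr t ψ ^ 2) ^ i * PP n x t ψ J (domJ J i) := t2
    _ ≤ P0 := by linarith
    _ ≤ P0 + 1 := by linarith

/-- the constants are positive -/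
theorem EJ_pos (h : Prm n x t) {J : ℕ} (hJ : 4 ≤ J) (hJ6 : J ≤ 6) : 0 < EJ x t J := by
  unfold EJ
  rw [if_neg (by omega), sub_zero]
  have hpi := Real.pi_pos
  have h0 := h.tpos
  have h1 := h.t1
  have hJ4 : (4 : ℝ) ≤ J := by exact_mod_cast hJ
  have hJ6' : (J : ℝ) ≤ 6 := by exact_mod_cast hJ6
  apply Real.cos_pos_of_mem_Ioo
  constructor <;> nlinarith

theorem EJ_three (h : Prm n x t) : EJ x t 3 = 1 / 2 := by
  unfold EJ KJ
  rw [if_pos rfl]
  have e1 : (4 - (((3 : ℕ) : ℝ) + 1) / 2) * t = 2 * t := by push_cast; ring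
  have e2 : ((((5 : ℕ) : ℝ)) - (((3 : ℕ) : ℝ) + 1) / 2) * t = 3 * t := by push_cast; ring
  rw [e1, e2, Real.cos_two_mul, Real.cos_three_mul]
  have hx := h.hxt
  have hc := h.cos_pos
  have : x = 1 / (2 * Real.cos t) := by field_simp; linarith
  rw [this]
  field_simp
  ring

/-- **growth** -/
theorem growth_J (h : Prm n x t) {J : ℕ} (hJ : 4 ≤ J) (hJ6 : J ≤ 6) {ψ : ℝ}
    (hψ : ((J : ℝ) + 1) * ψ = Real.pi) (ht : ψ < t) (hJt : (J : ℝ) * t ≤ Real.pi) :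
    ∃ c : ℝ, 0 < c ∧ ∀ N : ℤ, 1 ≤ N →
      c * (N : ℝ) ^ (Real.log (1 / rr t ψ ^ 2) / Real.log (sJ J)) ≤ SN n x J (xPar J N) := by
  have hJ3' : 3 ≤ J := by omega
  obtain ⟨hψ0, hψ1, hcψ, hsψ, hr⟩ := angles h hJ3' hψ
  have hJ3 : (4 : ℝ) ≤ J := by exact_mod_cast hJ
  have hpi := Real.pi_pos
  have htp := h.tpos
  have ht1 := h.t1
  have hr1 : rr t ψ < 1 := by
    unfold rr
    rw [div_lt_one hcψ]
    exact Real.cos_lt_cos_of_nonneg_of_le_pi_div_two hψ0.le (by linarith) ht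
  have hr2 : rr t ψ ^ 2 < 1 := by nlinarith
  have hr2p : 0 < rr t ψ ^ 2 := by positivity
  have hg : 1 < 1 / rr t ψ ^ 2 := by rw [lt_div_iff₀ hr2p]; linarith
  have hd : dl t J ≤ 0 := by
    unfold dl
    apply Real.cos_nonpos_of_pi_div_two_le_of_le
    · nlinarith
    · nlinarith
  have hKp : 0 < Real.cos (((J : ℝ) - 1) / 2 * t) := by
    apply Real.cos_pos_of_mem_Ioo
    constructor
    · have : 0 < ((J : ℝ) - 1) / 2 * t := by
        have : 0 < ((J : ℝ) - 1) / 2 := by linarith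
        positivity
      linarith
    · nlinarith
  obtain ⟨a, ha, hsc⟩ := scale_pow hJ3' hJ6 hg
  have hE := EJ_pos h hJ hJ6
  set c := (min 1 (rr t ψ)) ^ J * Real.sin ψ with hc
  have hcpos : 0 < c := by
    have : 0 < min 1 (rr t ψ) := lt_min one_pos hr
    positivity
  set C := (max 1 (rr t ψ)) ^ J with hC
  have hCpos : 0 < C := by positivity
  set P0 := PP n x t ψ J (domJ J 0) with hP0
  have hP0p : 0 < P0 := by
    have b1 := PP_ge h hJ6 hψ hψ0 hr (domJ J 0)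
    have b2 := G_le_S h J (domJ J 0)
    have b3 := G_split h hJ3' hJ6 (good_domJ hJ6 0).ok (wp_domJ hJ6 0)
    have b4 := Nm_nonneg h (domJ J 0) 0
    have b5 := Nm_nonneg h (domJ J 0) (J + 1)
    have b6 : EJ x t J ≤ SN n x J (domJ J 0) := by nlinarith
    have b7 : 0 < c * SN n x J (domJ J 0) := mul_pos hcpos (by linarith)
    linarith
  set K := Real.cos (((J : ℝ) - 1) / 2 * t) with hK
  refine ⟨K * P0 * a / C, by positivity, ?_⟩
  intro N hN
  obtain ⟨i, hi1, hi2⟩ := hsc N hN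
  have s1 := G_le_S h J (xPar J N)
  have s2 : Gf n x t J (domJ J i) ≤ Gf n x t J (xPar J N) := by
    have e1 := G_split h hJ3' hJ6 (ok_x J N hN) (wp_x J hJ6 N)
    have e2 := G_split h hJ3' hJ6 (good_domJ hJ6 i).ok (wp_domJ hJ6 i)
    have e3 := near_mono h hJ3' hJ6 (good_domJ hJ6 i).ok (ok_x J N hN) (wp_domJ hJ6 i)
      (wp_x J hJ6 N) hi2
    nlinarith
  have s3 := S_le_G h (J := J) (by nlinarith) (domJ J i)
  rw [← hK] at s3
  have s4 := PP_le h hJ6 hψ hψ0 hr (domJ J i)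
  rw [← hC] at s4
  have s5 := sweeps h hJ3' hJ6 hψ (σ := -1) (by nlinarith) hJt i
  rw [← hP0] at s5
  have hgi : 0 < (1 / rr t ψ ^ 2) ^ i := by positivity
  have hgg : (1 / rr t ψ ^ 2) ^ i * (rr t ψ ^ 2) ^ i = 1 := by
    rw [← mul_pow, one_div, inv_mul_cancel₀ hr2p.ne', one_pow]
  have s6 : (1 / rr t ψ ^ 2) ^ i * P0 ≤ PP n x t ψ J (domJ J i) := by
    have s7 : P0 ≤ (rr t ψ ^ 2) ^ i * PP n x t ψ J (domJ J i) := by linarith
    calc (1 / rr t ψ ^ 2) ^ i * P0 ≤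
        (1 / rr t ψ ^ 2) ^ i * ((rr t ψ ^ 2) ^ i * PP n x t ψ J (domJ J i)) :=
          mul_le_mul_of_nonneg_left s7 hgi.le
      _ = PP n x t ψ J (domJ J i) := by rw [← mul_assoc, hgg, one_mul]
  have hNp : 0 < (N : ℝ) ^ (Real.log (1 / rr t ψ ^ 2) / Real.log (sJ J)) :=
    Real.rpow_pos_of_pos (by have : (1 : ℝ) ≤ N := by exact_mod_cast hN
                             linarith) _
  have t1 : K * SN n x J (domJ J i) ≤ SN n x J (xPar J N) := s3.trans (s2.trans s1)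
  have t2 : (a * (N : ℝ) ^ (Real.log (1 / rr t ψ ^ 2) / Real.log (sJ J))) * P0 ≤
      C * SN n x J (domJ J i) :=
    (mul_le_mul_of_nonneg_right hi1 hP0p.le).trans (s6.trans s4)
  rw [div_mul_eq_mul_div, div_le_iff₀ hCpos]
  calc K * P0 * a * (N : ℝ) ^ (Real.log (1 / rr t ψ ^ 2) / Real.log (sJ J)) =
      K * ((a * (N : ℝ) ^ (Real.log (1 / rr t ψ ^ 2) / Real.log (sJ J))) * P0) := by ring
    _ ≤ K * (C * SN n x J (domJ J i)) := mul_le_mul_of_nonneg_left t2 hKp.le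
    _ = (K * SN n x J (domJ J i)) * C := by ring
    _ ≤ SN n x J (xPar J N) * C := mul_le_mul_of_nonneg_right t1 hCpos.le

/-- **the critical case** -/
theorem critical (h : Prm n x t) {J : ℕ} (hJ : 3 ≤ J) (hJ6 : J ≤ 6)
    (ht : ((J : ℝ) + 1) * t = Real.pi) (N : ℤ) (hN : 1 ≤ N) :
    EJ x t J ≤ SN n x J (xPar J N) ∧ Real.sin t * SN n x J (xPar J N) ≤ EJ x t J := by
  have hJ3 : (3 : ℝ) ≤ J := by exact_mod_cast hJ
  have hpi := Real.pi_pos
  have htp := h.tpos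
  have hd : dl t J = 0 := by
    unfold dl
    have : ((J : ℝ) + 1) / 2 * t = Real.pi / 2 := by linarith
    rw [this, Real.cos_pi_div_two]
  have e1 := G_split h hJ hJ6 (ok_x J N hN) (wp_x J hJ6 N)
  rw [hd, zero_mul, add_zero] at e1
  rw [← e1]
  refine ⟨G_le_S h J _, ?_⟩
  have e2 := S_le_G h (J := J) (by nlinarith) (xPar J N)
  have e3 : ((J : ℝ) - 1) / 2 * t = Real.pi / 2 - t := by linarith
  rw [e3, Real.cos_pi_div_two_sub] at e2
  exact e2

end Pool.Agent.H97.ON
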