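import Pool.Agent.H97.ON.Dec

set_option autoImplicit false
set_option linter.unusedSimpArgs false
set_option linter.unusedVariables false

/-!
The far masses in terms of the exit vertices, other domains, and the masses of the sides.
-/

noncomputable section

namespace Pool.Agent.H97.ON

open H978R2.Hex H978R3.Wedge
open TH508.ON (exits wL ZL wL_nonneg)
open Pool.Agent.TH232.Hex (push st good_push om_push out_push inactive_push good_st om_st)
open Pool.Agent.TH232.WX (WP wp_push wp_st domJ good_domJ wp_domJ om_domJ xPar ok_x wp_x om_x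
  x_finite scaleJ sJ sJ_gt aJ xJ xJ_pos Wg idx)
open Tr

variable {n x t : ℝ}

/-- total weight of the exits satisfying `Q` -/
def XM (n x : ℝ) (S : Finset V) (Q : V → Prop) [DecidablePred Q] : ℝ :=
  ∑ l ∈ (exits S).filter (fun l => Q (l.headD (0, 0))), wL n x S l

theorem SN_eq (n x : ℝ) (J : ℕ) (p : Par) : SN n x J p =
    ∑ l ∈ (exits (fs p)).filter (fun l => -3 ≤ W l ∧ W l ≤ (J : ℤ) - 4), wL n x (fs p) l := by
  symm
  rw [← Finset.sum_fiberwise_of_maps_to (t := Finset.Icc 1 J) (g := fun l => (W l + 4).toNat)]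
  · unfold SN
    refine Finset.sum_congr rfl fun m hm => ?_
    rw [Finset.mem_Icc] at hm
    unfold Nm Mk
    refine Finset.sum_congr ?_ (fun _ _ => rfl)
    ext l
    simp only [Finset.mem_filter]
    constructor
    · rintro ⟨⟨h1, h2⟩, h3⟩
      exact ⟨h1, by omega⟩
    · rintro ⟨h1, h2⟩
      exact ⟨⟨h1, by omega⟩, by omega⟩
  · intro l hl
    rw [Finset.mem_filter] at hl
    rw [Finset.mem_Icc]
    omega

theorem idx_x {J : ℕ} (hJ : 3 ≤ J) (hJ6 : J ≤ 6) {N : ℤ} (hN : 1 ≤ N) {l : List V}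
    (hl : l ∈ exits (fs (xPar J N))) :
    (Wg J (l.headD (0, 0)) → -2 ≤ W l ∧ W l ≤ (J : ℤ) - 4) ∧
    (¬ Wg J (l.headD (0, 0)) → (W l = -4 ∧ Slit (l.headD (0, 0))) ∨
      (W l = (J : ℤ) - 3 ∧ ¬ Slit (l.headD (0, 0))) ∨
      (J = 3 ∧ W l = 1 ∧ ¬ Slit (l.headD (0, 0)))) ∧ l.headD (0, 0) ≠ (0, 0) :=
  idx hJ hJ6 N hN (exits_fs hl).1 (exits_fs hl).2

theorem wg_slit {J : ℕ} {z : V} (h : Wg J z) : ¬ Slit z := by
  intro hs
  have := h.1 hs.1
  have := hs.2
  omega

/-- the far mass -/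
theorem far_eq {J : ℕ} (hJ : 3 ≤ J) (hJ6 : J ≤ 6) {N : ℤ} (hN : 1 ≤ N) :
    SN n x J (xPar J N) = XM n x (fs (xPar J N)) (Wg J) := by
  rw [SN_eq]
  unfold XM
  refine Finset.sum_congr ?_ (fun _ _ => rfl)
  apply Finset.filter_congr
  intro l hl
  obtain ⟨i1, i2, i3⟩ := idx_x hJ hJ6 hN hl
  constructor
  · intro h
    by_contra hw
    rcases i2 hw with a | a | a <;> omega
  · intro h
    have := i1 h
    omega

/-- the mass of the slit side -/
theorem low_eq {J : ℕ} (hJ : 3 ≤ J) (hJ6 : J ≤ 6) {N : ℤ} (hN : 1 ≤ N) (Q : V → Prop)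
    [DecidablePred Q] (hQ : ∀ z, Q z ↔ Slit z) :
    Nm n x (xPar J N) 0 = XM n x (fs (xPar J N)) Q := by
  unfold Nm Mk XM
  refine Finset.sum_congr ?_ (fun _ _ => rfl)
  apply Finset.filter_congr
  intro l hl
  obtain ⟨i1, i2, i3⟩ := idx_x hJ hJ6 hN hl
  rw [hQ]
  by_cases hw : Wg J (l.headD (0, 0))
  · have a := i1 hw
    constructor
    · intro h
      simp only [Nat.cast_zero] at h
      omega
    · intro h
      exact absurd h (wg_slit hw)
  · rcases i2 hw with a | a | a
    · exact ⟨fun _ => a.2, fun _ => by simpa using a.1⟩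
    · refine ⟨fun h => ?_, fun h => absurd h a.2⟩
      simp only [Nat.cast_zero] at h
      omega
    · refine ⟨fun h => ?_, fun h => absurd h a.2.2⟩
      simp only [Nat.cast_zero] at h
      omega

/-- the mass of the other side -/
theorem up_eq {J : ℕ} (hJ : 4 ≤ J) (hJ6 : J ≤ 6) {N : ℤ} (hN : 1 ≤ N) (Q : V → Prop)
    [DecidablePred Q] (hQ : ∀ z, Q z ↔ ¬ Wg J z ∧ ¬ Slit z) :
    Nm n x (xPar J N) (J + 1) = XM n x (fs (xPar J N)) Q := by
  unfold Nm Mk XM
  refine Finset.sum_congr ?_ (fun _ _ => rfl)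
  apply Finset.filter_congr
  intro l hl
  obtain ⟨i1, i2, i3⟩ := idx_x (by omega) hJ6 hN hl
  rw [hQ]
  push_cast
  by_cases hw : Wg J (l.headD (0, 0))
  · have a := i1 hw
    exact ⟨fun h => by omega, fun h => absurd hw h.1⟩
  · rcases i2 hw with a | a | a
    · exact ⟨fun h => by omega, fun h => absurd a.2 h.2⟩
    · exact ⟨fun _ => ⟨hw, a.2⟩, fun _ => by omega⟩
    · omega

/-- the mass of the other side, 60 degrees -/
theorem up_eq3 (h : Prm n x t) {N : ℤ} (hN : 1 ≤ N) (Q : V → Prop)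
    [DecidablePred Q] (hQ : ∀ z, Q z ↔ ¬ Wg 3 z ∧ ¬ Slit z) :
    Nm n x (xPar 3 N) 4 + x = XM n x (fs (xPar 3 N)) Q := by
  have e5 : Nm n x (xPar 3 N) 5 = x := by
    unfold Nm
    exact one_Mk h (ok_x 3 N hN) (wp_x 3 (by norm_num) N)
  have e : Nm n x (xPar 3 N) 4 + Nm n x (xPar 3 N) 5 = XM n x (fs (xPar 3 N)) Q := by
    unfold Nm Mk XM
    rw [← Finset.sum_union]
    · refine Finset.sum_congr ?_ (fun _ _ => rfl)
      ext l
      simp only [Finset.mem_union, Finset.mem_filter]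
      rw [← and_or_left]
      refine and_congr_right fun hl => ?_
      obtain ⟨i1, i2, i3⟩ := idx_x (J := 3) (by norm_num) (by norm_num) hN hl
      rw [hQ]
      push_cast
      by_cases hw : Wg 3 (l.headD (0, 0))
      · have a := i1 hw
        exact ⟨fun h => by omega, fun h => absurd hw h.1⟩
      · rcases i2 hw with a | a | a
        · exact ⟨fun h => by omega, fun h => absurd a.2 h.2⟩
        · exact ⟨fun _ => ⟨hw, a.2⟩, fun _ => by omega⟩
        · exact ⟨fun _ => ⟨hw, a.2.2⟩, fun _ => by omega⟩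
    · rw [Finset.disjoint_left]
      intro l h1 h2
      rw [Finset.mem_filter] at h1 h2
      have := h1.2
      have := h2.2
      push_cast at *
      omega
  rw [← e, e5]

/-- larger domains -/
theorem far_mono (h : Prm n x t) {J : ℕ} (hJ : 3 ≤ J) (hJ6 : J ≤ 6) {N : ℤ} (hN : 1 ≤ N)
    {S' : Finset V} (hC' : Cc S') (h0 : ((0, 0) : V) ∉ S')
    (hsub : ∀ v, Wg J v → Hx N v → v ∈ S') (hS' : ∀ v ∈ S', Hx N v) (Q : V → Prop)
    [DecidablePred Q] (hQ : ∀ z, Wg J z → Q z) :
    SN n x J (xPar J N) ≤ XM n x S' Q := by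
  rw [far_eq hJ hJ6 hN]
  have hs : fs (xPar J N) ⊆ S' := by
    intro v hv
    rw [mem_fs, om_x J hJ hJ6 N hN] at hv
    exact hsub v hv.1 hv.2
  have h1 : ((1, 0) : V) ∈ fs (xPar J N) := mem_fs.2 (om_base (ok_x J N hN))
  have key := sum_mono h.hn h.hx h.hnx hs (cc_fs _) hC' h1 h0
    (fun l => Wg J (l.headD (0, 0))) ?_ ?_
  · refine key.trans ?_
    unfold XM
    apply Finset.sum_le_sum_of_subset_of_nonneg
    · intro l hl
      rw [Finset.mem_filter] at hl ⊢
      exact ⟨hl.1, hQ _ hl.2⟩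
    · intro l _ _
      exact wL_nonneg h.n0 h.hx.le S' l
  · intro l hl hw hm
    have := (exits_fs hl).2
    apply this
    rw [om_x J hJ hJ6 N hN]
    exact ⟨hw, hS' _ hm⟩
  · intro l _ l' _ he hw
    have : l.headD (0, 0) = l'.headD (0, 0) := by
      have := congrArg Prod.snd he
      exact this
    rw [← this]
    exact hw

/-- sinusoids -/
theorem ident_sin (h : Prm n x t) {p : Par} (hp : Ok p) (a : ℝ) :
    ∑ m ∈ Finset.range 10, Real.sin (((m : ℝ) - a) * t) * Nm n x p m =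
      Real.sin ((4 - a) * t) := by
  have h1 := ident_N h hp (Real.sin ((4 - a) * t)) (Real.cos ((4 - a) * t))
  refine Eq.trans (Finset.sum_congr rfl fun m _ => ?_) h1
  congr 1
  have e : ((m : ℝ) - a) * t = ((m : ℝ) - 4) * t + (4 - a) * t := by ring
  rw [e, Real.sin_add]
  ring

theorem far_abs (h : Prm n x t) (J : ℕ) (p : Par) (f : ℕ → ℝ) (hf : ∀ m, |f m| ≤ 1) :
    |∑ m ∈ Finset.Icc 1 J, f m * Nm n x p m| ≤ SN n x J p := by
  unfold SN
  refine (Finset.abs_sum_le_sum_abs _ _).trans (Finset.sum_le_sum fun m _ => ?_)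
  rw [abs_mul, abs_of_nonneg (Nm_nonneg h p m)]
  have := Nm_nonneg h p m
  have := hf m
  nlinarith

/-- the sides of the wedge of 120 degrees -/
theorem sides4 (h : Prm n x t) {N : ℤ} (hN : 1 ≤ N) (h5 : 0 < Real.sin (5 * t)) :
    |Nm n x (xPar 4 N) 0 - Real.sin t / Real.sin (5 * t)| ≤
      SN n x 4 (xPar 4 N) / Real.sin (5 * t) ∧
    |Nm n x (xPar 4 N) 5 - Real.sin (4 * t) / Real.sin (5 * t)| ≤
      SN n x 4 (xPar 4 N) / Real.sin (5 * t) := by
  have hp := ok_x 4 N hN
  have hw := wp_x 4 (by norm_num) N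
  have hz := fun m => Nm_far (n := n) (x := x) (J := 4) (by norm_num) (by norm_num) hp hw m
  have i1 := ident_sin h hp 0
  have i2 := ident_sin h hp 5
  have hI : Finset.Icc 1 4 = ({1, 2, 3, 4} : Finset ℕ) := rfl
  have a1 := far_abs h 4 (xPar 4 N) (fun m => Real.sin (((m : ℝ) - 0) * t))
    (fun m => Real.abs_sin_le_one _)
  have a2 := far_abs h 4 (xPar 4 N) (fun m => Real.sin (((m : ℝ) - 5) * t))
    (fun m => Real.abs_sin_le_one _)
  set F1 := ∑ m ∈ Finset.Icc (1 : ℕ) 4, Real.sin (((m : ℝ) - 0) * t) * Nm n x (xPar 4 N) m with hF1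
  set F2 := ∑ m ∈ Finset.Icc (1 : ℕ) 4, Real.sin (((m : ℝ) - 5) * t) * Nm n x (xPar 4 N) m with hF2
  have j1 : F1 + Real.sin (5 * t) * Nm n x (xPar 4 N) 5 = Real.sin (4 * t) := by
    rw [hF1, hI]
    simp [Finset.sum_range_succ, hz 6, hz 7, hz 8, hz 9] at i1 ⊢
    linarith
  have j2 : F2 - Real.sin (5 * t) * Nm n x (xPar 4 N) 0 = -Real.sin t := by
    rw [hF2, hI]
    have e0 : Real.sin ((((0 : ℕ) : ℝ) - 5) * t) = -Real.sin (5 * t) := by
      rw [← Real.sin_neg]; congr 1; push_cast; ring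
    have e5 : Real.sin ((((5 : ℕ) : ℝ) - 5) * t) = 0 := by
      push_cast; simp
    have e4 : Real.sin ((4 - 5) * t) = -Real.sin t := by
      rw [← Real.sin_neg]; congr 1; ring
    rw [e4] at i2
    rw [← i2, Finset.sum_range_succ, Finset.sum_range_succ, Finset.sum_range_succ,
      Finset.sum_range_succ, Finset.sum_range_succ, Finset.sum_range_succ, Finset.sum_range_succ,
      Finset.sum_range_succ, Finset.sum_range_succ, Finset.sum_range_succ, Finset.sum_range_zero,
      hz 6 (by norm_num) (by norm_num) (by norm_num), hz 7 (by norm_num) (by norm_num) (by norm_num),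
      hz 8 (by norm_num) (by norm_num) (by norm_num), hz 9 (by norm_num) (by norm_num) (by norm_num),
      e0, e5]
    simp
    ring
  clear i1 i2
  clear_value F1 F2
  generalize Real.sin (5 * t) = s at *
  generalize Real.sin (4 * t) = s' at *
  constructor
  · have : Nm n x (xPar 4 N) 0 - Real.sin t / s = F2 / s := by
      field_simp
      linarith
    rw [this, abs_div, abs_of_pos h5]
    exact div_le_div_of_nonneg_right a2 h5.le
  · have : Nm n x (xPar 4 N) 5 - s' / s = -F1 / s := by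
      field_simp
      linarith
    rw [this, abs_div, abs_neg, abs_of_pos h5]
    exact div_le_div_of_nonneg_right a1 h5.le

/-- the sides of the wedge of 60 degrees -/
theorem sides3 (h : Prm n x t) {N : ℤ} (hN : 1 ≤ N) (h4 : 0 < Real.sin (4 * t)) :
    |Nm n x (xPar 3 N) 0 - x * Real.sin t / Real.sin (4 * t)| ≤
      SN n x 3 (xPar 3 N) / Real.sin (4 * t) ∧
    |Nm n x (xPar 3 N) 4 - (1 - x * Real.sin (5 * t) / Real.sin (4 * t))| ≤
      SN n x 3 (xPar 3 N) / Real.sin (4 * t) := by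
  have hp := ok_x 3 N hN
  have hw := wp_x 3 (by norm_num) N
  have hz := fun m => Nm_far (n := n) (x := x) (J := 3) (by norm_num) (by norm_num) hp hw m
  have e5' : Nm n x (xPar 3 N) 5 = x := by
    unfold Nm
    exact one_Mk h hp hw
  have i1 := ident_sin h hp 0
  have i2 := ident_sin h hp 4
  have hI : Finset.Icc 1 3 = ({1, 2, 3} : Finset ℕ) := rfl
  have a1 := far_abs h 3 (xPar 3 N) (fun m => Real.sin (((m : ℝ) - 0) * t))
    (fun m => Real.abs_sin_le_one _)
  have a2 := far_abs h 3 (xPar 3 N) (fun m => Real.sin (((m : ℝ) - 4) * t))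
    (fun m => Real.abs_sin_le_one _)
  set F1 := ∑ m ∈ Finset.Icc (1 : ℕ) 3, Real.sin (((m : ℝ) - 0) * t) * Nm n x (xPar 3 N) m with hF1
  set F2 := ∑ m ∈ Finset.Icc (1 : ℕ) 3, Real.sin (((m : ℝ) - 4) * t) * Nm n x (xPar 3 N) m with hF2
  have j1 : F1 + Real.sin (4 * t) * Nm n x (xPar 3 N) 4 + Real.sin (5 * t) * x =
      Real.sin (4 * t) := by
    rw [hF1, hI]
    simp [Finset.sum_range_succ, hz 6, hz 7, hz 8, hz 9, e5'] at i1 ⊢
    linarith
  have j2 : F2 - Real.sin (4 * t) * Nm n x (xPar 3 N) 0 + Real.sin t * x = 0 := by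
    rw [hF2, hI]
    have e0 : Real.sin ((((0 : ℕ) : ℝ) - 4) * t) = -Real.sin (4 * t) := by
      rw [← Real.sin_neg]; congr 1; push_cast; ring
    have e4 : Real.sin ((((4 : ℕ) : ℝ) - 4) * t) = 0 := by
      push_cast; simp
    have e5 : Real.sin ((((5 : ℕ) : ℝ) - 4) * t) = Real.sin t := by
      congr 1; push_cast; ring
    have e6 : Real.sin ((4 - 4) * t) = 0 := by simp
    rw [e6] at i2
    rw [← i2, Finset.sum_range_succ, Finset.sum_range_succ, Finset.sum_range_succ,
      Finset.sum_range_succ, Finset.sum_range_succ, Finset.sum_range_succ, Finset.sum_range_succ,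
      Finset.sum_range_succ, Finset.sum_range_succ, Finset.sum_range_succ, Finset.sum_range_zero,
      hz 6 (by norm_num) (by norm_num) (by norm_num), hz 7 (by norm_num) (by norm_num) (by norm_num),
      hz 8 (by norm_num) (by norm_num) (by norm_num), hz 9 (by norm_num) (by norm_num) (by norm_num),
      e0, e4, e5, e5']
    simp
    ring
  clear i1 i2
  clear_value F1 F2
  generalize Real.sin (4 * t) = s at *
  generalize Real.sin (5 * t) = s' at *
  constructor
  · have : Nm n x (xPar 3 N) 0 - x * Real.sin t / s = F2 / s := by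
      field_simp
      linarith
    rw [this, abs_div, abs_of_pos h4]
    exact div_le_div_of_nonneg_right a2 h4.le
  · have : Nm n x (xPar 3 N) 4 - (1 - x * s' / s) = -F1 / s := by
      field_simp
      linarith
    rw [this, abs_div, abs_neg, abs_of_pos h4]
    exact div_le_div_of_nonneg_right a1 h4.le

end Pool.Agent.H97.ON
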