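import Pool.Agent.H97.ON.Cfg

set_option autoImplicit false
set_option linter.unusedSimpArgs false

/-!
The weight of the colourings with a prescribed outer arc as a sum over self-avoiding paths.
-/

noncomputable section

namespace Pool.Agent.H97.ON

open H978R2.Hex Module
open Pool.Agent.X136.ON (Dir Ed Vx s1 s2 ch par ray bd mem_bd ea eb ec ch_iff ch_false ray_edge
  ray_right exists_right)

/-- self-avoiding paths in `T` from `u` to `v` -/
def PF : ℕ → Finset V → V → V → Finset (List V)
  | 0, _, _, _ => ∅
  | n + 1, T, u, v => if u ∈ T then (if u = v then {[u]} else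
      dirs.biUnion fun d => (PF n (T.erase u) (nb u d) v).image (fun l => u :: l)) else ∅

theorem PF_head {n : ℕ} {T : Finset V} {u v : V} {l : List V} (h : l ∈ PF n T u v) :
    ∃ l', l = u :: l' := by
  cases n with
  | zero => simp [PF] at h
  | succ n =>
    rw [PF] at h
    split_ifs at h with h1 h2
    · rw [Finset.mem_singleton] at h
      exact ⟨[], h⟩
    · rw [Finset.mem_biUnion] at h
      obtain ⟨d, _, h3⟩ := h
      rw [Finset.mem_image] at h3
      obtain ⟨l', _, rfl⟩ := h3
      exact ⟨l', rfl⟩
    · simp at h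

theorem nb_inj {v : V} {d d' : Dir} (h : nb v d = nb v d') : d = d' := by
  obtain ⟨x, y⟩ := v
  unfold nb at h
  split_ifs at h <;> cases d <;> cases d' <;> simp only [Prod.mk.injEq] at h <;>
    first | rfl | (exfalso; omega)

theorem sum_PF_succ {M : Type*} [AddCommMonoid M] (n : ℕ) {T : Finset V} {u v : V} (hu : u ∈ T)
    (huv : u ≠ v) (g : List V → M) :
    ∑ l ∈ PF (n + 1) T u v, g l = ∑ d ∈ dirs, ∑ l ∈ PF n (T.erase u) (nb u d) v, g (u :: l) := by
  rw [PF, if_pos hu, if_neg huv, Finset.sum_biUnion]
  · refine Finset.sum_congr rfl fun d _ => ?_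
    rw [Finset.sum_image]
    intro a _ b _ hab
    simpa using hab
  · intro d _ d' _ hdd
    simp only [Function.onFun]
    rw [Finset.disjoint_left]
    intro l h1 h2
    rw [Finset.mem_image] at h1 h2
    obtain ⟨a, ha, rfl⟩ := h1
    obtain ⟨b, hb, h3⟩ := h2
    have h4 : b = a := by simpa using h3
    subst h4
    obtain ⟨a', ha'⟩ := PF_head ha
    obtain ⟨b', hb'⟩ := PF_head hb
    rw [ha'] at hb'
    have : nb u d = nb u d' := (List.cons.inj hb').1
    exact hdd (nb_inj this)

theorem PF_notMem (n : ℕ) {T : Finset V} {u v : V} (hu : u ∉ T) : PF n T u v = ∅ := by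
  cases n with
  | zero => rfl
  | succ n => rw [PF, if_neg hu]

/-- membership -/
theorem mem_PF (n : ℕ) : ∀ (T : Finset V) (u v : V) (l : List V),
    l ∈ PF n T u v ↔ l.length ≤ n ∧ l.head? = some u ∧ l.getLast? = some v ∧ l.Nodup ∧
      (∀ w ∈ l, w ∈ T) ∧ l.IsChain Adj := by
  induction n with
  | zero =>
    intro T u v l
    simp only [PF, Finset.notMem_empty, false_iff]
    rintro ⟨h1, h2, _⟩
    have : l = [] := List.eq_nil_of_length_eq_zero (by omega)
    subst this
    simp at h2
  | succ n ih =>
    intro T u v l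
    constructor
    · intro h
      rw [PF] at h
      split_ifs at h with h1 h2
      · rw [Finset.mem_singleton] at h
        subst h
        subst h2
        simp [h1]
      · rw [Finset.mem_biUnion] at h
        obtain ⟨d, _, h3⟩ := h
        rw [Finset.mem_image] at h3
        obtain ⟨l', h4, rfl⟩ := h3
        obtain ⟨l'', rfl⟩ := PF_head h4
        rw [ih] at h4
        obtain ⟨a1, a2, a3, a4, a5, a6⟩ := h4
        refine ⟨by simpa using a1, rfl, ?_, ?_, ?_, ?_⟩
        · rw [List.getLast?_cons_cons]; exact a3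
        · rw [List.nodup_cons]
          refine ⟨fun hu => ?_, a4⟩
          have := a5 u hu
          simp at this
        · intro w hw
          rcases List.mem_cons.1 hw with rfl | hw
          · exact h1
          · exact Finset.mem_of_mem_erase (a5 w hw)
        · rw [List.isChain_cons_cons]
          exact ⟨adj_iff_nb.2 ⟨d, rfl⟩, a6⟩
      · simp at h
    · rintro ⟨a1, a2, a3, a4, a5, a6⟩
      match l, a1, a2, a3, a4, a5, a6 with
      | [], _, a2, _, _, _, _ => simp at a2
      | [w], a1, a2, a3, a4, a5, a6 =>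
        simp only [List.head?_cons, Option.some.injEq] at a2
        simp only [List.getLast?_singleton, Option.some.injEq] at a3
        subst a2
        subst a3
        rw [PF, if_pos (a5 w (by simp)), if_pos rfl, Finset.mem_singleton]
      | w :: y :: l, a1, a2, a3, a4, a5, a6 =>
        simp only [List.head?_cons, Option.some.injEq] at a2
        subst a2
        rw [List.getLast?_cons_cons] at a3
        rw [List.nodup_cons] at a4
        rw [List.isChain_cons_cons] at a6
        obtain ⟨d, hd⟩ := adj_iff_nb.1 a6.1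
        have hwv : w ≠ v := by
          intro h
          apply a4.1
          rw [h]
          exact List.mem_of_getLast? a3
        rw [PF, if_pos (a5 w (by simp)), if_neg hwv, Finset.mem_biUnion]
        refine ⟨d, mem_dirs d, ?_⟩
        rw [Finset.mem_image]
        refine ⟨y :: l, ?_, rfl⟩
        rw [ih]
        refine ⟨by simpa using a1, ?_, a3, a4.2, ?_, a6.2⟩
        · rw [hd]; rfl
        · intro z hz
          rw [Finset.mem_erase]
          exact ⟨fun h => a4.1 (h ▸ hz), a5 z (List.mem_cons_of_mem _ hz)⟩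

/-- the arc `π` can be closed by a path in `T` from `u` to `v` -/
structure Inv (L : ℕ) (T : Finset V) (π : Finset Ed) (u v : V) : Prop where
  hu : u ∈ T
  hv : v ∈ T
  out : ∀ w, w ∉ T → dg π w = 0 ∨ dg π w = 2
  inn : ∀ w ∈ T, dg π w = (if w = u then 1 else 0) + (if w = v then 1 else 0)
  ne : ∀ e ∈ π, ¬ Ein T e
  conn : ∃ e0 ∈ π, ∀ e ∈ π, Relation.ReflTransGen (Nx π) e0 e
  box : ∀ e ∈ π, s1 e ∈ XX L ∧ s2 e ∈ XX L
  boxT : ∀ w ∈ T, ∀ i, fa w i ∈ XX L

theorem Nx.mono {π ρ : Finset Ed} (h : π ⊆ ρ) {e e' : Ed} (hn : Nx π e e') : Nx ρ e e' :=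
  ⟨h hn.1, h hn.2.1, hn.2.2⟩

theorem exists_dir {π : Finset Ed} {v : V} (h : 1 ≤ dg π v) : ∃ d, ed v d ∈ π := by
  by_contra hc
  push Not at hc
  unfold dg at h
  simp [hc] at h

theorem sep_box {L : ℕ} {v : V} (h : ∀ i, fa v i ∈ XX L) (d : Dir) :
    s1 (ed v d) ∈ XX L ∧ s2 (ed v d) ∈ XX L := by
  obtain ⟨h1, h2, h3⟩ := sep_at v
  have key : ∀ (e : Ed) (i j : Fin 3), Sep e (fa v i) (fa v j) → s1 e ∈ XX L ∧ s2 e ∈ XX L := by
    intro e i j hs
    rcases hs with ⟨s, t⟩ | ⟨s, t⟩
    · rw [s, t]; exact ⟨h i, h j⟩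
    · rw [s, t]; exact ⟨h j, h i⟩
  cases d
  · exact key _ _ _ h1
  · exact key _ _ _ h2
  · exact key _ _ _ h3

theorem Inv.notMem {L : ℕ} {T : Finset V} {π : Finset Ed} {u v : V} (h : Inv L T π u v) {d : Dir}
    (hd : nb u d ∈ T) : ed u d ∉ π := fun he => h.ne _ he (ein_ed.2 ⟨h.hu, hd⟩)

theorem Inv.step {L : ℕ} {T : Finset V} {π : Finset Ed} {u v : V} (h : Inv L T π u v) (huv : u ≠ v)
    {d : Dir} (hd : nb u d ∈ T) :
    Inv L (T.erase u) (insert (ed u d) π) (nb u d) v := by
  have hn := h.notMem hd
  have hne : nb u d ≠ u := nb_ne u d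
  have hdu : dg π u = 1 := by
    rw [h.inn u h.hu]
    simp [huv]
  refine ⟨Finset.mem_erase.2 ⟨hne, hd⟩, Finset.mem_erase.2 ⟨huv.symm, h.hv⟩, ?_, ?_, ?_, ?_, ?_, ?_⟩
  · intro w hw
    rw [dg_insert hn]
    by_cases hwu : w = u
    · subst hwu
      right
      rw [if_pos (tch_ed w d), hdu]
    · have hwT : w ∉ T := fun h => hw (Finset.mem_erase.2 ⟨hwu, h⟩)
      have : ¬ Tch w (ed u d) := by
        rw [tch_ed_iff]
        rintro (h1 | h1)
        · exact hwu h1
        · exact hwT (h1 ▸ hd)
      rw [if_neg this, add_zero]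
      exact h.out w hwT
  · intro w hw
    obtain ⟨hw1, hw2⟩ := Finset.mem_erase.1 hw
    rw [dg_insert hn, h.inn w hw2, if_neg hw1, zero_add]
    by_cases hwd : w = nb u d
    · rw [if_pos ((tch_ed_iff _ _ _).2 (Or.inr hwd)), if_pos hwd, add_comm]
    · have hnt : ¬ Tch w (ed u d) := by
        rw [tch_ed_iff]
        rintro (h1 | h1)
        · exact hw1 h1
        · exact hwd h1
      rw [if_neg hwd, if_neg hnt, add_comm]
  · intro e he hE
    rcases Finset.mem_insert.1 he with rfl | he
    · have := (ein_ed.1 hE).1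
      simp at this
    · exact h.ne e he (hE.mono (Finset.erase_subset _ _))
  · obtain ⟨e0, he0, hc⟩ := h.conn
    have hmono : ∀ e, Relation.ReflTransGen (Nx π) e0 e →
        Relation.ReflTransGen (Nx (insert (ed u d) π)) e0 e := by
      intro e he
      induction he with
      | refl => exact Relation.ReflTransGen.refl
      | tail _ hN ih => exact ih.tail (hN.mono (Finset.subset_insert _ _))
    refine ⟨e0, Finset.mem_insert_of_mem he0, ?_⟩
    intro e he
    rcases Finset.mem_insert.1 he with rfl | he
    · obtain ⟨d', hd'⟩ := exists_dir (π := π) (v := u) (by omega)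
      exact (hmono _ (hc _ hd')).tail ⟨Finset.mem_insert_of_mem hd', Finset.mem_insert_self _ _, u,
        tch_ed u d', tch_ed u d⟩
    · exact hmono e (hc e he)
  · intro e he
    rcases Finset.mem_insert.1 he with rfl | he
    · exact sep_box (h.boxT u h.hu) d
    · exact h.box e he
  · intro w hw
    exact h.boxT w (Finset.mem_of_mem_erase hw)

/-- the decomposition according to the next edge -/
theorem Inv.split {L : ℕ} {T : Finset V} {π : Finset Ed} {u v : V} (h : Inv L T π u v)
    (huv : u ≠ v) (n x : ℝ) :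
    QQ L n x T π = ∑ d ∈ dirs, if nb u d ∈ T then QQ L n x (T.erase u) (insert (ed u d) π)
      else 0 := by
  classical
  have hdu : dg π u = 1 := by
    rw [h.inn u h.hu]
    simp [huv]
  have hset : Cfg L T π = (dirs.filter fun d => nb u d ∈ T).biUnion
      fun d => Cfg L (T.erase u) (insert (ed u d) π) := by
    ext σ
    rw [Finset.mem_biUnion]
    constructor
    · intro hσ
      rw [mem_Cfg] at hσ
      obtain ⟨h1, h2⟩ := hσ
      have hd2 : dg (dd L σ) u = 2 := by
        have a1 := dg_mono h1 u
        rcases dg_dd L σ u with h3 | h3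
        · omega
        · exact h3
      -- the other edge
      obtain ⟨d, hd1, hd3⟩ : ∃ d, ed u d ∈ dd L σ ∧ ed u d ∉ π := by
        by_contra hc
        push Not at hc
        have : dg (dd L σ) u ≤ dg π u := by
          unfold dg
          have := hc .A
          have := hc .B
          have := hc .C
          split_ifs <;> simp_all
        omega
      have hE := h2 _ hd1 hd3
      have hnbT := (ein_ed.1 hE).2
      refine ⟨d, Finset.mem_filter.2 ⟨mem_dirs d, hnbT⟩, ?_⟩
      rw [mem_Cfg]
      refine ⟨Finset.insert_subset hd1 h1, ?_⟩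
      intro e he hn
      rw [Finset.mem_insert, not_or] at hn
      refine ein_erase (h2 e he hn.2) ?_
      intro ht
      obtain ⟨d', hd'⟩ := tch_iff.1 ht
      obtain ⟨d'', hd''⟩ := exists_dir (π := π) (v := u) (by omega)
      have n1 : d' ≠ d := fun hh => hn.1 (by rw [hd', hh])
      have n2 : d' ≠ d'' := fun hh => hn.2 (by rw [hd', hh]; exact hd'')
      have n3 : d ≠ d'' := fun hh => hd3 (by rw [hh]; exact hd'')
      have m1 : ed u d' ∈ dd L σ := hd' ▸ he
      have m2 : ed u d'' ∈ dd L σ := h1 hd''
      unfold dg at hd2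
      cases d <;> cases d' <;> cases d'' <;> simp_all
    · rintro ⟨d, hd, hσ⟩
      rw [Finset.mem_filter] at hd
      rw [mem_Cfg] at hσ ⊢
      obtain ⟨h1, h2⟩ := hσ
      refine ⟨fun e he => h1 (Finset.mem_insert_of_mem he), ?_⟩
      intro e he hn
      by_cases hee : e = ed u d
      · rw [hee, ein_ed]
        exact ⟨h.hu, hd.2⟩
      · exact (h2 e he (by rw [Finset.mem_insert, not_or]; exact ⟨hee, hn⟩)).mono
          (Finset.erase_subset _ _)
  unfold QQ
  rw [hset, Finset.sum_biUnion, Finset.sum_filter]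
  intro d hd d' hd' hdd
  simp only [Function.onFun]
  rw [Finset.mem_coe, Finset.mem_filter] at hd hd'
  rw [Finset.disjoint_left]
  intro σ h1 h2
  rw [mem_Cfg] at h1 h2
  have m1 : ed u d ∈ dd L σ := h1.1 (Finset.mem_insert_self _ _)
  have m2 : ed u d' ∈ dd L σ := h2.1 (Finset.mem_insert_self _ _)
  obtain ⟨d'', hd''⟩ := exists_dir (π := π) (v := u) (by omega)
  have m3 : ed u d'' ∈ dd L σ := h1.1 (Finset.mem_insert_of_mem hd'')
  have n1 : d'' ≠ d := fun hh => h.notMem hd.2 (hh ▸ hd'')
  have n2 : d'' ≠ d' := fun hh => h.notMem hd'.2 (hh ▸ hd'')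
  have hd2 := dg_dd L σ u
  unfold dg at hd2
  cases d <;> cases d' <;> cases d'' <;> simp_all

/-- at the end of the path the arc is a loop -/
theorem Inv.last {L : ℕ} {T : Finset V} {π : Finset Ed} {u : V} (h : Inv L T π u u) (n x : ℝ) :
    QQ L n x T π = n * x ^ π.card * QQ L n x (T.erase u) ∅ := by
  have hdu : dg π u = 2 := by
    rw [h.inn u h.hu]
    simp
  have hLS : LS L (T.erase u) π := by
    refine ⟨?_, ?_, h.conn, h.box⟩
    · intro w
      by_cases hw : w ∈ T
      · by_cases hwu : w = u
        · rw [hwu]; exact Or.inr hdu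
        · left
          rw [h.inn w hw]
          simp [hwu]
      · exact h.out w hw
    · intro w hw
      obtain ⟨h1, h2⟩ := Finset.mem_erase.1 hw
      rw [h.inn w h2]
      simp [h1]
  rw [← QQ_loop hLS]
  unfold QQ
  refine Finset.sum_congr ?_ (fun _ _ => rfl)
  ext σ
  rw [mem_Cfg, mem_Cfg]
  refine and_congr_right fun h1 => ?_
  constructor
  · intro h2 e he hn
    refine ein_erase (h2 e he hn) ?_
    intro ht
    obtain ⟨d, hd⟩ := tch_iff.1 ht
    subst hd
    have a1 : dg (dd L σ) u = 2 := by
      have := dg_mono h1 u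
      rcases dg_dd L σ u with h3 | h3
      · omega
      · exact h3
    have c1 := @h1 (ed u .A)
    have c2 := @h1 (ed u .B)
    have c3 := @h1 (ed u .C)
    unfold dg at hdu a1
    cases d <;> split_ifs at hdu a1 <;> simp_all
  · intro h2 e he hn
    exact (h2 e he hn).mono (Finset.erase_subset _ _)

/-- **the sum over the paths** -/
theorem growth (L : ℕ) (n x : ℝ) : ∀ (m : ℕ) (T : Finset V) (π : Finset Ed) (u v : V),
    T.card ≤ m → Inv L T π u v → QQ L n x T π =
      ∑ l ∈ PF m T u v, n * x ^ π.card * x ^ (l.length - 1) * QQ L n x (T \ l.toFinset) ∅ := by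
  intro m
  induction m with
  | zero =>
    intro T π u v hT h
    have : T = ∅ := Finset.card_eq_zero.1 (by omega)
    have := h.hu
    simp_all
  | succ m ih =>
    intro T π u v hT h
    by_cases huv : u = v
    · subst huv
      rw [h.last, PF, if_pos h.hu, if_pos rfl, Finset.sum_singleton]
      have e : T \ [u].toFinset = T.erase u := by
        ext w
        simp [and_comm]
      rw [e]
      simp
    · rw [h.split huv, sum_PF_succ m h.hu huv]
      refine Finset.sum_congr rfl fun d _ => ?_
      split_ifs with hd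
      · have hc : (T.erase u).card ≤ m := by
          rw [Finset.card_erase_of_mem h.hu]
          omega
        rw [ih _ _ _ _ hc (h.step huv hd), Finset.card_insert_of_notMem (h.notMem hd)]
        refine Finset.sum_congr rfl fun l hl => ?_
        obtain ⟨l', rfl⟩ := PF_head hl
        have e : (T.erase u) \ (nb u d :: l').toFinset = T \ (u :: nb u d :: l').toFinset := by
          ext w
          simp only [Finset.mem_sdiff, Finset.mem_erase, List.mem_toFinset, List.mem_cons, not_or]
          tauto
        rw [e]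
        have e2 : (u :: nb u d :: l').length - 1 = ((nb u d :: l').length - 1) + 1 := by simp
        rw [e2, pow_succ, pow_succ]
        ring
      · rw [PF_notMem]
        · simp
        · intro h1
          exact hd (Finset.mem_of_mem_erase h1)

end Pool.Agent.H97.ON
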