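import Mathlib

set_option autoImplicit false
set_option linter.unusedSectionVars false

/-!
The number of clusters of a two-colouring of a finite graph, as the dimension of the space of the
functions which are constant along the monochromatic edges; log-supermodularity of the weight
`n ^ (number of clusters) * x ^ (number of bichromatic edges)` for `1 ≤ n`, `n * x ^ 2 ≤ 1`, in
graphs in which adjacent vertices have a common neighbour.
-/

namespace Pool.Agent.H97.ON

open Module

variable {𝒱 ι : Type*} [Fintype 𝒱] [DecidableEq 𝒱] (a b : ι → 𝒱)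

/-- functions constant along the edges in `P` -/
def HH (P : ι → Prop) : Submodule ℚ (𝒱 → ℚ) where
  carrier := {f | ∀ i, P i → f (a i) = f (b i)}
  add_mem' := by
    intro f g hf hg i hi
    simp only [Pi.add_apply]
    rw [hf i hi, hg i hi]
  zero_mem' := fun i _ => rfl
  smul_mem' := by
    intro c f hf i hi
    simp only [Pi.smul_apply]
    rw [hf i hi]

theorem mem_HH {P : ι → Prop} {f : 𝒱 → ℚ} : f ∈ HH a b P ↔ ∀ i, P i → f (a i) = f (b i) :=
  Iff.rfl

/-- number of components of the graph with the edges in `P` -/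
noncomputable def kap (P : ι → Prop) : ℕ := finrank ℚ (HH a b P)

theorem kap_super {P Q R T : ι → Prop} (hR : ∀ i, R i → P i ∨ Q i) (hT : ∀ i, T i → P i ∧ Q i) :
    kap a b P + kap a b Q ≤ kap a b R + kap a b T := by
  unfold kap
  have h := Submodule.finrank_sup_add_finrank_inf_eq (HH a b P) (HH a b Q)
  have h1 : HH a b P ⊓ HH a b Q ≤ HH a b R := by
    rintro f ⟨hf, hg⟩ i hi
    rcases hR i hi with h | h
    · exact hf i h
    · exact hg i h
  have h2 : HH a b P ⊔ HH a b Q ≤ HH a b T := by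
    refine sup_le ?_ ?_
    · intro f hf i hi
      exact hf i (hT i hi).1
    · intro f hf i hi
      exact hf i (hT i hi).2
  have h3 := Submodule.finrank_mono h1
  have h4 := Submodule.finrank_mono h2
  omega

/-- the edge joins `u` and `v` -/
def Jn (u v : 𝒱) (i : ι) : Prop := (a i = u ∧ b i = v) ∨ (a i = v ∧ b i = u)

/-- one linear condition lowers the dimension by at most one -/
theorem finrank_le_ker {M : Type*} [AddCommGroup M] [Module ℚ M] [FiniteDimensional ℚ M]
    (U W : Submodule ℚ M) (φ : M →ₗ[ℚ] ℚ) (h : ∀ f ∈ U, φ f = 0 → f ∈ W) :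
    finrank ℚ U ≤ finrank ℚ W + 1 := by
  have h1 := LinearMap.finrank_range_add_finrank_ker (φ.domRestrict U)
  have h2 : finrank ℚ (LinearMap.range (φ.domRestrict U)) ≤ 1 := by
    have := Submodule.finrank_le (LinearMap.range (φ.domRestrict U))
    simpa using this
  have h3 : finrank ℚ (LinearMap.ker (φ.domRestrict U)) ≤ finrank ℚ W := by
    let ψ : LinearMap.ker (φ.domRestrict U) →ₗ[ℚ] W :=
      { toFun := fun f => ⟨f.1.1, h f.1.1 f.1.2 (by
          have := f.2
          rw [LinearMap.mem_ker] at this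
          exact this)⟩
        map_add' := fun f g => rfl
        map_smul' := fun c f => rfl }
    apply LinearMap.finrank_le_finrank_of_injective (f := ψ)
    intro f g hfg
    have : (ψ f).1 = (ψ g).1 := by rw [hfg]
    exact Subtype.ext (Subtype.ext this)
  omega

theorem kap_edge {P Q : ι → Prop} (u v : 𝒱) (hQ : ∀ i, Q i → P i ∨ Jn a b u v i) :
    kap a b P ≤ kap a b Q + 1 := by
  unfold kap
  let φ : (𝒱 → ℚ) →ₗ[ℚ] ℚ := (LinearMap.proj u : (𝒱 → ℚ) →ₗ[ℚ] ℚ) - (LinearMap.proj v : (𝒱 → ℚ) →ₗ[ℚ] ℚ)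
  apply finrank_le_ker _ _ φ
  intro f hf h0 i hi
  have h1 : f u = f v := by
    have h2 : f u - f v = 0 := h0
    linarith
  rcases hQ i hi with h | ⟨h2, h3⟩ | ⟨h2, h3⟩
  · exact hf i h
  · rw [h2, h3, h1]
  · rw [h2, h3, h1]

theorem kap_forced {P Q : ι → Prop} (u v t : 𝒱) (hQ : ∀ i, Q i → P i ∨ Jn a b u v i)
    (h1 : ∃ i, P i ∧ Jn a b u t i) (h2 : ∃ i, P i ∧ Jn a b v t i) :
    kap a b P ≤ kap a b Q := by
  unfold kap
  apply Submodule.finrank_mono
  intro f hf i hi
  have e1 : f u = f t := by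
    obtain ⟨j, hj, h | h⟩ := h1
    · rw [← h.1, ← h.2]; exact hf j hj
    · rw [← h.1, ← h.2]; exact (hf j hj).symm
  have e2 : f v = f t := by
    obtain ⟨j, hj, h | h⟩ := h2
    · rw [← h.1, ← h.2]; exact hf j hj
    · rw [← h.1, ← h.2]; exact (hf j hj).symm
  rcases hQ i hi with h | ⟨h3, h4⟩ | ⟨h3, h4⟩
  · exact hf i h
  · rw [h3, h4, e1, e2]
  · rw [h3, h4, e1, e2]

/-- the number of clusters of the colouring `σ` -/
noncomputable def KK (σ : Finset 𝒱) : ℕ := kap a b (fun i => a i ∈ σ ↔ b i ∈ σ)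

theorem KK_add (σ : Finset 𝒱) : KK a b σ + Fintype.card 𝒱 =
    kap a b (fun i => a i ∈ σ ∧ b i ∈ σ) + kap a b (fun i => a i ∉ σ ∧ b i ∉ σ) := by
  unfold KK kap
  have h := Submodule.finrank_sup_add_finrank_inf_eq
    (HH a b (fun i => a i ∈ σ ∧ b i ∈ σ)) (HH a b (fun i => a i ∉ σ ∧ b i ∉ σ))
  have h1 : HH a b (fun i => a i ∈ σ ∧ b i ∈ σ) ⊓ HH a b (fun i => a i ∉ σ ∧ b i ∉ σ) =
      HH a b (fun i => a i ∈ σ ↔ b i ∈ σ) := by
    ext f
    rw [Submodule.mem_inf, mem_HH, mem_HH, mem_HH]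
    constructor
    · rintro ⟨h1, h2⟩ i hi
      by_cases h3 : a i ∈ σ
      · exact h1 i ⟨h3, hi.1 h3⟩
      · exact h2 i ⟨h3, fun h => h3 (hi.2 h)⟩
    · intro h
      exact ⟨fun i hi => h i ⟨fun _ => hi.2, fun _ => hi.1⟩,
        fun i hi => h i ⟨fun h => absurd h hi.1, fun h => absurd h hi.2⟩⟩
  have h2 : HH a b (fun i => a i ∈ σ ∧ b i ∈ σ) ⊔ HH a b (fun i => a i ∉ σ ∧ b i ∉ σ) = ⊤ := by
    rw [eq_top_iff]
    intro f _
    have e : f = (fun v => if v ∈ σ then 0 else f v) + (fun v => if v ∈ σ then f v else 0) := by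
      funext v
      simp only [Pi.add_apply]
      split_ifs <;> simp
    rw [e]
    apply Submodule.add_mem_sup
    · rintro i ⟨hi1, hi2⟩
      simp only [hi1, hi2, if_true]
    · rintro i ⟨hi1, hi2⟩
      simp only [hi1, hi2, if_false]
  rw [h1, h2, finrank_top, Module.finrank_fintype_fun_eq_card] at h
  omega

/-- second difference, general pair with a common neighbour -/
theorem KK_second {σ : Finset 𝒱} {u v t : 𝒱} (huv : u ≠ v) (htu : t ≠ u) (htv : t ≠ v)
    (hu : u ∉ σ) (hv : v ∉ σ) (h1 : ∃ i, Jn a b u t i) (h2 : ∃ i, Jn a b v t i) :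
    KK a b (insert u σ) + KK a b (insert v σ) ≤
      KK a b σ + KK a b (insert u (insert v σ)) + 1 := by
  have e0 := KK_add a b σ
  have e1 := KK_add a b (insert u σ)
  have e2 := KK_add a b (insert v σ)
  have e3 := KK_add a b (insert u (insert v σ))
  obtain ⟨i1, hi1⟩ := h1
  obtain ⟨i2, hi2⟩ := h2
  -- the two intermediate edge sets
  set Pp : ι → Prop := fun i => (a i ∈ insert u σ ∧ b i ∈ insert u σ) ∨
    (a i ∈ insert v σ ∧ b i ∈ insert v σ) with hPp
  set Pm : ι → Prop := fun i => (a i ∉ insert u σ ∧ b i ∉ insert u σ) ∨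
    (a i ∉ insert v σ ∧ b i ∉ insert v σ) with hPm
  have s1 := kap_super a b (P := fun i => a i ∈ insert u σ ∧ b i ∈ insert u σ)
    (Q := fun i => a i ∈ insert v σ ∧ b i ∈ insert v σ) (R := Pp)
    (T := fun i => a i ∈ σ ∧ b i ∈ σ) (fun i h => h)
    (fun i h => ⟨⟨Finset.mem_insert_of_mem h.1, Finset.mem_insert_of_mem h.2⟩,
      ⟨Finset.mem_insert_of_mem h.1, Finset.mem_insert_of_mem h.2⟩⟩)
  have s2 := kap_super a b (P := fun i => a i ∉ insert u σ ∧ b i ∉ insert u σ)
    (Q := fun i => a i ∉ insert v σ ∧ b i ∉ insert v σ) (R := Pm)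
    (T := fun i => a i ∉ insert u (insert v σ) ∧ b i ∉ insert u (insert v σ)) (fun i h => h)
    (fun i h => by
      simp only [Finset.mem_insert, not_or] at h ⊢
      tauto)
  have c1 : ∀ i, (a i ∈ insert u (insert v σ) ∧ b i ∈ insert u (insert v σ)) →
      Pp i ∨ Jn a b u v i := by
    intro i h
    simp only [hPp, Jn, Finset.mem_insert] at h ⊢
    tauto
  have c2 : ∀ i, (a i ∉ σ ∧ b i ∉ σ) → Pm i ∨ Jn a b u v i := by
    intro i h
    simp only [hPm, Jn, Finset.mem_insert, not_or] at h ⊢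
    by_cases g1 : a i = u <;> by_cases g2 : a i = v <;> by_cases g3 : b i = u <;>
      by_cases g4 : b i = v <;> simp_all
  by_cases ht : t ∈ σ
  · have t1 := kap_forced a b u v t c1
      ⟨i1, by
        left
        rcases hi1 with h | h
        · rw [h.1, h.2]
          exact ⟨Finset.mem_insert_self _ _, Finset.mem_insert_of_mem ht⟩
        · rw [h.1, h.2]
          exact ⟨Finset.mem_insert_of_mem ht, Finset.mem_insert_self _ _⟩, hi1⟩
      ⟨i2, by
        right
        rcases hi2 with h | h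
        · rw [h.1, h.2]
          exact ⟨Finset.mem_insert_self _ _, Finset.mem_insert_of_mem ht⟩
        · rw [h.1, h.2]
          exact ⟨Finset.mem_insert_of_mem ht, Finset.mem_insert_self _ _⟩, hi2⟩
    have t2 := kap_edge a b u v c2
    omega
  · have t1 := kap_edge a b u v c1
    have hu' : u ∉ insert v σ := by
      rw [Finset.mem_insert, not_or]; exact ⟨huv, hu⟩
    have hv' : v ∉ insert u σ := by
      rw [Finset.mem_insert, not_or]; exact ⟨huv.symm, hv⟩
    have htu' : t ∉ insert u σ := by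
      rw [Finset.mem_insert, not_or]; exact ⟨htu, ht⟩
    have htv' : t ∉ insert v σ := by
      rw [Finset.mem_insert, not_or]; exact ⟨htv, ht⟩
    have t2 := kap_forced a b u v t c2
      ⟨i1, by
        right
        rcases hi1 with h | h
        · rw [h.1, h.2]
          exact ⟨hu', htv'⟩
        · rw [h.1, h.2]
          exact ⟨htv', hu'⟩, hi1⟩
      ⟨i2, by
        left
        rcases hi2 with h | h
        · rw [h.1, h.2]
          exact ⟨hv', htu'⟩
        · rw [h.1, h.2]
          exact ⟨htu', hv'⟩, hi2⟩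
    omega

/-- second difference, vertices which are not adjacent -/
theorem KK_second' {σ : Finset 𝒱} {u v : 𝒱} (huv : u ≠ v) (h0 : ∀ i, ¬ Jn a b u v i) :
    KK a b (insert u σ) + KK a b (insert v σ) ≤
      KK a b σ + KK a b (insert u (insert v σ)) := by
  have e0 := KK_add a b σ
  have e1 := KK_add a b (insert u σ)
  have e2 := KK_add a b (insert v σ)
  have e3 := KK_add a b (insert u (insert v σ))
  have s1 := kap_super a b (P := fun i => a i ∈ insert u σ ∧ b i ∈ insert u σ)
    (Q := fun i => a i ∈ insert v σ ∧ b i ∈ insert v σ)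
    (R := fun i => a i ∈ insert u (insert v σ) ∧ b i ∈ insert u (insert v σ))
    (T := fun i => a i ∈ σ ∧ b i ∈ σ)
    (fun i h => by
      have := h0 i
      simp only [Jn, Finset.mem_insert] at h this ⊢
      tauto)
    (fun i h => ⟨⟨Finset.mem_insert_of_mem h.1, Finset.mem_insert_of_mem h.2⟩,
      ⟨Finset.mem_insert_of_mem h.1, Finset.mem_insert_of_mem h.2⟩⟩)
  have s2 := kap_super a b (P := fun i => a i ∉ insert u σ ∧ b i ∉ insert u σ)
    (Q := fun i => a i ∉ insert v σ ∧ b i ∉ insert v σ) (R := fun i => a i ∉ σ ∧ b i ∉ σ)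
    (T := fun i => a i ∉ insert u (insert v σ) ∧ b i ∉ insert u (insert v σ))
    (fun i h => by
      have := h0 i
      simp only [Jn, Finset.mem_insert, not_or] at h this ⊢
      by_cases g1 : a i = u <;> by_cases g2 : a i = v <;> by_cases g3 : b i = u <;>
        by_cases g4 : b i = v <;> simp_all)
    (fun i h => by
      simp only [Finset.mem_insert, not_or] at h ⊢
      tauto)
  omega

/-! ### bichromatic edges -/

variable (I : Finset ι)

/-- the bichromatic edges -/
def DD (σ : Finset 𝒱) : Finset ι := I.filter (fun i => ¬ (a i ∈ σ ↔ b i ∈ σ))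

theorem DD_second {σ : Finset 𝒱} {u v : 𝒱} (huv : u ≠ v) (hu : u ∉ σ) (hv : v ∉ σ) :
    (DD a b I (insert u σ)).card + (DD a b I (insert v σ)).card =
      (DD a b I σ).card + (DD a b I (insert u (insert v σ))).card +
        2 * (I.filter (fun i => (a i = u ∧ b i = v) ∨ (a i = v ∧ b i = u))).card := by
  unfold DD
  rw [Finset.card_filter, Finset.card_filter, Finset.card_filter, Finset.card_filter,
    Finset.card_filter, ← Finset.sum_add_distrib, ← Finset.sum_add_distrib, Finset.mul_sum,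
    ← Finset.sum_add_distrib]
  refine Finset.sum_congr rfl fun i _ => ?_
  simp only [Finset.mem_insert]
  by_cases g1 : a i = u
  · have g2 : a i ≠ v := fun h => huv (g1.symm.trans h)
    have g5 : a i ∉ σ := g1 ▸ hu
    by_cases g3 : b i = u
    · have g4 : b i ≠ v := fun h => huv (g3.symm.trans h)
      have g6 : b i ∉ σ := g3 ▸ hu
      simp [g1, g3, hu, huv]
    · by_cases g4 : b i = v
      · have g6 : b i ∉ σ := g4 ▸ hv
        simp [g1, g4, hu, hv, huv, huv.symm]
      · by_cases g6 : b i ∈ σ <;> simp [g1, g3, g4, g6, hu, huv]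
  · by_cases g2 : a i = v
    · have g5 : a i ∉ σ := g2 ▸ hv
      by_cases g3 : b i = u
      · simp [g2, g3, hu, hv, huv, huv.symm]
      · by_cases g4 : b i = v
        · simp [g2, g4, hv, huv.symm]
        · by_cases g6 : b i ∈ σ <;> simp [g2, g3, g4, g6, hv, huv.symm]
    · by_cases g3 : b i = u
      · by_cases g5 : a i ∈ σ <;> simp [g1, g2, g3, g5, hu, huv]
      · by_cases g4 : b i = v
        · by_cases g5 : a i ∈ σ <;> simp [g1, g2, g4, g5, hv, huv.symm]
        · by_cases g5 : a i ∈ σ <;> by_cases g6 : b i ∈ σ <;> simp [g1, g2, g3, g4, g5, g6]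

/-- the weight -/
noncomputable def ww (n x : ℝ) (σ : Finset 𝒱) : ℝ := n ^ KK a b σ * x ^ (DD a b I σ).card

theorem ww_pos {n x : ℝ} (hn : 1 ≤ n) (hx : 0 < x) (σ : Finset 𝒱) : 0 < ww a b I n x σ := by
  unfold ww
  positivity

/-- local log-supermodularity -/
theorem ww_local {n x : ℝ} (hn : 1 ≤ n) (hx : 0 < x) (hnx : n * x ^ 2 ≤ 1)
    (hI : ∀ i, a i ≠ b i → i ∈ I)
    (hcn : ∀ u v, u ≠ v → (∃ i, Jn a b u v i) → ∃ t, t ≠ u ∧ t ≠ v ∧ (∃ i, Jn a b u t i) ∧
      ∃ i, Jn a b v t i)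
    {σ : Finset 𝒱} {u v : 𝒱} (huv : u ≠ v) (hu : u ∉ σ) (hv : v ∉ σ) :
    ww a b I n x (insert u σ) * ww a b I n x (insert v σ) ≤
      ww a b I n x σ * ww a b I n x (insert u (insert v σ)) := by
  have hx1 : x ≤ 1 := by nlinarith
  have hD := DD_second a b I huv hu hv
  unfold ww
  have e1 : ∀ p q r s : ℕ, n ^ p * x ^ q * (n ^ r * x ^ s) = n ^ (p + r) * x ^ (q + s) := by
    intro p q r s
    rw [pow_add, pow_add]; ring
  rw [e1, e1, hD]
  by_cases hadj : ∃ i, Jn a b u v i
  · obtain ⟨t, ht1, ht2, h1, h2⟩ := hcn u v huv hadj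
    have hK := KK_second a b huv ht1 ht2 hu hv h1 h2
    obtain ⟨i, hi⟩ := hadj
    have hm : 1 ≤ (I.filter (fun i => (a i = u ∧ b i = v) ∨ (a i = v ∧ b i = u))).card := by
      rw [Nat.one_le_iff_ne_zero, Finset.card_ne_zero]
      refine ⟨i, Finset.mem_filter.2 ⟨hI i ?_, hi⟩⟩
      rcases hi with h | h
      · rw [h.1, h.2]; exact huv
      · rw [h.1, h.2]; exact huv.symm
    obtain ⟨m, hm'⟩ := Nat.exists_eq_add_of_le hm
    rw [hm', pow_add (n := 2 * (1 + m)), mul_add, pow_add (n := 2 * m), mul_one]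
    have hx2 : x ^ (2 * m) ≤ 1 := pow_le_one₀ hx.le hx1
    set D := (DD a b I σ).card + (DD a b I (insert u (insert v σ))).card
    calc n ^ (KK a b (insert u σ) + KK a b (insert v σ)) * (x ^ D * (x ^ 2 * x ^ (2 * m)))
        ≤ n ^ (KK a b σ + KK a b (insert u (insert v σ)) + 1) * (x ^ D * (x ^ 2 * 1)) := by
          gcongr
      _ = n ^ (KK a b σ + KK a b (insert u (insert v σ))) * x ^ D * (n * x ^ 2) := by
          rw [pow_succ]; ring
      _ ≤ n ^ (KK a b σ + KK a b (insert u (insert v σ))) * x ^ D * 1 := by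
          gcongr
      _ = _ := by rw [mul_one]
  · have hK := KK_second' a b (σ := σ) huv (fun i hi => hadj ⟨i, hi⟩)
    have hm : (I.filter (fun i => (a i = u ∧ b i = v) ∨ (a i = v ∧ b i = u))).card = 0 := by
      rw [Finset.card_eq_zero, Finset.filter_eq_empty_iff]
      intro i _ hi
      exact hadj ⟨i, hi⟩
    rw [hm, mul_zero, add_zero]
    gcongr

/-- from local to global -/
theorem global_of_local (w : Finset 𝒱 → ℝ) (hw : ∀ σ, 0 < w σ)
    (h : ∀ σ u v, u ≠ v → u ∉ σ → v ∉ σ → w (insert u σ) * w (insert v σ) ≤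
      w σ * w (insert u (insert v σ))) (A B : Finset 𝒱) :
    w A * w B ≤ w (A ⊓ B) * w (A ⊔ B) := by
  classical
  -- one vertex against a set
  have h1 : ∀ (D C : Finset 𝒱) (u : 𝒱), u ∉ C → u ∉ D → Disjoint C D →
      w (insert u C) * w (C ∪ D) ≤ w C * w (insert u (C ∪ D)) := by
    intro D
    induction D using Finset.induction_on with
    | empty =>
      intro C u _ _ _
      rw [Finset.union_empty]
      exact le_of_eq (mul_comm _ _)
    | insert v D hvD ih =>
      intro C u hC hD hCD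
      rw [Finset.mem_insert, not_or] at hD
      rw [Finset.disjoint_insert_right] at hCD
      have i1 := ih C u hC hD.2 hCD.2
      have hu : u ∉ C ∪ D := by
        rw [Finset.mem_union, not_or]; exact ⟨hC, hD.2⟩
      have hv : v ∉ C ∪ D := by
        rw [Finset.mem_union, not_or]; exact ⟨hCD.1, hvD⟩
      have i2 := h (C ∪ D) u v hD.1 hu hv
      have e : C ∪ insert v D = insert v (C ∪ D) := Finset.union_insert _ _ _
      rw [e]
      have p1 := hw (C ∪ D)
      have p2 := hw (insert u (C ∪ D))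
      have p3 := hw C
      have p4 := hw (insert u C)
      have p5 := hw (insert v (C ∪ D))
      have p6 := hw (insert u (insert v (C ∪ D)))
      have i3 : (w (insert u C) * w (C ∪ D)) * (w (insert u (C ∪ D)) * w (insert v (C ∪ D))) ≤
          (w C * w (insert u (C ∪ D))) * (w (C ∪ D) * w (insert u (insert v (C ∪ D)))) :=
        mul_le_mul i1 i2 (by positivity) (by positivity)
      have p7 : 0 < w (C ∪ D) * w (insert u (C ∪ D)) := by positivity
      refine le_of_mul_le_mul_right ?_ p7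
      calc w (insert u C) * w (insert v (C ∪ D)) * (w (C ∪ D) * w (insert u (C ∪ D)))
          = (w (insert u C) * w (C ∪ D)) * (w (insert u (C ∪ D)) * w (insert v (C ∪ D))) := by ring
        _ ≤ _ := i3
        _ = _ := by ring
  -- a set against a set
  have h2 : ∀ (A' C D : Finset 𝒱), Disjoint A' C → Disjoint A' D → Disjoint C D →
      w (A' ∪ C) * w (C ∪ D) ≤ w C * w (A' ∪ (C ∪ D)) := by
    intro A'
    induction A' using Finset.induction_on with
    | empty =>
      intro C D _ _ _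
      rw [Finset.empty_union, Finset.empty_union]
    | insert u A' huA ih =>
      intro C D hC hD hCD
      rw [Finset.disjoint_insert_left] at hC hD
      have i1 := ih C D hC.2 hD.2 hCD
      have i2 := h1 D (A' ∪ C) u (by
        rw [Finset.mem_union, not_or]; exact ⟨huA, hC.1⟩) hD.1 (by
        rw [Finset.disjoint_union_left]; exact ⟨hD.2, hCD⟩)
      rw [Finset.insert_union, Finset.insert_union]
      rw [Finset.union_assoc] at i2
      have p1 := hw (A' ∪ C)
      have p2 := hw (A' ∪ (C ∪ D))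
      have p3 := hw C
      have p4 := hw (C ∪ D)
      have p5 := hw (insert u (A' ∪ C))
      have p6 := hw (insert u (A' ∪ (C ∪ D)))
      have i3 := mul_le_mul i1 i2 (by positivity) (by positivity)
      have p7 : 0 < w (A' ∪ C) * w (A' ∪ (C ∪ D)) := by positivity
      refine le_of_mul_le_mul_right ?_ p7
      calc w (insert u (A' ∪ C)) * w (C ∪ D) * (w (A' ∪ C) * w (A' ∪ (C ∪ D)))
          = w (A' ∪ C) * w (C ∪ D) * (w (insert u (A' ∪ C)) * w (A' ∪ (C ∪ D))) := by ring
        _ ≤ _ := i3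
        _ = _ := by ring
  have h3 := h2 (A \ B) (A ∩ B) (B \ A)
    (by rw [Finset.disjoint_left]; intro v hv hv'; simp only [Finset.mem_sdiff, Finset.mem_inter] at hv hv'; tauto)
    (by rw [Finset.disjoint_left]; intro v hv hv'; simp only [Finset.mem_sdiff] at hv hv'; tauto)
    (by rw [Finset.disjoint_left]; intro v hv hv'; simp only [Finset.mem_sdiff, Finset.mem_inter] at hv hv'; tauto)
  have e1 : A \ B ∪ A ∩ B = A := by
    ext v; simp only [Finset.mem_union, Finset.mem_sdiff, Finset.mem_inter]; tauto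
  have e2 : A ∩ B ∪ B \ A = B := by
    ext v; simp only [Finset.mem_union, Finset.mem_sdiff, Finset.mem_inter]; tauto
  have e3 : A \ B ∪ B = A ∪ B := by
    ext v; simp only [Finset.mem_union, Finset.mem_sdiff]; tauto
  rw [e2, e1, e3] at h3
  exact h3

/-- global log-supermodularity -/
theorem ww_global {n x : ℝ} (hn : 1 ≤ n) (hx : 0 < x) (hnx : n * x ^ 2 ≤ 1)
    (hI : ∀ i, a i ≠ b i → i ∈ I)
    (hcn : ∀ u v, u ≠ v → (∃ i, Jn a b u v i) → ∃ t, t ≠ u ∧ t ≠ v ∧ (∃ i, Jn a b u t i) ∧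
      ∃ i, Jn a b v t i) (A B : Finset 𝒱) :
    ww a b I n x A * ww a b I n x B ≤ ww a b I n x (A ⊓ B) * ww a b I n x (A ⊔ B) :=
  global_of_local _ (ww_pos a b I hn hx) (fun _ _ _ h1 h2 h3 =>
    ww_local a b I hn hx hnx hI hcn h1 h2 h3) A B

/-- four functions -/
theorem ww_four {n x : ℝ} (hn : 1 ≤ n) (hx : 0 < x) (hnx : n * x ^ 2 ≤ 1)
    (hI : ∀ i, a i ≠ b i → i ∈ I)
    (hcn : ∀ u v, u ≠ v → (∃ i, Jn a b u v i) → ∃ t, t ≠ u ∧ t ≠ v ∧ (∃ i, Jn a b u t i) ∧
      ∃ i, Jn a b v t i) (𝒜 ℬ 𝒞 𝒟 : Finset (Finset 𝒱))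
    (hC : ∀ A ∈ 𝒜, ∀ B ∈ ℬ, A ⊓ B ∈ 𝒞) (hD : ∀ A ∈ 𝒜, ∀ B ∈ ℬ, A ⊔ B ∈ 𝒟) :
    (∑ A ∈ 𝒜, ww a b I n x A) * ∑ B ∈ ℬ, ww a b I n x B ≤
      (∑ A ∈ 𝒞, ww a b I n x A) * ∑ B ∈ 𝒟, ww a b I n x B := by
  have h0 : ∀ σ, 0 ≤ ww a b I n x σ := fun σ => (ww_pos a b I hn hx σ).le
  have h := four_functions_theorem (ww a b I n x) (ww a b I n x) (ww a b I n x) (ww a b I n x)
    h0 h0 h0 h0 (ww_global a b I hn hx hnx hI hcn) 𝒜 ℬ
  refine h.trans (mul_le_mul ?_ ?_ (Finset.sum_nonneg fun σ _ => h0 σ)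
    (Finset.sum_nonneg fun σ _ => h0 σ))
  · apply Finset.sum_le_sum_of_subset_of_nonneg _ (fun σ _ _ => h0 σ)
    intro σ hσ
    rw [Finset.mem_infs] at hσ
    obtain ⟨A, hA, B, hB, rfl⟩ := hσ
    exact hC A hA B hB
  · apply Finset.sum_le_sum_of_subset_of_nonneg _ (fun σ _ _ => h0 σ)
    intro σ hσ
    rw [Finset.mem_sups] at hσ
    obtain ⟨A, hA, B, hB, rfl⟩ := hσ
    exact hD A hA B hB

end Pool.Agent.H97.ON
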