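import Pool.Graph.R_pool_sql_team_seeded_64922ed1.X136.ON.Aff
import Pool.Graph.R_seed8.H978R2.Hex.ValG
import Pool.Agent.H97.ON.Lin

set_option autoImplicit false
set_option linter.unusedSimpArgs false

/-!
Vertices (brick-wall coordinates), edges and faces of the honeycomb lattice; the finite graph of the
faces in a box, with one more vertex for all other faces.
-/

noncomputable section

namespace Pool.Agent.H97.ON

open H978R2.Hex
open Pool.Agent.X136.ON (Dir Ed Vx s1 s2 ch par ray bd mem_bd ea eb ec ch_iff ch_false ray_edge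
  ray_right exists_right)

/-- hexagons -/
abbrev Fc : Type := ℤ × ℤ

/-- translation of the vertices -/
def vx (v : V) : Vx := ((v.1 + v.2) / 2, -v.2, decide ((v.1 + v.2) % 2 = 1))

/-- the edge at `v` in direction `d` -/
def ed (v : V) (d : Dir) : Ed :=
  if (v.1 + v.2) % 2 = 0 then ((v.1 + v.2) / 2, -v.2, d) else
    match d with
    | .A => ((v.1 + v.2 - 1) / 2, -v.2 + 1, .A)
    | .B => ((v.1 + v.2 + 1) / 2, -v.2, .B)
    | .C => ((v.1 + v.2 - 1) / 2, -v.2, .C)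

/-- the neighbour of `v` in direction `d` -/
def nb (v : V) (d : Dir) : V :=
  if (v.1 + v.2) % 2 = 0 then
    match d with
    | .A => (v.1, v.2 + 1)
    | .B => (v.1 - 1, v.2)
    | .C => (v.1 + 1, v.2)
  else
    match d with
    | .A => (v.1, v.2 - 1)
    | .B => (v.1 + 1, v.2)
    | .C => (v.1 - 1, v.2)

/-- the even end of an edge -/
def p0 (e : Ed) : V := (2 * e.1 + e.2.1, -e.2.1)

/-- the odd end of an edge -/
def p1 (e : Ed) : V :=
  match e with
  | (i, j, .A) => (2 * i + j, -j + 1)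
  | (i, j, .B) => (2 * i + j - 1, -j)
  | (i, j, .C) => (2 * i + j + 1, -j)

/-- the edge `e` has the end `v` -/
def Tch (v : V) (e : Ed) : Prop := p0 e = v ∨ p1 e = v

instance (v : V) (e : Ed) : Decidable (Tch v e) := by unfold Tch; infer_instance

theorem even_cases (v : V) : (v.1 + v.2) % 2 = 0 ∨ (v.1 + v.2) % 2 = 1 := by omega

theorem ends_even {v : V} (h : (v.1 + v.2) % 2 = 0) (d : Dir) :
    p0 (ed v d) = v ∧ p1 (ed v d) = nb v d := by
  obtain ⟨x, y⟩ := v
  simp only at h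
  unfold ed nb
  simp only [h, if_true]
  cases d <;> simp only [p0, p1, Prod.mk.injEq] <;> omega

theorem ends_odd {v : V} (h : (v.1 + v.2) % 2 = 1) (d : Dir) :
    p1 (ed v d) = v ∧ p0 (ed v d) = nb v d := by
  obtain ⟨x, y⟩ := v
  simp only at h
  have h0 : ¬ (x + y) % 2 = 0 := by omega
  unfold ed nb
  simp only [h0, if_false]
  cases d <;> simp only [p0, p1, Prod.mk.injEq] <;> omega

theorem ed_A (v : V) : ed v .A = ea (vx v) := by
  obtain ⟨x, y⟩ := v
  unfold ed vx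
  rcases even_cases (x, y) with h | h
  · simp only at h
    have h1 : ¬ (x + y) % 2 = 1 := by omega
    simp only [h, if_true, ea]
    norm_num [ea]
  · simp only at h
    have h1 : ¬ (x + y) % 2 = 0 := by omega
    simp only [h, if_false]
    norm_num [ea]
    omega

theorem ed_B (v : V) : ed v .B = eb (vx v) := by
  obtain ⟨x, y⟩ := v
  unfold ed vx
  rcases even_cases (x, y) with h | h
  · simp only at h
    simp only [h, if_true]
    norm_num [eb]
  · simp only at h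
    simp only [h, if_false]
    norm_num [eb]
    omega

theorem ed_C (v : V) : ed v .C = ec (vx v) := by
  obtain ⟨x, y⟩ := v
  unfold ed vx
  rcases even_cases (x, y) with h | h
  · simp only at h
    simp only [h, if_true, ec]
  · simp only at h
    simp only [h, if_false, ec]
    norm_num
    omega

theorem ed_inj (v : V) {d d' : Dir} (h : ed v d = ed v d') : d = d' := by
  unfold ed at h
  split_ifs at h with h1
  · simpa using h
  · cases d <;> cases d' <;> simp at h ⊢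

theorem ed_even {x y : ℤ} (h : (x + y) % 2 = 0) (d : Dir) : ed (x, y) d = ((x + y) / 2, -y, d) :=
  if_pos h

theorem ed_oddA {x y : ℤ} (h : ¬ (x + y) % 2 = 0) :
    ed (x, y) .A = ((x + y - 1) / 2, -y + 1, .A) := if_neg h

theorem ed_oddB {x y : ℤ} (h : ¬ (x + y) % 2 = 0) :
    ed (x, y) .B = ((x + y + 1) / 2, -y, .B) := if_neg h

theorem ed_oddC {x y : ℤ} (h : ¬ (x + y) % 2 = 0) :
    ed (x, y) .C = ((x + y - 1) / 2, -y, .C) := if_neg h

theorem tch_iff {v : V} {e : Ed} : Tch v e ↔ ∃ d, e = ed v d := by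
  constructor
  · rintro (h | h)
    · refine ⟨e.2.2, ?_⟩
      obtain ⟨i, j, k⟩ := e
      rw [← h]
      change _ = ed (2 * i + j, -j) k
      rw [ed_even (by omega)]
      simp only [Prod.mk.injEq, and_true]
      omega
    · refine ⟨e.2.2, ?_⟩
      obtain ⟨i, j, k⟩ := e
      rw [← h]
      cases k
      · change _ = ed (2 * i + j, -j + 1) .A
        rw [ed_oddA (by omega)]
        simp only [Prod.mk.injEq, and_true]
        omega
      · change _ = ed (2 * i + j - 1, -j) .B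
        rw [ed_oddB (by omega)]
        simp only [Prod.mk.injEq, and_true]
        omega
      · change _ = ed (2 * i + j + 1, -j) .C
        rw [ed_oddC (by omega)]
        simp only [Prod.mk.injEq, and_true]
        omega
  · rintro ⟨d, rfl⟩
    rcases even_cases v with h | h
    · exact Or.inl (ends_even h d).1
    · exact Or.inr (ends_odd h d).1

theorem tch_ed (v : V) (d : Dir) : Tch v (ed v d) := tch_iff.2 ⟨d, rfl⟩

theorem tch_nb (v : V) (d : Dir) : Tch (nb v d) (ed v d) := by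
  rcases even_cases v with h | h
  · exact Or.inr (ends_even h d).2
  · exact Or.inl (ends_odd h d).2

theorem nb_ne (v : V) (d : Dir) : nb v d ≠ v := by
  obtain ⟨x, y⟩ := v
  unfold nb
  intro h
  split_ifs at h <;> cases d <;> simp [Prod.mk.injEq] at h

theorem p0_ne_p1 (e : Ed) : p0 e ≠ p1 e := by
  obtain ⟨i, j, k⟩ := e
  cases k <;> simp only [p0, p1, ne_eq, Prod.mk.injEq] <;> omega

/-- an edge with the end `v` has the ends `v` and `nb v d` -/
theorem tch_ed_iff (v w : V) (d : Dir) : Tch w (ed v d) ↔ w = v ∨ w = nb v d := by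
  unfold Tch
  rcases even_cases v with h | h
  · rw [(ends_even h d).1, (ends_even h d).2]
    exact ⟨fun h => h.imp Eq.symm Eq.symm, fun h => h.imp Eq.symm Eq.symm⟩
  · rw [(ends_odd h d).1, (ends_odd h d).2]
    constructor
    · rintro (h | h)
      · exact Or.inr h.symm
      · exact Or.inl h.symm
    · rintro (h | h)
      · exact Or.inr h.symm
      · exact Or.inl h.symm

theorem adj_iff_nb {v w : V} : Adj v w ↔ ∃ d, w = nb v d := by
  obtain ⟨x, y⟩ := v
  obtain ⟨z, t⟩ := w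
  unfold Adj nb
  simp only [Prod.mk_sub_mk, Prod.mk.injEq, Int.even_iff]
  constructor
  · rintro (⟨h1, h2⟩ | ⟨h1, h2⟩ | ⟨⟨h1, h2⟩, h3⟩ | ⟨⟨h1, h2⟩, h3⟩)
    · rcases even_cases (x, y) with h | h <;> simp only at h
      · exact ⟨.C, by simp only [h, if_true, Prod.mk.injEq]; omega⟩
      · refine ⟨.B, ?_⟩
        rw [if_neg (by omega)]
        simp only [Prod.mk.injEq]; omega
    · rcases even_cases (x, y) with h | h <;> simp only at h
      · exact ⟨.B, by simp only [h, if_true, Prod.mk.injEq]; omega⟩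
      · refine ⟨.C, ?_⟩
        rw [if_neg (by omega)]
        simp only [Prod.mk.injEq]; omega
    · exact ⟨.A, by simp only [h3, if_true, Prod.mk.injEq]; omega⟩
    · refine ⟨.A, ?_⟩
      rw [if_neg (by omega)]
      simp only [Prod.mk.injEq]; omega
  · rintro ⟨d, h⟩
    split_ifs at h with h1 <;> cases d <;> simp only [Prod.mk.injEq] at h <;> omega

/-- the three hexagons at a vertex -/
def fa (v : V) (i : Fin 3) : Fc :=
  if (v.1 + v.2) % 2 = 0 then
    match i with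
    | 0 => ((v.1 + v.2) / 2, -v.2)
    | 1 => ((v.1 + v.2) / 2 + 1, -v.2)
    | 2 => ((v.1 + v.2) / 2, -v.2 + 1)
  else
    match i with
    | 0 => ((v.1 + v.2) / 2 + 1, -v.2 + 1)
    | 1 => ((v.1 + v.2) / 2, -v.2 + 1)
    | 2 => ((v.1 + v.2) / 2 + 1, -v.2)

/-- the edge `e` separates the hexagons `f` and `g` -/
def Sep (e : Ed) (f g : Fc) : Prop := (s1 e = f ∧ s2 e = g) ∨ (s1 e = g ∧ s2 e = f)

theorem sep_at (v : V) : Sep (ed v .A) (fa v 0) (fa v 1) ∧ Sep (ed v .B) (fa v 0) (fa v 2) ∧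
    Sep (ed v .C) (fa v 1) (fa v 2) := by
  obtain ⟨x, y⟩ := v
  unfold Sep ed fa
  rcases even_cases (x, y) with h | h
  · simp only at h
    simp only [h, if_true, s1, s2]
    refine ⟨?_, ?_, ?_⟩ <;> simp
  · simp only at h
    have h0 : ¬ (x + y) % 2 = 0 := by omega
    simp only [h0, if_false, s1, s2, Prod.mk.injEq]
    refine ⟨?_, ?_, ?_⟩ <;> simp <;> omega

theorem Sep.symm {e : Ed} {f g : Fc} (h : Sep e f g) : Sep e g f := Or.symm h

/-! ### the finite graph -/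

/-- the box -/
def XX (L : ℕ) : Finset Fc := Finset.Icc (-(L : ℤ)) L ×ˢ Finset.Icc (-(L : ℤ)) L

theorem mem_XX {L : ℕ} {h : Fc} : h ∈ XX L ↔ (-(L : ℤ) ≤ h.1 ∧ h.1 ≤ L) ∧ (-(L : ℤ) ≤ h.2 ∧ h.2 ≤ L) := by
  unfold XX
  rw [Finset.mem_product, Finset.mem_Icc, Finset.mem_Icc]

/-- the vertices of the finite graph -/
abbrev VV (L : ℕ) : Type := Option {h : Fc // h ∈ XX L}

/-- the contraction -/
def pr (L : ℕ) (h : Fc) : VV L := if hh : h ∈ XX L then some ⟨h, hh⟩ else none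

theorem pr_none {L : ℕ} {h : Fc} : pr L h = none ↔ h ∉ XX L := by
  unfold pr
  split_ifs with h1 <;> simp [h1]

theorem pr_of_mem {L : ℕ} {h : Fc} (hh : h ∈ XX L) : pr L h = some ⟨h, hh⟩ := dif_pos hh

theorem pr_inj {L : ℕ} {h h' : Fc} (hh : h ∈ XX L) (e : pr L h = pr L h') : h = h' := by
  rw [pr_of_mem hh] at e
  unfold pr at e
  split_ifs at e with h1
  simpa using e

/-- the ends of an edge of the finite graph -/
def aa (L : ℕ) (e : Ed) : VV L := pr L (s1 e)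
def bb (L : ℕ) (e : Ed) : VV L := pr L (s2 e)

/-- the edges of the finite graph -/
def II (L : ℕ) : Finset Ed := (XX L).biUnion bd

theorem mem_II {L : ℕ} {e : Ed} : e ∈ II L ↔ s1 e ∈ XX L ∨ s2 e ∈ XX L := by
  unfold II
  rw [Finset.mem_biUnion]
  constructor
  · rintro ⟨h, h1, h2⟩
    rcases mem_bd.1 h2 with h | h
    · exact Or.inl (h ▸ h1)
    · exact Or.inr (h ▸ h1)
  · rintro (h | h)
    · exact ⟨_, h, mem_bd.2 (Or.inl rfl)⟩
    · exact ⟨_, h, mem_bd.2 (Or.inr rfl)⟩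

theorem hI (L : ℕ) (e : Ed) (h : aa L e ≠ bb L e) : e ∈ II L := by
  rw [mem_II]
  by_contra h1
  rw [not_or] at h1
  apply h
  unfold aa bb
  rw [pr_none.2 h1.1, pr_none.2 h1.2]

theorem jn_sep {L : ℕ} {e : Ed} {f g : Fc} (h : Sep e f g) :
    Jn (aa L) (bb L) (pr L f) (pr L g) e := by
  unfold Jn aa bb
  rcases h with ⟨h1, h2⟩ | ⟨h1, h2⟩
  · left; rw [h1, h2]; exact ⟨rfl, rfl⟩
  · right; rw [h1, h2]; exact ⟨rfl, rfl⟩

/-- adjacent hexagons have a common neighbour -/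
theorem third (e : Ed) : ∃ g : Fc, g ≠ s1 e ∧ g ≠ s2 e ∧ (∃ e1, Sep e1 (s1 e) g) ∧
    ∃ e2, Sep e2 (s2 e) g := by
  obtain ⟨i, j, k⟩ := e
  cases k
  · refine ⟨(i, j + 1), by simp [s1], by simp [s2], ⟨(i, j, .B), ?_⟩, ⟨(i, j, .C), ?_⟩⟩ <;>
      simp [Sep, s1, s2]
  · refine ⟨(i + 1, j), by simp [s1], by simp [s2], ⟨(i, j, .A), ?_⟩, ⟨(i, j, .C), ?_⟩⟩ <;>
      simp [Sep, s1, s2]
  · refine ⟨(i, j), by simp [s1], by simp [s2], ⟨(i, j, .A), ?_⟩, ⟨(i, j, .B), ?_⟩⟩ <;>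
      simp [Sep, s1, s2]

/-- near the boundary of the box -/
theorem bdry {L : ℕ} (hL : 1 ≤ L) {e : Ed} {h h' : Fc} (hs : Sep e h h') (hh : h ∈ XX L)
    (hh' : h' ∉ XX L) : ∃ g ∈ XX L, g ≠ h ∧ (∃ e1, Sep e1 h g) ∧
      ∃ g' e2, g' ∉ XX L ∧ Sep e2 g g' := by
  rw [mem_XX] at hh hh'
  have hstep : h.1 = L ∨ h.1 = -L ∨ h.2 = L ∨ h.2 = -L := by
    by_contra hc
    apply hh'
    obtain ⟨i, j, k⟩ := e
    obtain ⟨a1, a2⟩ := h
    obtain ⟨b1, b2⟩ := h'
    cases k <;> rcases hs with ⟨h1, h2⟩ | ⟨h1, h2⟩ <;> simp only [s1, s2, Prod.mk.injEq] at h1 h2 <;>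
      simp only at hc hh ⊢ <;> omega
  have sv : ∀ i j : ℤ, Sep (i, j, .B) (i, j) (i, j + 1) := fun i j => Or.inl ⟨rfl, rfl⟩
  have sh : ∀ i j : ℤ, Sep (i, j, .A) (i, j) (i + 1, j) := fun i j => Or.inl ⟨rfl, rfl⟩
  obtain ⟨i, j⟩ := h
  simp only at hh hstep
  -- a neighbour in the same column or row
  have colN : ∃ j' : ℤ, (-(L : ℤ) ≤ j' ∧ j' ≤ L) ∧ j' ≠ j ∧ ∃ e1, Sep e1 (i, j) (i, j') := by
    by_cases hj : j < L
    · exact ⟨j + 1, by omega, by omega, _, sv i j⟩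
    · refine ⟨j - 1, by omega, by omega, (i, j - 1, .B), ?_⟩
      have := (sv i (j - 1)).symm
      rwa [sub_add_cancel] at this
  have rowN : ∃ i' : ℤ, (-(L : ℤ) ≤ i' ∧ i' ≤ L) ∧ i' ≠ i ∧ ∃ e1, Sep e1 (i, j) (i', j) := by
    by_cases hj : i < L
    · exact ⟨i + 1, by omega, by omega, _, sh i j⟩
    · refine ⟨i - 1, by omega, by omega, (i - 1, j, .A), ?_⟩
      have := (sh (i - 1) j).symm
      rwa [sub_add_cancel] at this
  have hside : (i = L ∨ i = -L) ∨ (j = L ∨ j = -L) := by omega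
  rcases hside with hi | hj
  · obtain ⟨j', h1, h2, h3⟩ := colN
    refine ⟨(i, j'), mem_XX.2 ⟨hh.1, h1⟩, by simp [h2], h3, ?_⟩
    rcases hi with hi | hi
    · exact ⟨(i + 1, j'), _, by rw [mem_XX]; simp only; omega, sh i j'⟩
    · refine ⟨(i - 1, j'), (i - 1, j', .A), by rw [mem_XX]; simp only; omega, ?_⟩
      have := (sh (i - 1) j').symm
      rwa [sub_add_cancel] at this
  · obtain ⟨i', h1, h2, h3⟩ := rowN
    refine ⟨(i', j), mem_XX.2 ⟨h1, hh.2⟩, by simp [h2], h3, ?_⟩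
    rcases hj with hj | hj
    · exact ⟨(i', j + 1), _, by rw [mem_XX]; simp only; omega, sv i' j⟩
    · refine ⟨(i', j - 1), (i', j - 1, .B), by rw [mem_XX]; simp only; omega, ?_⟩
      have := (sv i' (j - 1)).symm
      rwa [sub_add_cancel] at this

theorem hcn (L : ℕ) (hL : 1 ≤ L) (u v : VV L) (huv : u ≠ v)
    (h : ∃ i, Jn (aa L) (bb L) u v i) : ∃ t, t ≠ u ∧ t ≠ v ∧ (∃ i, Jn (aa L) (bb L) u t i) ∧
      ∃ i, Jn (aa L) (bb L) v t i := by
  obtain ⟨e, he⟩ := h
  -- hexagons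
  obtain ⟨f, g, hf, hg, hs⟩ : ∃ f g, pr L f = u ∧ pr L g = v ∧ Sep e f g := by
    rcases he with ⟨h1, h2⟩ | ⟨h1, h2⟩
    · exact ⟨s1 e, s2 e, h1, h2, Or.inl ⟨rfl, rfl⟩⟩
    · exact ⟨s2 e, s1 e, h2, h1, Or.inr ⟨rfl, rfl⟩⟩
  subst hf hg
  by_cases hf : f ∈ XX L
  · by_cases hg : g ∈ XX L
    · -- both inside
      obtain ⟨k, k1, k2, ⟨e1, h1⟩, ⟨e2, h2⟩⟩ : ∃ k : Fc, k ≠ f ∧ k ≠ g ∧ (∃ e1, Sep e1 f k) ∧
          ∃ e2, Sep e2 g k := by
        obtain ⟨k, k1, k2, k3, k4⟩ := third e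
        rcases hs with ⟨h1, h2⟩ | ⟨h1, h2⟩
        · rw [h1] at k1 k3
          rw [h2] at k2 k4
          exact ⟨k, k1, k2, k3, k4⟩
        · rw [h1] at k1 k3
          rw [h2] at k2 k4
          exact ⟨k, k2, k1, k4, k3⟩
      refine ⟨pr L k, fun h => k1 (pr_inj hf h.symm).symm, fun h => k2 (pr_inj hg h.symm).symm,
        ⟨e1, jn_sep h1⟩, ⟨e2, jn_sep h2⟩⟩
    · obtain ⟨k, k1, k2, ⟨e1, h1⟩, k', e2, k3, h2⟩ := bdry hL hs hf hg
      refine ⟨pr L k, fun h => k2 (pr_inj k1 h), ?_, ⟨e1, jn_sep h1⟩, ⟨e2, ?_⟩⟩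
      · intro h
        rw [pr_none.2 hg] at h
        exact pr_none.1 h k1
      · rw [pr_none.2 hg, ← pr_none.2 k3]
        exact jn_sep h2.symm
  · by_cases hg : g ∈ XX L
    · obtain ⟨k, k1, k2, ⟨e1, h1⟩, k', e2, k3, h2⟩ := bdry hL hs.symm hg hf
      refine ⟨pr L k, ?_, fun h => k2 (pr_inj k1 h), ⟨e2, ?_⟩, ⟨e1, jn_sep h1⟩⟩
      · intro h
        rw [pr_none.2 hf] at h
        exact pr_none.1 h k1
      · rw [pr_none.2 hf, ← pr_none.2 k3]
        exact jn_sep h2.symm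
    · exact absurd (by rw [pr_none.2 hf, pr_none.2 hg]) huv

/-! ### the colouring without bichromatic edges -/

theorem const_of_all {L : ℕ} {f : VV L → ℚ} (hf : ∀ e, f (aa L e) = f (bb L e)) (v : VV L) :
    f v = f none := by
  have step : ∀ i j : ℤ, f (pr L (i, j)) = f (pr L (i + 1, j)) := fun i j => hf (i, j, .A)
  have key : ∀ (m : ℕ) (i j : ℤ), f (pr L (i, j)) = f (pr L (i + m, j)) := by
    intro m
    induction m with
    | zero => intro i j; simp
    | succ m ih =>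
      intro i j
      rw [ih i j, step (i + m) j]
      push_cast
      rw [add_assoc]
  match v with
  | none => rfl
  | some ⟨(i, j), h⟩ =>
    have e := key (2 * L + 1) i j
    rw [pr_of_mem h] at e
    rw [e, pr_none.2]
    rw [mem_XX] at h ⊢
    simp only at h ⊢
    push_cast
    omega

end Pool.Agent.H97.ON
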