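import Pool.Agent.H97.ON.Part

set_option autoImplicit false
set_option linter.unusedSimpArgs false

/-!
Domain monotonicity of the normalised weights of the boundary paths, `1 ≤ n`, `n * x ^ 2 ≤ 1`.
-/

noncomputable section

namespace Pool.Agent.H97.ON

open H978R2.Hex Module
open Pool.Agent.X136.ON (Dir Ed Vx s1 s2 ch par ray bd mem_bd ea eb ec ch_iff ch_false ray_edge
  ray_right exists_right)
open TH508.ON (IsLoop verts loops ZL loopsAt CL loopOf)

/-! ### flipping all faces -/

theorem dd_compl {L : ℕ} (σ : Finset (VV L)) : dd L σᶜ = dd L σ := by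
  ext e
  rw [mem_dd, mem_dd, Finset.mem_compl, Finset.mem_compl]
  tauto

theorem wg_compl {L : ℕ} (n x : ℝ) (σ : Finset (VV L)) : wg L n x σᶜ = wg L n x σ := by
  rw [wg_eq, wg_eq, dd_compl]
  congr 2
  unfold KK
  congr 1
  funext i
  rw [Finset.mem_compl, Finset.mem_compl]
  exact propext not_iff_not

theorem compl_mem_Cfg {L : ℕ} {T : Finset V} {π : Finset Ed} {σ : Finset (VV L)}
    (h : σ ∈ Cfg L T π) : σᶜ ∈ Cfg L T π := by
  rw [mem_Cfg] at h ⊢
  rw [dd_compl]
  exact h

theorem half_eq {L : ℕ} (n x : ℝ) (T : Finset V) (π : Finset Ed) (f : VV L) :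
    ∑ σ ∈ (Cfg L T π).filter (fun σ => ¬ f ∈ σ), wg L n x σ =
      ∑ σ ∈ (Cfg L T π).filter (fun σ => f ∈ σ), wg L n x σ := by
  apply Finset.sum_nbij' (fun σ => σᶜ) (fun σ => σᶜ)
  · intro σ hσ
    rw [Finset.mem_filter] at hσ ⊢
    exact ⟨compl_mem_Cfg hσ.1, Finset.mem_compl.2 hσ.2⟩
  · intro σ hσ
    rw [Finset.mem_filter] at hσ ⊢
    exact ⟨compl_mem_Cfg hσ.1, fun h => Finset.mem_compl.1 h hσ.2⟩
  · intro σ _
    exact compl_compl σ
  · intro σ _
    exact compl_compl σ
  · intro σ _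
    exact (wg_compl n x σ).symm

theorem half {L : ℕ} (n x : ℝ) (T : Finset V) (π : Finset Ed) (f : VV L) :
    QQ L n x T π = 2 * ∑ σ ∈ (Cfg L T π).filter (fun σ => f ∈ σ), wg L n x σ := by
  have h := Finset.sum_filter_add_sum_filter_not (Cfg L T π) (fun σ => f ∈ σ) (wg L n x)
  rw [half_eq] at h
  unfold QQ
  rw [← h, two_mul]

/-! ### the faces around a vertex without boundary edges -/

theorem ed_nb (v : V) (d : Dir) : ed (nb v d) d = ed v d := by
  obtain ⟨x, y⟩ := v
  rcases even_cases (x, y) with h | h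
  · simp only at h
    unfold nb
    simp only [h, if_true]
    rw [ed_even h]
    cases d
    · simp only
      rw [ed_oddA (by omega)]
      simp only [Prod.mk.injEq, and_true]
      omega
    · simp only
      rw [ed_oddB (by omega)]
      simp only [Prod.mk.injEq, and_true]
      omega
    · simp only
      rw [ed_oddC (by omega)]
      simp only [Prod.mk.injEq, and_true]
      omega
  · simp only at h
    have h0 : ¬ (x + y) % 2 = 0 := by omega
    unfold nb
    simp only [h0, if_false]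
    cases d
    · simp only
      rw [ed_oddA h0, ed_even (by omega)]
      simp only [Prod.mk.injEq, and_true]
      omega
    · simp only
      rw [ed_oddB h0, ed_even (by omega)]
      simp only [Prod.mk.injEq, and_true]
      omega
    · simp only
      rw [ed_oddC h0, ed_even (by omega)]
      simp only [Prod.mk.injEq, and_true]
      omega

theorem side_at (v : V) (d : Dir) : ∃ i j : Fin 3, s1 (ed v d) = fa v i ∧ s2 (ed v d) = fa v j := by
  obtain ⟨h1, h2, h3⟩ := sep_at v
  have key : ∀ (e : Ed) (i j : Fin 3), Sep e (fa v i) (fa v j) →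
      ∃ i j : Fin 3, s1 e = fa v i ∧ s2 e = fa v j := by
    intro e i j hs
    rcases hs with ⟨s, t⟩ | ⟨s, t⟩
    · exact ⟨i, j, s, t⟩
    · exact ⟨j, i, s, t⟩
  cases d
  · exact key _ _ _ h1
  · exact key _ _ _ h2
  · exact key _ _ _ h3

/-- a colouring is constant around a vertex without boundary edges -/
theorem const_at {L : ℕ} {σ : Finset (VV L)} {v : V} (h : ∀ d, ed v d ∉ dd L σ) (i j : Fin 3) :
    pr L (fa v i) ∈ σ ↔ pr L (fa v j) ∈ σ := by
  obtain ⟨h1, h2, h3⟩ := sep_at v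
  have e1 := h .A
  have e2 := h .B
  rw [mem_dd_sep h1, not_not] at e1
  rw [mem_dd_sep h2, not_not] at e2
  have key : ∀ k : Fin 3, pr L (fa v k) ∈ σ ↔ pr L (fa v 0) ∈ σ := by
    intro k
    fin_cases k
    · exact Iff.rfl
    · exact e1.symm
    · exact e2.symm
  rw [key i, key j]

theorem all_iff {L : ℕ} {σ : Finset (VV L)} {v : V} (h : ∀ d, ed v d ∉ dd L σ) (d : Dir) :
    (∀ i, pr L (fa v i) ∈ σ) ↔ aa L (ed v d) ∈ σ := by
  obtain ⟨i, j, hi, _⟩ := side_at v d
  unfold aa
  rw [hi]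
  exact ⟨fun h => h i, fun h1 k => (const_at h i k).1 h1⟩

/-- both sides of the edges at `v` are coloured -/
theorem sides_of_all {L : ℕ} {σ : Finset (VV L)} {v : V} (h : ∀ i, pr L (fa v i) ∈ σ) {e : Ed}
    (he : Tch v e) : aa L e ∈ σ ∧ bb L e ∈ σ := by
  obtain ⟨d, rfl⟩ := tch_iff.1 he
  obtain ⟨i, j, hi, hj⟩ := side_at v d
  unfold aa bb
  rw [hi, hj]
  exact ⟨h i, h j⟩

/-! ### connected complements -/

/-- one step in the complement of `S` -/
def Stp (S : Finset V) (v w : V) : Prop := v ∉ S ∧ w ∉ S ∧ Adj v w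

/-- the complement of `S` is connected -/
def Cc (S : Finset V) : Prop := ∀ v w, v ∉ S → w ∉ S → Relation.ReflTransGen (Stp S) v w

theorem Stp.symm {S : Finset V} {v w : V} (h : Stp S v w) : Stp S w v :=
  ⟨h.2.1, h.1, adj_sym h.2.2⟩

theorem rtg_symm {S : Finset V} {v w : V} (h : Relation.ReflTransGen (Stp S) v w) :
    Relation.ReflTransGen (Stp S) w v := by
  induction h with
  | refl => exact Relation.ReflTransGen.refl
  | tail _ h ih => exact Relation.ReflTransGen.head h.symm ih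

theorem far_vertex (L : ℕ) : pr L (fa ((L : ℤ) + 1, (L : ℤ) + 1) 0) = none := by
  rw [pr_none]
  unfold fa
  have h : ((L : ℤ) + 1 + ((L : ℤ) + 1)) % 2 = 0 := by omega
  simp only [h, if_true]
  rw [mem_XX]
  simp only
  omega

theorem outer_all {L : ℕ} {S : Finset V} (hS : Cc S) (hbox : ∀ w ∈ S, ∀ i, fa w i ∈ XX L)
    {σ : Finset (VV L)} (hσ : σ ∈ Cfg L S ∅) (h0 : none ∈ σ) (y : V) (hy : y ∉ S) :
    ∀ i, pr L (fa y i) ∈ σ := by
  rw [mem_Cfg] at hσ
  have hno : ∀ y, y ∉ S → ∀ d, ed y d ∉ dd L σ := fun y hy d hd =>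
    hy (ein_ed.1 (hσ.2 _ hd (Finset.notMem_empty _))).1
  have hf : (((L : ℤ) + 1, (L : ℤ) + 1) : V) ∉ S := by
    intro h
    exact pr_none.1 (far_vertex L) (hbox _ h 0)
  have hr := hS _ _ hf hy
  induction hr with
  | refl =>
    intro i
    rw [const_at (hno _ hf) i 0, far_vertex]
    exact h0
  | @tail b c _ hbc ih =>
    have ih' := ih hbc.1
    obtain ⟨d, rfl⟩ := adj_iff_nb.1 hbc.2.2
    rw [all_iff (hno _ hbc.1) d] at ih'
    rw [all_iff (hno _ hbc.2.1) d, ed_nb]
    exact ih'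

/-- **one vertex** -/
theorem fkg_step {L : ℕ} (hL : 1 ≤ L) {n x : ℝ} (hn : 1 ≤ n) (hx : 0 < x) (hnx : n * x ^ 2 ≤ 1)
    {S' : Finset V} {w : V} (hw : w ∈ S') {y0 : V} (hy0 : y0 ∉ S') (hwy : Adj w y0)
    (hC : Cc S') (hbox : ∀ w ∈ S', ∀ i, fa w i ∈ XX L) {π : Finset Ed}
    (hπ : ∀ e ∈ π, ¬ Ein S' e) (hπw : dg π w = 0) :
    QQ L n x (S'.erase w) π * QQ L n x S' ∅ ≤ QQ L n x S' π * QQ L n x (S'.erase w) ∅ := by
  classical
  obtain ⟨d0, rfl⟩ := adj_iff_nb.1 hwy
  set f := aa L (ed w d0) with hf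
  rw [half n x (S'.erase w) π f, half n x S' ∅ none, half n x S' π f,
    half n x (S'.erase w) ∅ none]
  have key := ww_four (aa L) (bb L) (II L) hn hx hnx (hI L) (hcn L hL)
    ((Cfg L (S'.erase w) π).filter (fun σ => f ∈ σ)) ((Cfg L S' ∅).filter (fun σ => none ∈ σ))
    ((Cfg L S' π).filter (fun σ => f ∈ σ)) ((Cfg L (S'.erase w) ∅).filter (fun σ => none ∈ σ))
    ?_ ?_
  · change (∑ σ ∈ _, wg L n x σ) * (∑ σ ∈ _, wg L n x σ) ≤
      (∑ σ ∈ _, wg L n x σ) * ∑ σ ∈ _, wg L n x σ at key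
    nlinarith
  · intro A hA B hB
    rw [Finset.mem_filter] at hA hB ⊢
    have hBall := outer_all hC hbox hB.1 hB.2
    obtain ⟨hA1, hA2⟩ := hA
    obtain ⟨hB1, hB2⟩ := hB
    have hBe : ∀ e, ¬ Ein S' e → aa L e ∈ B ∧ bb L e ∈ B := by
      intro e he
      rw [ein_iff] at he
      push Not at he
      obtain ⟨y, hy1, hy2⟩ := he
      exact sides_of_all (hBall y hy2) hy1
    have hdd : ∀ e, ¬ Ein S' e → (e ∈ dd L (A ⊓ B) ↔ e ∈ dd L A) := by
      intro e he
      obtain ⟨h1, h2⟩ := hBe e he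
      rw [mem_dd, mem_dd, Finset.inf_eq_inter, Finset.mem_inter, Finset.mem_inter]
      simp only [h1, h2, and_true]
    rw [mem_Cfg] at hA1
    refine ⟨?_, ?_⟩
    · rw [mem_Cfg]
      refine ⟨fun e he => (hdd e (hπ e he)).2 (hA1.1 he), ?_⟩
      intro e he hn'
      by_contra hE
      exact hE ((hA1.2 e ((hdd e hE).1 he) hn').mono (Finset.erase_subset _ _))
    · rw [Finset.inf_eq_inter, Finset.mem_inter]
      refine ⟨hA2, ?_⟩
      have hE : ¬ Ein S' (ed w d0) := by
        rw [ein_ed]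
        exact fun h => hy0 h.2
      exact (hBe _ hE).1
  · intro A hA B hB
    rw [Finset.mem_filter] at hA hB ⊢
    have hBall := outer_all hC hbox hB.1 hB.2
    obtain ⟨hA1, hA2⟩ := hA
    obtain ⟨hB1, hB2⟩ := hB
    rw [mem_Cfg] at hA1
    have hno : ∀ d, ed w d ∉ dd L A := by
      intro d hd
      have hnp : ed w d ∉ π := dg_zero hπw d
      have := (ein_ed.1 (hA1.2 _ hd hnp)).1
      simp at this
    have hAall : ∀ i, pr L (fa w i) ∈ A := (all_iff hno d0).2 hA2
    refine ⟨?_, ?_⟩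
    · rw [mem_Cfg]
      refine ⟨Finset.empty_subset _, ?_⟩
      intro e he _
      by_contra hE
      have hboth : aa L e ∈ A ⊔ B ∧ bb L e ∈ A ⊔ B := by
        rw [Finset.sup_eq_union]
        by_cases hE' : Ein S' e
        · -- the edge has the end `w`
          have ht : Tch w e := by
            by_contra ht
            exact hE (ein_erase hE' ht)
          obtain ⟨h1, h2⟩ := sides_of_all hAall ht
          exact ⟨Finset.mem_union_left _ h1, Finset.mem_union_left _ h2⟩
        · rw [ein_iff] at hE'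
          push Not at hE'
          obtain ⟨y, hy1, hy2⟩ := hE'
          obtain ⟨h1, h2⟩ := sides_of_all (hBall y hy2) hy1
          exact ⟨Finset.mem_union_right _ h1, Finset.mem_union_right _ h2⟩
      rw [mem_dd] at he
      exact he ⟨fun _ => hboth.2, fun _ => hboth.1⟩
    · rw [Finset.sup_eq_union]
      exact Finset.mem_union_right _ hB2

/-! ### many vertices -/

theorem QQ_pos {L : ℕ} {n x : ℝ} (hn : 1 ≤ n) (hx : 0 < x) (T : Finset V) :
    0 < QQ L n x T ∅ := by
  unfold QQ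
  apply Finset.sum_pos
  · intro σ _
    exact ww_pos _ _ _ hn hx σ
  · refine ⟨∅, ?_⟩
    rw [mem_Cfg, dd_empty_iff.2 (Or.inl rfl)]
    exact ⟨le_refl _, fun e he => absurd he (Finset.notMem_empty _)⟩

theorem QQ_nonneg {L : ℕ} {n x : ℝ} (hn : 1 ≤ n) (hx : 0 < x) (T : Finset V) (π : Finset Ed) :
    0 ≤ QQ L n x T π := by
  unfold QQ
  exact Finset.sum_nonneg fun σ _ => (ww_pos _ _ _ hn hx σ).le

theorem exists_outside (S : Finset V) : ∃ y, y ∉ S := by
  obtain ⟨y, hy⟩ := Infinite.exists_notMem_finset S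
  exact ⟨y, hy⟩

/-- a vertex which can be removed -/
theorem exists_peel {S S' : Finset V} (hsub : S ⊆ S') (hne : S ≠ S') (hC : Cc S) :
    ∃ w ∈ S', w ∉ S ∧ ∃ y, y ∉ S' ∧ Adj w y := by
  obtain ⟨w1, hw1, hw1'⟩ : ∃ w ∈ S', w ∉ S := by
    by_contra hc
    push Not at hc
    exact hne (Finset.Subset.antisymm hsub hc)
  obtain ⟨y1, hy1⟩ := exists_outside S'
  have hr := hC y1 w1 (fun h => hy1 (hsub h)) hw1'
  have key : ∀ w, Relation.ReflTransGen (Stp S) y1 w → w ∈ S' →
      ∃ w ∈ S', w ∉ S ∧ ∃ y, y ∉ S' ∧ Adj w y := by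
    intro w hr
    induction hr with
    | refl => intro h; exact absurd h hy1
    | @tail b c _ hbc ih =>
      intro hc
      by_cases hb : b ∈ S'
      · exact ih hb
      · exact ⟨c, hc, hbc.2.1, b, hb, adj_sym hbc.2.2⟩
  exact key w1 hr hw1

theorem Cc.erase {S : Finset V} (hC : Cc S) {w y : V} (hy : y ∉ S) (hwy : Adj w y) :
    Cc (S.erase w) := by
  have hstep : ∀ a b, Relation.ReflTransGen (Stp S) a b →
      Relation.ReflTransGen (Stp (S.erase w)) a b := by
    intro a b h
    induction h with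
    | refl => exact Relation.ReflTransGen.refl
    | tail _ h ih =>
      exact ih.tail ⟨fun hh => h.1 (Finset.mem_of_mem_erase hh),
        fun hh => h.2.1 (Finset.mem_of_mem_erase hh), h.2.2⟩
  have hyw : y ∉ S.erase w := fun hh => hy (Finset.mem_of_mem_erase hh)
  have hww : w ∉ S.erase w := by simp
  have toy : ∀ a, a ∉ S.erase w → Relation.ReflTransGen (Stp (S.erase w)) a y := by
    intro a ha
    by_cases haw : a = w
    · rw [haw]
      exact Relation.ReflTransGen.single ⟨hww, hyw, hwy⟩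
    · have : a ∉ S := fun hh => ha (Finset.mem_erase.2 ⟨haw, hh⟩)
      exact hstep a y (hC a y this hy)
  intro a b ha hb
  exact (toy a ha).trans (rtg_symm (toy b hb))

theorem fkg_chain {L : ℕ} (hL : 1 ≤ L) {n x : ℝ} (hn : 1 ≤ n) (hx : 0 < x) (hnx : n * x ^ 2 ≤ 1)
    {S : Finset V} (hCS : Cc S) {π : Finset Ed} : ∀ (m : ℕ) (S' : Finset V),
    (S' \ S).card ≤ m → S ⊆ S' → Cc S' → (∀ w ∈ S', ∀ i, fa w i ∈ XX L) →
    (∀ e ∈ π, ¬ Ein S' e) → (∀ w ∈ S', w ∉ S → dg π w = 0) →
    QQ L n x S π / QQ L n x S ∅ ≤ QQ L n x S' π / QQ L n x S' ∅ := by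
  intro m
  induction m with
  | zero =>
    intro S' hm hsub _ _ _ _
    have h1 : S' \ S = ∅ := Finset.card_eq_zero.1 (by omega)
    have h2 : S' = S := Finset.Subset.antisymm (Finset.sdiff_eq_empty_iff_subset.1 h1) hsub
    rw [h2]
  | succ m ih =>
    intro S' hm hsub hC' hbox hπ hd
    by_cases hne : S = S'
    · rw [hne]
    · obtain ⟨w, hw, hwS, y, hy, hwy⟩ := exists_peel hsub hne hCS
      have h1 := ih (S'.erase w) ?_ ?_ (hC'.erase hy hwy) ?_ ?_ ?_
      · refine h1.trans ?_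
        rw [div_le_div_iff₀ (QQ_pos hn hx _) (QQ_pos hn hx _)]
        exact fkg_step hL hn hx hnx hw hy hwy hC' hbox hπ (hd w hw hwS)
      · have e : S'.erase w \ S = (S' \ S).erase w := by
          ext a
          simp only [Finset.mem_sdiff, Finset.mem_erase]
          tauto
        rw [e, Finset.card_erase_of_mem (Finset.mem_sdiff.2 ⟨hw, hwS⟩)]
        omega
      · intro a ha
        exact Finset.mem_erase.2 ⟨fun h => hwS (h ▸ ha), hsub ha⟩
      · exact fun a ha => hbox a (Finset.mem_of_mem_erase ha)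
      · exact fun e he hE => hπ e he (hE.mono (Finset.erase_subset _ _))
      · exact fun a ha h => hd a (Finset.mem_of_mem_erase ha) h

/-! ### outer arcs -/

/-- `π` is a simple arc from `a` to `b` with the vertices `M` in the complement of `S` -/
inductive Arc (S : Finset V) (b : V) : V → Finset Ed → Finset V → Prop
  | nil : b ∉ S → Arc S b b ∅ {b}
  | cons {a : V} {π : Finset Ed} {M : Finset V} (d : Dir) : Arc S b (nb a d) π M → a ∉ M → a ∉ S →
      Arc S b a (insert (ed a d) π) (insert a M)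

theorem Arc.mem {S : Finset V} {a b : V} {π : Finset Ed} {M : Finset V} (h : Arc S b a π M) :
    a ∈ M ∧ b ∈ M ∧ (∀ w ∈ M, w ∉ S) ∧ ∀ e ∈ π, ∀ w, Tch w e → w ∈ M := by
  induction h with
  | nil h =>
    refine ⟨by simp, by simp, ?_, by simp⟩
    intro w hw
    rw [Finset.mem_singleton] at hw
    rwa [hw]
  | @cons a π M d _ h1 h2 ih =>
    obtain ⟨i1, i2, i3, i4⟩ := ih
    refine ⟨by simp, Finset.mem_insert_of_mem i2, ?_, ?_⟩
    · intro w hw
      rcases Finset.mem_insert.1 hw with rfl | hw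
      · exact h2
      · exact i3 w hw
    · intro e he w hw
      rcases Finset.mem_insert.1 he with rfl | he
      · rcases (tch_ed_iff _ _ _).1 hw with h | h
        · rw [h]; simp
        · rw [h]; exact Finset.mem_insert_of_mem i1
      · exact Finset.mem_insert_of_mem (i4 e he w hw)

theorem Arc.deg {S : Finset V} {a b : V} {π : Finset Ed} {M : Finset V} (h : Arc S b a π M) :
    ∀ w, dg π w + (if w = a then 1 else 0) + (if w = b then 1 else 0) =
      if w ∈ M then 2 else 0 := by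
  induction h with
  | nil h =>
    intro w
    rw [dg_empty]
    by_cases hw : w = b <;> simp [hw]
  | @cons a π M d hA h1 h2 ih =>
    obtain ⟨i1, i2, i3, i4⟩ := hA.mem
    intro w
    have hn : ed a d ∉ π := fun he => h1 (i4 _ he a (tch_ed a d))
    have hab : a ≠ b := fun hh => h1 (hh ▸ i2)
    have hna : nb a d ≠ a := nb_ne a d
    have ihw := ih w
    rw [dg_insert hn]
    simp only [tch_ed_iff, Finset.mem_insert]
    by_cases hwa : w = a
    · subst hwa
      simp only [hab, h1, hna.symm, if_false, if_true, true_or, add_zero] at ihw ⊢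
      omega
    · by_cases hwn : w = nb a d
      · subst hwn
        simp only [hwa, i1, if_true, if_false, false_or, or_true, add_zero] at ihw ⊢
        omega
      · simp only [hwa, hwn, if_true, if_false, false_or, or_false, add_zero] at ihw ⊢
        exact ihw

/-- the arc is connected -/
theorem Arc.linked {S : Finset V} {a b : V} {π : Finset Ed} {M : Finset V} (h : Arc S b a π M) :
    ∀ (ρ : Finset Ed), π ⊆ ρ → ∀ e ∈ ρ, Tch a e →
      (∀ e' ∈ π, Relation.ReflTransGen (Nx ρ) e e') ∧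
      ∃ e'' ∈ ρ, Tch b e'' ∧ Relation.ReflTransGen (Nx ρ) e e'' := by
  induction h with
  | nil h =>
    intro ρ _ e he ht
    exact ⟨by simp, e, he, ht, Relation.ReflTransGen.refl⟩
  | @cons a π M d hA h1 h2 ih =>
    intro ρ hρ e he ht
    have hd : ed a d ∈ ρ := hρ (Finset.mem_insert_self _ _)
    obtain ⟨j1, e'', j2, j3, j4⟩ := ih ρ (fun e he => hρ (Finset.mem_insert_of_mem he)) _ hd
      (tch_nb a d)
    have hN : Nx ρ e (ed a d) := ⟨he, hd, a, ht, tch_ed a d⟩
    refine ⟨?_, e'', j2, j3, Relation.ReflTransGen.head hN j4⟩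
    intro e' he'
    rcases Finset.mem_insert.1 he' with rfl | he'
    · exact Relation.ReflTransGen.single hN
    · exact Relation.ReflTransGen.head hN (j1 e' he')

/-- every vertex of an arc is the start of an arc -/
theorem Arc.sub {S : Finset V} {a b : V} {π : Finset Ed} {M : Finset V} (h : Arc S b a π M) :
    ∀ c ∈ M, ∃ π' M', Arc S b c π' M' := by
  induction h with
  | nil h =>
    intro c hc
    rw [Finset.mem_singleton] at hc
    rw [hc]
    exact ⟨_, _, Arc.nil h⟩
  | @cons a π M d hA h1 h2 ih =>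
    intro c hc
    rcases Finset.mem_insert.1 hc with rfl | hc
    · exact ⟨_, _, Arc.cons d hA h1 h2⟩
    · exact ih c hc

theorem exists_arc {S : Finset V} {a b : V} (hb : b ∉ S)
    (h : Relation.ReflTransGen (Stp S) a b) : ∃ π M, Arc S b a π M := by
  induction h using Relation.ReflTransGen.head_induction_on with
  | refl => exact ⟨_, _, Arc.nil hb⟩
  | @head a c hac _ ih =>
    obtain ⟨π, M, hA⟩ := ih
    obtain ⟨d, rfl⟩ := adj_iff_nb.1 hac.2.2
    by_cases ha : a ∈ M
    · exact hA.sub a ha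
    · exact ⟨_, _, Arc.cons d hA ha hac.1⟩

/-! ### boxes -/

theorem exists_L (T : Finset V) (π : Finset Ed) : ∃ L : ℕ, 1 ≤ L ∧
    (∀ w ∈ T, ∀ i, fa w i ∈ XX L) ∧ ∀ e ∈ π, s1 e ∈ XX L ∧ s2 e ∈ XX L := by
  classical
  -- all relevant faces
  let Fs : Finset Fc := (T.biUnion fun w => Finset.univ.image fun i => fa w i) ∪ π.image s1 ∪
    π.image s2
  obtain ⟨K, hK⟩ := (Fs.image fun f : Fc => f.1.natAbs + f.2.natAbs).exists_le
  have key : ∀ f ∈ Fs, f ∈ XX (K + 1) := by
    intro f hf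
    have := hK _ (Finset.mem_image_of_mem _ hf)
    rw [mem_XX]
    push_cast
    omega
  refine ⟨K + 1, by omega, ?_, ?_⟩
  · intro w hw i
    apply key
    simp only [Fs, Finset.mem_union, Finset.mem_biUnion, Finset.mem_image, Finset.mem_univ,
      true_and]
    exact Or.inl (Or.inl ⟨w, hw, i, rfl⟩)
  · intro e he
    constructor
    · apply key
      simp only [Fs, Finset.mem_union, Finset.mem_image]
      exact Or.inl (Or.inr ⟨e, he, rfl⟩)
    · apply key
      simp only [Fs, Finset.mem_union, Finset.mem_image]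
      exact Or.inr ⟨e, he, rfl⟩

/-- normalised weight of the paths in `S` from `(1, 0)` to `v` -/
def mE (n x : ℝ) (S : Finset V) (v : V) : ℝ :=
  ∑ l ∈ PF S.card S (1, 0) v, x ^ l.length * ZL n x (S \ l.toFinset) / ZL n x S

theorem QQ_mE {L : ℕ} {n x : ℝ} (hn : 1 ≤ n) (hx : 0 < x) {S : Finset V} {π : Finset Ed} {v : V}
    (h : Inv L S π (1, 0) v) :
    QQ L n x S π / QQ L n x S ∅ = n * x ^ π.card / x * mE n x S v := by
  have hZ : ZL n x S ≠ 0 := by
    have := TH508.ON.ZL_pos (by linarith : (0 : ℝ) ≤ n) hx.le S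
    positivity
  rw [growth L n x S.card S π _ _ le_rfl h, QQ_eq_ZL S.card S le_rfl h.boxT]
  unfold mE
  rw [Finset.mul_sum, Finset.sum_div]
  refine Finset.sum_congr rfl fun l hl => ?_
  obtain ⟨l', rfl⟩ := PF_head hl
  rw [QQ_eq_ZL S.card _ (Finset.card_le_card Finset.sdiff_subset)
    (fun w hw => h.boxT w (Finset.sdiff_subset hw))]
  have e : ((1, 0) :: l' : List V).length = ((1, 0) :: l' : List V).length - 1 + 1 := by simp
  rw [e, pow_succ, Nat.add_sub_cancel]
  have hx0 : x ≠ 0 := hx.ne'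
  have hn0 : n ≠ 0 := by linarith
  field_simp

theorem ed00 : ed ((0, 0) : V) .C = ed ((1, 0) : V) .C := by
  rw [ed_even (by norm_num), ed_oddC (by norm_num)]
  norm_num

/-- **Domain monotonicity.** -/
theorem mE_mono {n x : ℝ} (hn : 1 ≤ n) (hx : 0 < x) (hnx : n * x ^ 2 ≤ 1) {S S' : Finset V}
    (hsub : S ⊆ S') (hC : Cc S) (hC' : Cc S') (h1 : ((1, 0) : V) ∈ S) (h0 : ((0, 0) : V) ∉ S')
    {v z : V} (hv : v ∈ S) (hz : z ∉ S') (hvz : Adj v z)
    (hne : ¬ (v = (1, 0) ∧ z = (0, 0))) : mE n x S v ≤ mE n x S' v := by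
  classical
  obtain ⟨d, rfl⟩ := adj_iff_nb.1 hvz
  obtain ⟨π, M, hA⟩ := exists_arc h0 (hC' (nb v d) (0, 0) hz h0)
  obtain ⟨m1, m2, m3, m4⟩ := hA.mem
  have hdeg := hA.deg
  -- the two additional edges
  set es := ed ((0, 0) : V) .C with hes
  set ee := ed v d with hee
  have hvS' : v ∈ S' := hsub hv
  have h1S' : ((1, 0) : V) ∈ S' := hsub h1
  have hnb00 : nb ((0, 0) : V) .C = (1, 0) := by
    unfold nb
    norm_num
  have tes : ∀ w, Tch w es ↔ w = (0, 0) ∨ w = (1, 0) := by
    intro w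
    rw [hes, tch_ed_iff, hnb00]
  have tee : ∀ w, Tch w ee ↔ w = v ∨ w = nb v d := fun w => tch_ed_iff v w d
  have hee_n : ee ∉ π := fun he => m3 v (m4 _ he v ((tee v).2 (Or.inl rfl))) hvS'
  have hes_n : es ∉ insert ee π := by
    rw [Finset.mem_insert, not_or]
    constructor
    · intro he
      have t1 := (tes (1, 0)).2 (Or.inr rfl)
      have t2 := (tes (0, 0)).2 (Or.inl rfl)
      rw [he, tee] at t1 t2
      rcases t1 with t1 | t1
      · rcases t2 with t2 | t2
        · rw [← t2] at t1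
          simp at t1
        · exact hne ⟨t1.symm, t2.symm⟩
      · exact hz (t1 ▸ h1S')
    · intro he
      exact m3 (1, 0) (m4 _ he _ ((tes _).2 (Or.inr rfl))) h1S'
  set π0 := insert es (insert ee π) with hπ0
  obtain ⟨L, hL, hLT, hLπ⟩ := exists_L S' π0
  have hdg : ∀ w, dg π0 w = dg π w + (if Tch w ee then 1 else 0) + if Tch w es then 1 else 0 := by
    intro w
    rw [hπ0, dg_insert hes_n, dg_insert hee_n]
  have hInv : ∀ T : Finset V, S ⊆ T → T ⊆ S' → Inv L T π0 (1, 0) v := by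
    intro T hST hTS
    have h00T : ((0, 0) : V) ∉ T := fun h => h0 (hTS h)
    have hzT : nb v d ∉ T := fun h => hz (hTS h)
    refine ⟨hST h1, hST hv, ?_, ?_, ?_, ?_, hLπ, fun w hw => hLT w (hTS hw)⟩
    · intro w hw
      have hw1 : w ≠ (1, 0) := fun h => hw (h ▸ hST h1)
      have hwv : w ≠ v := fun h => hw (h ▸ hST hv)
      have := hdeg w
      rw [hdg w]
      simp only [tes, tee, hw1, hwv, or_false, false_or]
      split_ifs at this ⊢ <;> omega
    · intro w hw
      have hwM : w ∉ M := fun h => m3 w h (hTS hw)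
      have hw0 : w ≠ (0, 0) := fun h => h00T (h ▸ hw)
      have hwz : w ≠ nb v d := fun h => hzT (h ▸ hw)
      have := hdeg w
      rw [hdg w]
      simp only [tes, tee, hw0, hwz, hwM, or_false, false_or, if_false, add_zero] at this ⊢
      rw [this]
      omega
    · intro e he hE
      rw [hπ0, Finset.mem_insert, Finset.mem_insert] at he
      rw [ein_iff] at hE
      rcases he with rfl | rfl | he
      · exact h00T (hE _ ((tes _).2 (Or.inl rfl)))
      · exact hzT (hE _ ((tee _).2 (Or.inr rfl)))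
      · have := m4 e he (p0 e) (Or.inl rfl)
        exact m3 _ this (hTS (hE _ (Or.inl rfl)))
    · obtain ⟨l1, e'', l2, l3, l4⟩ := hA.linked π0
        (fun e he => Finset.mem_insert_of_mem (Finset.mem_insert_of_mem he)) ee
        (Finset.mem_insert_of_mem (Finset.mem_insert_self _ _)) ((tee _).2 (Or.inr rfl))
      refine ⟨ee, Finset.mem_insert_of_mem (Finset.mem_insert_self _ _), ?_⟩
      intro e he
      rw [hπ0, Finset.mem_insert, Finset.mem_insert] at he
      rcases he with rfl | rfl | he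
      · exact l4.tail ⟨l2, Finset.mem_insert_self _ _, (0, 0), l3, (tes _).2 (Or.inl rfl)⟩
      · exact Relation.ReflTransGen.refl
      · exact l1 e he
  have i1 := hInv S (le_refl _) hsub
  have i2 := hInv S' hsub (le_refl _)
  have hch := fkg_chain hL hn hx hnx hC (π := π0) (S' \ S).card S' le_rfl hsub hC' hLT i2.ne ?_
  · rw [QQ_mE hn hx i1, QQ_mE hn hx i2] at hch
    refine le_of_mul_le_mul_left hch ?_
    have hn0 : 0 < n := by linarith
    positivity
  · intro w hw hwS
    rw [i2.inn w hw]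
    have e1 : w ≠ (1, 0) := fun h => hwS (h ▸ h1)
    have e2 : w ≠ v := fun h => hwS (h ▸ hv)
    simp [e1, e2]

end Pool.Agent.H97.ON
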