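import Pool.Agent.H97.ON.Grow
import Pool.Graph.R_pool_sql_team_seeded_ab47071d.TH508.ON.LC

set_option autoImplicit false
set_option linter.unusedSimpArgs false

/-!
The partition function of the loops is (up to the factor `2 n`) the total weight of the colourings.
-/

noncomputable section

namespace Pool.Agent.H97.ON

open H978R2.Hex Module
open Pool.Agent.X136.ON (Dir Ed Vx s1 s2 ch par ray bd mem_bd ea eb ec ch_iff ch_false ray_edge
  ray_right exists_right)
open TH508.ON (IsLoop verts loops ZL loopsAt CL loopOf)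

/-! ### the empty set -/

theorem dd_empty_iff {L : ℕ} {σ : Finset (VV L)} : dd L σ = ∅ ↔ σ = ∅ ∨ σ = Finset.univ := by
  classical
  constructor
  · intro h
    let g : VV L → ℚ := fun v => if v ∈ σ then 1 else 0
    have hg : ∀ e, g (aa L e) = g (bb L e) := by
      intro e
      have h1 : e ∉ dd L σ := by rw [h]; exact Finset.notMem_empty _
      rw [mem_dd, not_not] at h1
      simp only [g, h1]
    have hc := const_of_all hg
    by_cases h0 : (none : VV L) ∈ σ
    · right
      rw [Finset.eq_univ_iff_forall]
      intro v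
      have := hc v
      simp only [g, h0, if_true] at this
      by_contra hv
      rw [if_neg hv] at this
      norm_num at this
    · left
      rw [Finset.eq_empty_iff_forall_notMem]
      intro v hv
      have := hc v
      simp only [g, h0, if_false] at this
      rw [if_pos hv] at this
      norm_num at this
  · rintro (rfl | rfl)
    · rw [Finset.eq_empty_iff_forall_notMem]
      intro e he
      rw [mem_dd] at he
      simp at he
    · rw [Finset.eq_empty_iff_forall_notMem]
      intro e he
      rw [mem_dd] at he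
      simp at he

theorem KK_const {L : ℕ} {σ : Finset (VV L)} (h : dd L σ = ∅) : KK (aa L) (bb L) σ = 1 := by
  unfold KK kap
  have e : HH (aa L) (bb L) (fun i => aa L i ∈ σ ↔ bb L i ∈ σ) =
      Submodule.span ℚ {(fun _ => 1 : VV L → ℚ)} := by
    ext f
    rw [mem_HH, Submodule.mem_span_singleton]
    constructor
    · intro hf
      have hall : ∀ e, f (aa L e) = f (bb L e) := by
        intro e
        apply hf
        have h1 : e ∉ dd L σ := by rw [h]; exact Finset.notMem_empty _
        rw [mem_dd, not_not] at h1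
        exact h1
      refine ⟨f none, ?_⟩
      funext v
      simp only [Pi.smul_apply, smul_eq_mul, mul_one]
      exact (const_of_all hall v).symm
    · rintro ⟨c, rfl⟩ i _
      rfl
  rw [e, finrank_span_singleton]
  intro h1
  have := congrFun h1 none
  simp at this

theorem Cfg_empty (L : ℕ) : Cfg L ∅ ∅ = {∅, Finset.univ} := by
  classical
  ext σ
  rw [mem_Cfg, Finset.mem_insert, Finset.mem_singleton, ← dd_empty_iff]
  constructor
  · rintro ⟨_, h⟩
    rw [Finset.eq_empty_iff_forall_notMem]
    intro e he
    have := (h e he (Finset.notMem_empty _)).1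
    simp at this
  · intro h
    rw [h]
    exact ⟨Finset.empty_subset _, fun e he => absurd he (Finset.notMem_empty _)⟩

theorem QQ_empty (L : ℕ) (n x : ℝ) : QQ L n x ∅ ∅ = 2 * n := by
  unfold QQ
  rw [Cfg_empty, Finset.sum_pair]
  · rw [wg_eq, wg_eq, dd_empty_iff.2 (Or.inl rfl), dd_empty_iff.2 (Or.inr rfl),
      KK_const (dd_empty_iff.2 (Or.inl rfl)), KK_const (dd_empty_iff.2 (Or.inr rfl))]
    simp
    ring
  · intro h
    have : (none : VV L) ∈ (∅ : Finset (VV L)) := by rw [h]; exact Finset.mem_univ _
    simp at this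

/-! ### removing a vertex -/

/-- the three pairs of directions -/
def prs : Finset (Dir × Dir) := {(.A, .B), (.A, .C), (.B, .C)}

theorem mem_prs {d d' : Dir} (h : d ≠ d') : (d, d') ∈ prs ∨ (d', d) ∈ prs := by
  unfold prs
  cases d <;> cases d' <;> simp_all

theorem ne_of_prs {p : Dir × Dir} (h : p ∈ prs) : p.1 ≠ p.2 := by
  unfold prs at h
  simp only [Finset.mem_insert, Finset.mem_singleton] at h
  rcases h with rfl | rfl | rfl <;> simp

theorem dg_pair {z : V} {d d' : Dir} (h : d ≠ d') (w : V) :
    dg {ed z d, ed z d'} w = (if Tch w (ed z d') then 1 else 0) + if Tch w (ed z d) then 1 else 0 := by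
  rw [dg_insert, ← insert_empty_eq (ed z d'), dg_insert (Finset.notMem_empty _), dg_empty, zero_add]
  rw [Finset.mem_singleton]
  exact fun hh => h (ed_inj z hh)

theorem inv_pair {L : ℕ} {S : Finset V} {z : V} (hz : z ∈ S) (hbox : ∀ w ∈ S, ∀ i, fa w i ∈ XX L)
    {d d' : Dir} (h : d ≠ d') (h1 : nb z d ∈ S) (h2 : nb z d' ∈ S) :
    Inv L (S.erase z) {ed z d, ed z d'} (nb z d) (nb z d') := by
  have hne : nb z d ≠ nb z d' := fun hh => h (nb_inj hh)
  refine ⟨Finset.mem_erase.2 ⟨nb_ne z d, h1⟩, Finset.mem_erase.2 ⟨nb_ne z d', h2⟩, ?_, ?_, ?_, ?_,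
    ?_, ?_⟩
  · intro w hw
    rw [dg_pair h]
    by_cases hwz : w = z
    · rw [hwz]
      right
      rw [if_pos (tch_ed z d), if_pos (tch_ed z d')]
    · have hwS : w ∉ S := fun hh => hw (Finset.mem_erase.2 ⟨hwz, hh⟩)
      left
      have n1 : ¬ Tch w (ed z d) := by
        rw [tch_ed_iff]
        rintro (hh | hh)
        · exact hwz hh
        · exact hwS (hh ▸ h1)
      have n2 : ¬ Tch w (ed z d') := by
        rw [tch_ed_iff]
        rintro (hh | hh)
        · exact hwz hh
        · exact hwS (hh ▸ h2)
      rw [if_neg n1, if_neg n2]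
  · intro w hw
    obtain ⟨hwz, _⟩ := Finset.mem_erase.1 hw
    rw [dg_pair h, add_comm]
    have e1 : Tch w (ed z d) ↔ w = nb z d := by
      rw [tch_ed_iff]
      exact ⟨fun hh => hh.resolve_left hwz, Or.inr⟩
    have e2 : Tch w (ed z d') ↔ w = nb z d' := by
      rw [tch_ed_iff]
      exact ⟨fun hh => hh.resolve_left hwz, Or.inr⟩
    simp only [e1, e2]
  · intro e he hE
    rw [Finset.mem_insert, Finset.mem_singleton] at he
    rcases he with rfl | rfl
    · have := (ein_ed.1 hE).1
      simp at this
    · have := (ein_ed.1 hE).1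
      simp at this
  · refine ⟨ed z d, by simp, ?_⟩
    intro e he
    rw [Finset.mem_insert, Finset.mem_singleton] at he
    rcases he with rfl | rfl
    · exact Relation.ReflTransGen.refl
    · exact Relation.ReflTransGen.single ⟨by simp, by simp, z, tch_ed z d, tch_ed z d'⟩
  · intro e he
    rw [Finset.mem_insert, Finset.mem_singleton] at he
    rcases he with rfl | rfl
    · exact sep_box (hbox z hz) d
    · exact sep_box (hbox z hz) d'
  · intro w hw
    exact hbox w (Finset.mem_of_mem_erase hw)

theorem QQ_rec {L : ℕ} {S : Finset V} {z : V} (hz : z ∈ S) (n x : ℝ) :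
    QQ L n x S ∅ = QQ L n x (S.erase z) ∅ +
      ∑ p ∈ prs, if nb z p.1 ∈ S ∧ nb z p.2 ∈ S then
        QQ L n x (S.erase z) {ed z p.1, ed z p.2} else 0 := by
  classical
  have hset : Cfg L S ∅ = Cfg L (S.erase z) ∅ ∪
      (prs.filter fun p => nb z p.1 ∈ S ∧ nb z p.2 ∈ S).biUnion
        fun p => Cfg L (S.erase z) {ed z p.1, ed z p.2} := by
    ext σ
    rw [Finset.mem_union, Finset.mem_biUnion]
    constructor
    · intro hσ
      rw [mem_Cfg] at hσ
      obtain ⟨-, h2⟩ := hσ
      rcases dg_dd L σ z with h0 | h0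
      · left
        rw [mem_Cfg]
        refine ⟨Finset.empty_subset _, fun e he hn => ein_erase (h2 e he hn) ?_⟩
        intro ht
        obtain ⟨d, rfl⟩ := tch_iff.1 ht
        exact dg_zero h0 d he
      · right
        obtain ⟨d, d', hdd, m1, m2⟩ : ∃ d d', d ≠ d' ∧ ed z d ∈ dd L σ ∧ ed z d' ∈ dd L σ := by
          unfold dg at h0
          by_cases a : ed z .A ∈ dd L σ
          · by_cases b : ed z .B ∈ dd L σ
            · exact ⟨.A, .B, by simp, a, b⟩
            · by_cases c : ed z .C ∈ dd L σ
              · exact ⟨.A, .C, by simp, a, c⟩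
              · simp [a, b, c] at h0
          · by_cases b : ed z .B ∈ dd L σ
            · by_cases c : ed z .C ∈ dd L σ
              · exact ⟨.B, .C, by simp, b, c⟩
              · simp [a, b, c] at h0
            · by_cases c : ed z .C ∈ dd L σ <;> simp [a, b, c] at h0
        have key : ∀ d d' : Dir, d ≠ d' → ed z d ∈ dd L σ → ed z d' ∈ dd L σ → (d, d') ∈ prs →
            ∃ a ∈ prs.filter fun p => nb z p.1 ∈ S ∧ nb z p.2 ∈ S,
              σ ∈ Cfg L (S.erase z) {ed z a.1, ed z a.2} := by
          intro d d' hdd m1 m2 hp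
          have e1 := (ein_ed.1 (h2 _ m1 (Finset.notMem_empty _))).2
          have e2 := (ein_ed.1 (h2 _ m2 (Finset.notMem_empty _))).2
          refine ⟨(d, d'), Finset.mem_filter.2 ⟨hp, e1, e2⟩, ?_⟩
          rw [mem_Cfg]
          refine ⟨?_, ?_⟩
          · intro e he
            rw [Finset.mem_insert, Finset.mem_singleton] at he
            rcases he with rfl | rfl
            · exact m1
            · exact m2
          · intro e he hn
            rw [Finset.mem_insert, Finset.mem_singleton, not_or] at hn
            refine ein_erase (h2 e he (Finset.notMem_empty _)) ?_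
            intro ht
            obtain ⟨d'', rfl⟩ := tch_iff.1 ht
            have n1 : d'' ≠ d := fun hh => hn.1 (by rw [hh])
            have n2 : d'' ≠ d' := fun hh => hn.2 (by rw [hh])
            unfold dg at h0
            cases d <;> cases d' <;> cases d'' <;> simp_all
        rcases mem_prs hdd with hp | hp
        · exact key d d' hdd m1 m2 hp
        · exact key d' d hdd.symm m2 m1 hp
    · rintro (hσ | ⟨p, hp, hσ⟩)
      · rw [mem_Cfg] at hσ ⊢
        exact ⟨hσ.1, fun e he hn => (hσ.2 e he hn).mono (Finset.erase_subset _ _)⟩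
      · rw [Finset.mem_filter] at hp
        rw [mem_Cfg] at hσ ⊢
        refine ⟨Finset.empty_subset _, ?_⟩
        intro e he _
        by_cases h1 : e ∈ ({ed z p.1, ed z p.2} : Finset Ed)
        · rw [Finset.mem_insert, Finset.mem_singleton] at h1
          rcases h1 with rfl | rfl
          · exact ein_ed.2 ⟨hz, hp.2.1⟩
          · exact ein_ed.2 ⟨hz, hp.2.2⟩
        · exact (hσ.2 e he h1).mono (Finset.erase_subset _ _)
  unfold QQ
  rw [hset, Finset.sum_union, Finset.sum_biUnion, Finset.sum_filter]
  · intro p hp p' hp' hpp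
    simp only [Function.onFun]
    rw [Finset.mem_coe, Finset.mem_filter] at hp hp'
    rw [Finset.disjoint_left]
    intro σ h1 h2
    rw [mem_Cfg] at h1 h2
    have m1 : ed z p.1 ∈ dd L σ := h1.1 (by simp)
    have m2 : ed z p.2 ∈ dd L σ := h1.1 (by simp)
    have m3 : ed z p'.1 ∈ dd L σ := h2.1 (by simp)
    have m4 : ed z p'.2 ∈ dd L σ := h2.1 (by simp)
    have hd2 := dg_dd L σ z
    have q1 := hp.1
    have q2 := hp'.1
    unfold dg at hd2
    unfold prs at q1 q2
    simp only [Finset.mem_insert, Finset.mem_singleton] at q1 q2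
    rcases q1 with rfl | rfl | rfl <;> rcases q2 with rfl | rfl | rfl <;>
      simp only [ne_eq, not_true] at hpp <;> simp [m1, m2, m3, m4] at hd2
  · rw [Finset.disjoint_left]
    intro σ h1 h2
    rw [Finset.mem_biUnion] at h2
    obtain ⟨p, _, h2⟩ := h2
    rw [mem_Cfg] at h1 h2
    have m1 : ed z p.1 ∈ dd L σ := h2.1 (by simp)
    have := (ein_ed.1 (h1.2 _ m1 (Finset.notMem_empty _))).1
    simp at this

/-! ### closed lists -/

/-- the closed lists through `z` in `S` -/
def CLs (S : Finset V) (z : V) : Finset (List V) :=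
  dirs.biUnion fun d => (dirs.erase d).biUnion fun d' =>
    PF S.card (S.erase z) (nb z d) (nb z d')

theorem adj_sym {v w : V} (h : Adj v w) : Adj w v := adj_symm' h

theorem chain_sym {l : List V} : l.IsChain (fun x y => Adj y x) ↔ l.IsChain Adj :=
  ⟨fun h => h.imp (fun _ _ h => adj_sym h), fun h => h.imp (fun _ _ h => adj_sym h)⟩

theorem mem_CLs {S : Finset V} {z : V} (hz : z ∈ S) {A : List V} :
    A ∈ CLs S z ↔ CL z A ∧ ∀ w ∈ A, w ∈ S := by
  unfold CLs
  rw [Finset.mem_biUnion]
  constructor
  · rintro ⟨d, _, h⟩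
    rw [Finset.mem_biUnion] at h
    obtain ⟨d', hd', h⟩ := h
    rw [Finset.mem_erase] at hd'
    rw [mem_PF] at h
    obtain ⟨h1, h2, h3, h4, h5, h6⟩ := h
    have hzA : z ∉ A := fun hh => by
      have := h5 z hh
      simp at this
    refine ⟨⟨?_, ?_, ?_⟩, fun w hw => Finset.mem_of_mem_erase (h5 w hw)⟩
    · match A, h2, h3 with
      | [], h2, _ => simp at h2
      | [w], h2, h3 =>
        exfalso
        simp only [List.head?_cons, Option.some.injEq] at h2
        simp only [List.getLast?_singleton, Option.some.injEq] at h3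
        exact hd'.1 (nb_inj (h3.symm.trans h2))
      | _ :: _ :: _, _, _ => simp
    · exact List.nodup_cons.2 ⟨hzA, h4⟩
    · rw [chain_sym]
      obtain ⟨a, A', rfl⟩ : ∃ a A', A = a :: A' := by
        cases A with
        | nil => simp at h2
        | cons a A' => exact ⟨a, A', rfl⟩
      simp only [List.head?_cons, Option.some.injEq] at h2
      rw [List.cons_append, List.isChain_cons_cons]
      refine ⟨adj_iff_nb.2 ⟨d, h2⟩, ?_⟩
      rw [← List.cons_append, List.isChain_append]
      refine ⟨h6, by simp, ?_⟩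
      intro x hx y hy
      rw [h3] at hx
      simp only [Option.mem_def, Option.some.injEq, List.head?_cons] at hx hy
      rw [← hx, ← hy]
      exact adj_sym (adj_iff_nb.2 ⟨d', rfl⟩)
  · rintro ⟨⟨h1, h2, h3⟩, h4⟩
    rw [chain_sym] at h3
    obtain ⟨a, A', rfl⟩ : ∃ a A', A = a :: A' := by
      cases A with
      | nil => simp at h1
      | cons a A' => exact ⟨a, A', rfl⟩
    rw [List.cons_append, List.isChain_cons_cons] at h3
    obtain ⟨h5, h6⟩ := h3
    rw [← List.cons_append, List.isChain_append] at h6
    obtain ⟨h6, _, h7⟩ := h6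
    have hne : (a :: A') ≠ [] := by simp
    obtain ⟨y, hy⟩ : ∃ y, (a :: A').getLast? = some y := by
      rw [List.getLast?_eq_getLast_of_ne_nil hne]
      exact ⟨_, rfl⟩
    have h8 := h7 y (by rw [hy]; rfl) z (by simp)
    obtain ⟨d, hd⟩ := adj_iff_nb.1 h5
    obtain ⟨d', hd'⟩ := adj_iff_nb.1 (adj_sym h8)
    rw [List.nodup_cons] at h2
    refine ⟨d, mem_dirs d, ?_⟩
    rw [Finset.mem_biUnion]
    refine ⟨d', Finset.mem_erase.2 ⟨?_, mem_dirs d'⟩, ?_⟩
    · intro hh
      subst hh
      have hay : a = y := hd.trans hd'.symm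
      have h9 : A' ≠ [] := by
        rintro rfl
        simp at h1
      rw [List.getLast?_cons] at hy
      have h10 : y ∈ A' := by
        rw [List.getLast?_eq_getLast_of_ne_nil h9] at hy
        simp only [Option.getD_some, Option.some.injEq] at hy
        rw [← hy]
        exact List.getLast_mem h9
      exact (List.nodup_cons.1 h2.2).1 (hay ▸ h10)
    · rw [mem_PF]
      refine ⟨?_, by rw [hd]; rfl, by rw [hy, hd'], h2.2, ?_, h6⟩
      · have hsub : (a :: A').toFinset ⊆ S := by
          intro w hw
          exact h4 w (List.mem_toFinset.1 hw)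
        have := Finset.card_le_card hsub
        rwa [List.toFinset_card_of_nodup h2.2] at this
      · intro w hw
        rw [Finset.mem_erase]
        exact ⟨fun hh => h2.1 (hh ▸ hw), h4 w hw⟩

theorem sum_CLs {S : Finset V} {z : V} (F : List V → ℝ) :
    ∑ A ∈ CLs S z, F A = ∑ d ∈ dirs, ∑ d' ∈ dirs.erase d,
      ∑ A ∈ PF S.card (S.erase z) (nb z d) (nb z d'), F A := by
  unfold CLs
  rw [Finset.sum_biUnion]
  · refine Finset.sum_congr rfl fun d _ => ?_
    rw [Finset.sum_biUnion]
    intro d' _ d'' _ hdd
    simp only [Function.onFun]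
    rw [Finset.disjoint_left]
    intro A h1 h2
    rw [mem_PF] at h1 h2
    have := h1.2.2.1.symm.trans h2.2.2.1
    exact hdd (nb_inj (Option.some.inj this))
  · intro d _ d' _ hdd
    simp only [Function.onFun]
    rw [Finset.disjoint_left]
    intro A h1 h2
    rw [Finset.mem_biUnion] at h1 h2
    obtain ⟨_, _, h1⟩ := h1
    obtain ⟨_, _, h2⟩ := h2
    rw [mem_PF] at h1 h2
    have := h1.2.1.symm.trans h2.2.1
    exact hdd (nb_inj (Option.some.inj this))

/-- every loop through `z` has two closed lists -/
theorem sum_two {S : Finset V} {z : V} (hz : z ∈ S) (G : Finset (Sym2 V) → ℝ) :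
    ∑ A ∈ CLs S z, G (loopOf z A) = 2 * ∑ c ∈ loopsAt S z, G c := by
  classical
  have hmaps : ∀ A ∈ CLs S z, loopOf z A ∈ loopsAt S z := by
    intro A hA
    rw [mem_CLs hz] at hA
    unfold loopsAt
    rw [Finset.mem_filter, TH508.ON.mem_loops]
    refine ⟨⟨?_, ?_⟩, ?_⟩
    · intro v hv
      rw [TH508.ON.verts_loopOf hA.1] at hv
      rcases List.mem_cons.1 hv with rfl | hv
      · exact hz
      · exact hA.2 v hv
    · exact (TH508.ON.cyc_list hA.1).isLoop
    · rw [TH508.ON.verts_loopOf hA.1]
      exact List.mem_cons_self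
  rw [← Finset.sum_fiberwise_of_maps_to hmaps, Finset.mul_sum]
  refine Finset.sum_congr rfl fun c hc => ?_
  unfold loopsAt at hc
  rw [Finset.mem_filter, TH508.ON.mem_loops] at hc
  obtain ⟨⟨h1, h2⟩, h3⟩ := hc
  obtain ⟨A, hA, rfl⟩ := TH508.ON.exists_list h2 h3
  have hAS : ∀ w ∈ A, w ∈ S := fun w hw => h1 ((TH508.ON.verts_loopOf hA w).2
    (List.mem_cons_of_mem _ hw))
  have hf : (CLs S z).filter (fun A' => loopOf z A' = loopOf z A) = {A, A.reverse} := by
    ext A'
    rw [Finset.mem_filter, Finset.mem_insert, Finset.mem_singleton, mem_CLs hz]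
    constructor
    · rintro ⟨⟨h4, _⟩, h5⟩
      exact TH508.ON.two_lists hA h4 h5.symm
    · rintro (rfl | rfl)
      · exact ⟨⟨hA, hAS⟩, rfl⟩
      · exact ⟨⟨hA.rev, fun w hw => hAS w (List.mem_reverse.1 hw)⟩, TH508.ON.loopOf_rev hA⟩
  rw [hf, Finset.sum_pair hA.ne_rev, TH508.ON.loopOf_rev hA]
  ring

/-- **partition functions** -/
theorem QQ_eq_ZL {L : ℕ} {n x : ℝ} : ∀ (m : ℕ) (S : Finset V), S.card ≤ m →
    (∀ w ∈ S, ∀ i, fa w i ∈ XX L) → QQ L n x S ∅ = 2 * n * ZL n x S := by
  intro m
  induction m with
  | zero =>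
    intro S hS _
    have : S = ∅ := Finset.card_eq_zero.1 (by omega)
    subst this
    rw [QQ_empty]
    have e : ZL n x ∅ = 1 := by
      unfold ZL TH508.ON.gasZ
      have h1 : loops (∅ : Finset V) = ∅ := by
        rw [Finset.eq_empty_iff_forall_notMem]
        intro c hc
        rw [TH508.ON.mem_loops] at hc
        obtain ⟨h1, h2⟩ := hc
        obtain ⟨k, f, hf, rfl⟩ := TH508.ON.isLoop_iff.1 h2
        have := h1 ((hf.mem_verts (f 0)).2 ⟨0, rfl⟩)
        simp at this
      have h2 : TH508.ON.fam (∅ : Finset (Finset (Sym2 V))) verts = {∅} := by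
        ext X
        rw [TH508.ON.mem_fam, Finset.mem_singleton]
        constructor
        · exact fun h => Finset.subset_empty.1 h.1
        · rintro rfl
          exact ⟨le_refl _, by simp⟩
      rw [h1, h2]
      simp
    rw [e, mul_one]
  | succ m ih =>
    intro S hS hbox
    rcases S.eq_empty_or_nonempty with h0 | ⟨z, hz⟩
    · subst h0
      exact ih ∅ (by simp) hbox
    · have hce : (S.erase z).card ≤ m := by
        rw [Finset.card_erase_of_mem hz]
        omega
      have hbe : ∀ w ∈ S.erase z, ∀ i, fa w i ∈ XX L := fun w hw =>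
        hbox w (Finset.mem_of_mem_erase hw)
      rw [QQ_rec hz, TH508.ON.ZL_rec n x S z, ih _ hce hbe, mul_add]
      congr 1
      -- the three pairs
      set R : Dir → Dir → ℝ := fun d d' =>
        ∑ A ∈ PF S.card (S.erase z) (nb z d) (nb z d'),
          n * x ^ 2 * x ^ (A.length - 1) * QQ L n x ((S.erase z) \ A.toFinset) ∅ with hR
      have hval : ∀ d d', d ≠ d' → (if nb z d ∈ S ∧ nb z d' ∈ S then
          QQ L n x (S.erase z) {ed z d, ed z d'} else 0) = R d d' := by
        intro d d' hdd
        split_ifs with h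
        · have hc2 : (S.erase z).card ≤ S.card := Finset.card_le_card (Finset.erase_subset _ _)
          rw [growth L n x S.card _ _ _ _ hc2 (inv_pair hz hbox hdd h.1 h.2)]
          have hcard : ({ed z d, ed z d'} : Finset Ed).card = 2 := by
            rw [Finset.card_pair]
            exact fun hh => hdd (ed_inj z hh)
          rw [hcard]
        · symm
          apply Finset.sum_eq_zero
          intro A hA
          exfalso
          rw [mem_PF] at hA
          apply h
          constructor
          · exact Finset.mem_of_mem_erase (hA.2.2.2.2.1 _ (List.mem_of_mem_head? hA.2.1))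
          · exact Finset.mem_of_mem_erase (hA.2.2.2.2.1 _ (List.mem_of_getLast? hA.2.2.1))
      have hval2 : ∀ d d', d ≠ d' → R d d' = R d' d := by
        intro d d' hdd
        rw [← hval d d' hdd, ← hval d' d hdd.symm, Finset.pair_comm]
        simp only [and_comm]
      have hsum1 : ∑ p ∈ prs, (if nb z p.1 ∈ S ∧ nb z p.2 ∈ S then
          QQ L n x (S.erase z) {ed z p.1, ed z p.2} else 0) = R .A .B + R .A .C + R .B .C := by
        rw [Finset.sum_congr rfl (fun p hp => hval p.1 p.2 (ne_of_prs hp))]
        unfold prs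
        rw [Finset.sum_insert (by simp), Finset.sum_insert (by simp), Finset.sum_singleton,
          add_assoc]
      have hsum2 : ∑ d ∈ dirs, ∑ d' ∈ dirs.erase d, R d d' = 2 * (R .A .B + R .A .C + R .B .C) := by
        have e1 : dirs.erase .A = {.B, .C} := by decide
        have e2 : dirs.erase .B = {.A, .C} := by decide
        have e3 : dirs.erase .C = {.A, .B} := by decide
        unfold dirs
        rw [Finset.sum_insert (by simp), Finset.sum_insert (by simp), Finset.sum_singleton]
        change ∑ d' ∈ dirs.erase .A, R .A d' + (∑ d' ∈ dirs.erase .B, R .B d' +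
          ∑ d' ∈ dirs.erase .C, R .C d') = _
        rw [e1, e2, e3, Finset.sum_pair (by simp), Finset.sum_pair (by simp),
          Finset.sum_pair (by simp), hval2 .B .A (by simp), hval2 .C .A (by simp),
          hval2 .C .B (by simp)]
        ring
      rw [hsum1]
      have hG : ∀ A ∈ CLs S z, n * x ^ 2 * x ^ (A.length - 1) *
          QQ L n x ((S.erase z) \ A.toFinset) ∅ =
          (fun c : Finset (Sym2 V) => n * x ^ c.card * (2 * n * ZL n x (S \ verts c)))
            (loopOf z A) := by
        intro A hA
        rw [mem_CLs hz] at hA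
        have hset : (S.erase z) \ A.toFinset = S \ verts (loopOf z A) := by
          ext w
          rw [Finset.mem_sdiff, Finset.mem_sdiff, Finset.mem_erase,
            TH508.ON.verts_loopOf hA.1, List.mem_toFinset, List.mem_cons]
          tauto
        simp only
        rw [TH508.ON.card_loopOf hA.1, ← hset, ih]
        · have h2 := hA.1.h2
          have e1 : A.length + 1 = 2 + (A.length - 1) := by omega
          rw [e1, pow_add]
          ring
        · exact (Finset.card_le_card Finset.sdiff_subset).trans hce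
        · intro w hw
          exact hbe w (Finset.sdiff_subset hw)
      have h5 := sum_CLs (S := S) (z := z) (fun A => n * x ^ 2 * x ^ (A.length - 1) *
          QQ L n x ((S.erase z) \ A.toFinset) ∅)
      change _ = ∑ d ∈ dirs, ∑ d' ∈ dirs.erase d, R d d' at h5
      have h7 := sum_two hz (fun c : Finset (Sym2 V) => n * x ^ c.card *
        (2 * n * ZL n x (S \ verts c)))
      rw [hsum2, Finset.sum_congr rfl hG, h7] at h5
      have h6 : ∑ c ∈ loopsAt S z, n * x ^ c.card * (2 * n * ZL n x (S \ verts c)) =
          R .A .B + R .A .C + R .B .C := by linarith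
      rw [← h6, Finset.mul_sum]
      refine Finset.sum_congr rfl fun c _ => ?_
      ring

end Pool.Agent.H97.ON
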