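import Pool.Agent.H97.ON.Mono

set_option autoImplicit false
set_option linter.unusedSimpArgs false

/-!
The complement of a finite set of vertices all of whose rows are intervals is connected.
-/

noncomputable section

namespace Pool.Agent.H97.ON

open H978R2.Hex

/-- the set is free to the right of `v` -/
def FR (S : Finset V) (v : V) : Prop := ∀ x, v.1 ≤ x → ((x, v.2) : V) ∉ S

/-- the set is free to the left of `v` -/
def FL (S : Finset V) (v : V) : Prop := ∀ x, x ≤ v.1 → ((x, v.2) : V) ∉ S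

theorem adj_right (x y : ℤ) : Adj (x, y) (x + 1, y) := by
  unfold Adj
  left
  simp

theorem adj_up {x y : ℤ} (h : (x + y) % 2 = 0) : Adj (x, y) (x, y + 1) := by
  unfold Adj
  right; right; left
  refine ⟨by simp, ?_⟩
  exact Int.even_iff.2 h

theorem row_right {S : Finset V} {x y : ℤ} : ∀ m : ℕ, (∀ k : ℕ, k ≤ m → ((x + k, y) : V) ∉ S) →
    Relation.ReflTransGen (Stp S) (x, y) (x + m, y) := by
  intro m
  induction m with
  | zero => intro _; simp; exact Relation.ReflTransGen.refl
  | succ m ih =>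
    intro h
    refine (ih fun k hk => h k (by omega)).tail ⟨h m (by omega), ?_, ?_⟩
    · exact h (m + 1) le_rfl
    · have := adj_right (x + m) y
      push_cast
      rwa [← add_assoc]

theorem row_rtg {S : Finset V} {x x' y : ℤ} (hx : x ≤ x')
    (h : ∀ t, x ≤ t → t ≤ x' → ((t, y) : V) ∉ S) :
    Relation.ReflTransGen (Stp S) (x, y) (x', y) := by
  have := row_right (S := S) (x := x) (y := y) (x' - x).toNat (fun k hk => h _ (by omega) (by omega))
  have e : x + ((x' - x).toNat : ℤ) = x' := by omega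
  rwa [e] at this

/-- the column to the right: going up -/
theorem up_right {S : Finset V} {K : ℤ} (hK : ∀ x y : ℤ, K ≤ x → ((x, y) : V) ∉ S) :
    ∀ (m : ℕ) (x y : ℤ), K ≤ x → ∃ x', K ≤ x' ∧
      Relation.ReflTransGen (Stp S) (x, y) (x', y + m) := by
  intro m
  induction m with
  | zero => intro x y hx; exact ⟨x, hx, by simp; exact Relation.ReflTransGen.refl⟩
  | succ m ih =>
    intro x y hx
    obtain ⟨x1, h1, h2⟩ := ih x y hx
    by_cases hp : (x1 + (y + m)) % 2 = 0
    · refine ⟨x1, h1, h2.tail ⟨hK _ _ h1, hK _ _ h1, ?_⟩⟩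
      have := adj_up hp
      push_cast
      rwa [← add_assoc]
    · refine ⟨x1 + 1, by omega, (h2.tail ⟨hK _ _ h1, hK _ _ (by omega), adj_right _ _⟩).tail
        ⟨hK _ _ (by omega), hK _ _ (by omega), ?_⟩⟩
      have := adj_up (x := x1 + 1) (y := y + m) (by omega)
      push_cast
      rwa [← add_assoc]

theorem up_left {S : Finset V} {K : ℤ} (hK : ∀ x y : ℤ, x ≤ K → ((x, y) : V) ∉ S) :
    ∀ (m : ℕ) (x y : ℤ), x ≤ K → ∃ x', x' ≤ K ∧
      Relation.ReflTransGen (Stp S) (x, y) (x', y + m) := by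
  intro m
  induction m with
  | zero => intro x y hx; exact ⟨x, hx, by simp; exact Relation.ReflTransGen.refl⟩
  | succ m ih =>
    intro x y hx
    obtain ⟨x1, h1, h2⟩ := ih x y hx
    by_cases hp : (x1 + (y + m)) % 2 = 0
    · refine ⟨x1, h1, h2.tail ⟨hK _ _ h1, hK _ _ h1, ?_⟩⟩
      have := adj_up hp
      push_cast
      rwa [← add_assoc]
    · have a1 : Adj (x1, y + m) (x1 - 1, y + m) := by
        have := adj_sym (adj_right (x1 - 1) (y + m))
        rwa [sub_add_cancel] at this
      have a2 : Adj (x1 - 1, y + m) (x1 - 1, y + (m + 1 : ℕ)) := by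
        have := adj_up (x := x1 - 1) (y := y + m) (by omega)
        push_cast
        rwa [← add_assoc]
      exact ⟨x1 - 1, by omega, (h2.tail ⟨hK _ _ h1, hK _ _ (by omega), a1⟩).tail
        ⟨hK _ _ (by omega), hK _ _ (by omega), a2⟩⟩

/-- **connected complements** -/
theorem cc_of_rows {S : Finset V} (h : ∀ v, v ∉ S → FR S v ∨ FL S v) : Cc S := by
  obtain ⟨K, hK⟩ := (S.image fun v : V => v.1.natAbs + v.2.natAbs).exists_le
  have hin : ∀ v ∈ S, v.1.natAbs + v.2.natAbs ≤ K := fun v hv =>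
    hK _ (Finset.mem_image_of_mem _ hv)
  have hR : ∀ x y : ℤ, (K : ℤ) + 1 ≤ x → ((x, y) : V) ∉ S := by
    intro x y hx hm
    have := hin _ hm
    simp only at this
    omega
  have hLf : ∀ x y : ℤ, x ≤ -(K : ℤ) - 1 → ((x, y) : V) ∉ S := by
    intro x y hx hm
    have := hin _ hm
    simp only at this
    omega
  have hU : ∀ x y : ℤ, (K : ℤ) + 1 ≤ y → ((x, y) : V) ∉ S := by
    intro x y hx hm
    have := hin _ hm
    simp only at this
    omega
  -- the base point
  set c : V := ((K : ℤ) + 1, (K : ℤ) + 1) with hc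
  -- the upper rows
  have top : ∀ x y : ℤ, (K : ℤ) + 1 ≤ y → Relation.ReflTransGen (Stp S) (x, y) c := by
    intro x y hy
    -- go right
    set x1 := max x ((K : ℤ) + 1) with hx1
    have s1 : Relation.ReflTransGen (Stp S) (x, y) (x1, y) :=
      row_rtg (le_max_left _ _) fun t _ _ => hU t y hy
    obtain ⟨x2, h2, h3⟩ := up_right hR (y - (K + 1)).toNat ((K : ℤ) + 1) ((K : ℤ) + 1) le_rfl
    have e : (K : ℤ) + 1 + ((y - (K + 1)).toNat : ℤ) = y := by omega
    rw [e] at h3
    have s2 : Relation.ReflTransGen (Stp S) (x1, y) (x2, y) := by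
      rcases le_total x1 x2 with h | h
      · exact row_rtg h fun t _ _ => hU t y hy
      · exact rtg_symm (row_rtg h fun t _ _ => hU t y hy)
    exact s1.trans (s2.trans (rtg_symm h3))
  have right : ∀ x y : ℤ, (K : ℤ) + 1 ≤ x → Relation.ReflTransGen (Stp S) (x, y) c := by
    intro x y hx
    obtain ⟨x', _, h2⟩ := up_right hR ((K + 1 - y).toNat) x y hx
    exact h2.trans (top _ _ (by omega))
  have left : ∀ x y : ℤ, x ≤ -(K : ℤ) - 1 → Relation.ReflTransGen (Stp S) (x, y) c := by
    intro x y hx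
    obtain ⟨x', _, h2⟩ := up_left hLf ((K + 1 - y).toNat) x y hx
    exact h2.trans (top _ _ (by omega))
  have all : ∀ v, v ∉ S → Relation.ReflTransGen (Stp S) v c := by
    rintro ⟨x, y⟩ hv
    rcases h _ hv with h1 | h1
    · have s1 : Relation.ReflTransGen (Stp S) (x, y) (max x ((K : ℤ) + 1), y) :=
        row_rtg (le_max_left _ _) fun t ht _ => h1 t ht
      exact s1.trans (right _ _ (le_max_right _ _))
    · have s1 : Relation.ReflTransGen (Stp S) (min x (-(K : ℤ) - 1), y) (x, y) :=
        row_rtg (min_le_left _ _) fun t _ ht => h1 t ht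
      exact (rtg_symm s1).trans (left _ _ (min_le_right _ _))
  intro v w hv hw
  exact (all v hv).trans (rtg_symm (all w hw))

/-! ### the domains -/

/-- the vertices of the domain with parameters `p` -/
def fs (p : Par) : Finset V :=
  (Finset.Icc (-(p.a4.natAbs + p.a2.natAbs + p.R.natAbs + p.Q.natAbs + 1 : ℤ))
      ((p.b.natAbs + p.Q.natAbs : ℤ)) ×ˢ Finset.Icc (-p.Q) p.R).filter (Om p)

theorem mem_fs {p : Par} {v : V} : v ∈ fs p ↔ Om p v := by
  unfold fs
  rw [Finset.mem_filter, Finset.mem_product, Finset.mem_Icc, Finset.mem_Icc]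
  constructor
  · exact fun h => h.2
  · intro h
    refine ⟨?_, h⟩
    obtain ⟨o1, o2, o3, o4, o5, o6, o7⟩ := h
    rcases lt_trichotomy v.2 0 with c | c | c
    · have := o7 (by omega)
      omega
    · have := o6 c
      omega
    · have := o5 (by omega)
      omega

theorem cc_fs (p : Par) : Cc (fs p) := by
  apply cc_of_rows
  intro v hv
  rw [mem_fs] at hv
  unfold FR FL
  simp only [mem_fs]
  unfold Om at hv ⊢
  simp only
  by_cases h1 : v.2 ≤ p.R ∧ -p.Q ≤ v.2 ∧ v.1 + v.2 ≤ p.b ∧ v.1 - v.2 ≤ p.d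
  · right
    intro x hx hc
    apply hv
    obtain ⟨o1, o2, o3, o4, o5, o6, o7⟩ := hc
    refine ⟨h1.1, h1.2.1, h1.2.2.1, h1.2.2.2, ?_, ?_, ?_⟩
    · intro h; have := o5 h; omega
    · intro h; have := o6 h; omega
    · intro h; have := o7 h; omega
  · left
    intro x hx hc
    apply h1
    obtain ⟨o1, o2, o3, o4, o5, o6, o7⟩ := hc
    omega

end Pool.Agent.H97.ON
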