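import Mathlib

set_option autoImplicit false

/-!
The weights of the sides for the sweeps: `u m = r ^ m * sin (m ψ)`, `r = cos t / cos ψ`,
`(J + 1) ψ = π`.
-/

noncomputable section

namespace Pool.Agent.H97.ON.Tr

open Real

theorem sin_rec (a t : ℝ) : sin ((a + 1) * t) + sin ((a - 1) * t) = 2 * cos t * sin (a * t) := by
  have e1 : (a + 1) * t = a * t + t := by ring
  have e2 : (a - 1) * t = a * t - t := by ring
  rw [e1, e2, sin_add, sin_sub]
  ring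

variable (t ψ : ℝ)

/-- the ratio -/
def rr : ℝ := cos t / cos ψ

/-- the weights -/
def uu (m : ℕ) : ℝ := rr t ψ ^ m * sin (m * ψ)

theorem uu_zero : uu t ψ 0 = 0 := by
  unfold uu
  simp

theorem uu_rec (hψ : cos ψ ≠ 0) (m : ℕ) :
    uu t ψ (m + 2) = 2 * cos t * uu t ψ (m + 1) - rr t ψ ^ 2 * uu t ψ m := by
  unfold uu
  have h := sin_rec ((m : ℝ) + 1) ψ
  have e1 : ((m : ℝ) + 1 + 1) = ((m + 2 : ℕ) : ℝ) := by push_cast; ring
  have e2 : ((m : ℝ) + 1 - 1) = (m : ℝ) := by ring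
  have e3 : ((m : ℝ) + 1) = ((m + 1 : ℕ) : ℝ) := by push_cast; ring
  rw [e1, e2, e3] at h
  have h2 : cos t = rr t ψ * cos ψ := by
    unfold rr
    field_simp
  have h3 : sin (((m + 2 : ℕ) : ℝ) * ψ) =
      2 * cos ψ * sin (((m + 1 : ℕ) : ℝ) * ψ) - sin ((m : ℝ) * ψ) := by linarith
  rw [h3]
  generalize rr t ψ = r at h2 ⊢
  rw [h2, pow_succ, pow_succ]
  ring

/-- above the pushed side -/
theorem above (hψ : cos ψ ≠ 0) : ∀ (j m0 : ℕ), 1 ≤ j → (∀ i : ℕ, i < j → 0 ≤ sin (i * t)) →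
    (∀ m, m0 ≤ m → m < m0 + j → 0 ≤ uu t ψ m) →
    ∃ R, 0 ≤ R ∧ uu t ψ (m0 + 1) * sin (j * t) - uu t ψ m0 * sin (((j : ℝ) - 1) * t) -
      sin t * uu t ψ (m0 + j) = (rr t ψ ^ 2 - 1) * R := by
  intro j
  induction j with
  | zero => intro m0 h; omega
  | succ j ih =>
    intro m0 _ hs hu
    rcases Nat.eq_zero_or_pos j with h0 | h0
    · subst h0
      refine ⟨0, le_rfl, ?_⟩
      push_cast
      simp
      ring
    · obtain ⟨R, hR, h⟩ := ih (m0 + 1) h0 (fun i hi => hs i (by omega))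
        (fun m h1 h2 => hu m (by omega) (by omega))
      refine ⟨R + sin (j * t) * uu t ψ m0, ?_, ?_⟩
      · have := hs j (by omega)
        have := hu m0 le_rfl (by omega)
        positivity
      · have h1 := uu_rec t ψ hψ m0
        have h2 := sin_rec (j : ℝ) t
        have e1 : m0 + 1 + j = m0 + (j + 1) := by omega
        have e2 : m0 + 1 + 1 = m0 + 2 := rfl
        rw [e1, e2, h1] at h
        push_cast
        have e3 : ((j : ℝ) + 1 - 1) = (j : ℝ) := by ring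
        rw [e3]
        linear_combination h + uu t ψ (m0 + 1) * h2

/-- below the pushed side -/
theorem below (hψ : cos ψ ≠ 0) (p : ℕ) : ∀ (j : ℕ), 1 ≤ j → (∀ i : ℕ, i ≤ j → 0 ≤ sin (i * t)) →
    (∀ m, p ≤ m → m < p + j → 0 ≤ uu t ψ m) →
    ∃ R, 0 ≤ R ∧ uu t ψ (p + j) * sin (((j : ℝ) + 1) * t) - uu t ψ (p + j + 1) * sin (j * t) -
      sin t * (rr t ψ ^ 2 * uu t ψ p) = (rr t ψ ^ 2 - 1) * R := by
  intro j
  induction j with
  | zero => intro h; omega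
  | succ j ih =>
    intro _ hs hu
    rcases Nat.eq_zero_or_pos j with h0 | h0
    · subst h0
      refine ⟨0, le_rfl, ?_⟩
      have h1 := uu_rec t ψ hψ p
      have h2 := sin_rec (1 : ℝ) t
      norm_num at h2
      have e1 : p + (0 + 1) = p + 1 := rfl
      have e2 : p + (0 + 1) + 1 = p + 2 := rfl
      rw [e2, e1, h1]
      push_cast
      rw [one_mul]
      have e3 : sin ((1 + 1) * t) = 2 * cos t * sin t := by
        rw [show (1 + 1 : ℝ) * t = 2 * t by ring, sin_two_mul]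
        ring
      rw [e3]
      ring
    · obtain ⟨R, hR, h⟩ := ih h0 (fun i hi => hs i (by omega))
        (fun m h1 h2 => hu m (by omega) (by omega))
      refine ⟨R + sin (((j + 1 : ℕ) : ℝ) * t) * uu t ψ (p + j), ?_, ?_⟩
      · have := hs (j + 1) (by omega)
        have := hu (p + j) (by omega) (by omega)
        positivity
      · have h1 := uu_rec t ψ hψ (p + j)
        have h2 := sin_rec ((j : ℝ) + 1) t
        have e1 : p + (j + 1) = p + j + 1 := rfl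
        have e2 : p + (j + 1) + 1 = p + j + 2 := rfl
        have e3 : ((j : ℝ) + 1 - 1) = (j : ℝ) := by ring
        rw [e2, e1, h1]
        push_cast
        rw [e3] at h2
        linear_combination h + uu t ψ (p + j + 1) * h2

/-- the sinusoid of the push of the side `m0` -/
def GG (m0 : ℕ) (m : ℕ) : ℝ :=
  (uu t ψ (m0 + 1) * sin (((m : ℝ) - m0) * t) - uu t ψ m0 * sin (((m : ℝ) - m0 - 1) * t)) / sin t

theorem GG_self (ht : sin t ≠ 0) (m0 : ℕ) : GG t ψ m0 m0 = uu t ψ m0 := by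
  unfold GG
  rw [sub_self, zero_mul, sin_zero, show ((0 : ℝ) - 1) * t = -t by ring, sin_neg]
  field_simp
  ring

theorem GG_above (ht : 0 < sin t) (hψ : cos ψ ≠ 0) {m0 m : ℕ} (h : m0 < m)
    (hs : ∀ i : ℕ, i < m - m0 → 0 ≤ sin (i * t)) (hu : ∀ i, i < m → 0 ≤ uu t ψ i) :
    ∃ R, 0 ≤ R ∧ GG t ψ m0 m - uu t ψ m = (rr t ψ ^ 2 - 1) * R := by
  obtain ⟨j, rfl⟩ := Nat.exists_eq_add_of_lt h
  obtain ⟨R, hR, h1⟩ := above t ψ hψ (j + 1) m0 (by omega)
    (fun i hi => hs i (by omega)) (fun m h1 h2 => hu m (by omega))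
  refine ⟨R / sin t, by positivity, ?_⟩
  unfold GG
  have e1 : (((m0 + j + 1 : ℕ) : ℝ) - m0) = ((j + 1 : ℕ) : ℝ) := by push_cast; ring
  rw [e1]
  have e2 : m0 + (j + 1) = m0 + j + 1 := rfl
  rw [e2] at h1
  have key : ∀ X Y : ℝ, X / sin t - Y = (X - sin t * Y) / sin t := by
    intro X Y
    field_simp
  rw [key, h1, mul_div_assoc]

theorem GG_below (ht : 0 < sin t) (hψ : cos ψ ≠ 0) {m0 m : ℕ} (h : m < m0)
    (hs : ∀ i : ℕ, i ≤ m0 - m → 0 ≤ sin (i * t)) (hu : ∀ i, i < m0 → 0 ≤ uu t ψ i) :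
    ∃ R, 0 ≤ R ∧ GG t ψ m0 m - rr t ψ ^ 2 * uu t ψ m = (rr t ψ ^ 2 - 1) * R := by
  obtain ⟨j, rfl⟩ := Nat.exists_eq_add_of_lt h
  obtain ⟨R, hR, h1⟩ := below t ψ hψ m (j + 1) (by omega)
    (fun i hi => hs i (by omega)) (fun m' h1 h2 => hu m' (by omega))
  refine ⟨R / sin t, by positivity, ?_⟩
  unfold GG
  have e1 : ((m : ℝ) - ((m + j + 1 : ℕ) : ℝ)) * t = -(((j + 1 : ℕ) : ℝ) * t) := by
    push_cast; ring
  have e2 : ((m : ℝ) - ((m + j + 1 : ℕ) : ℝ) - 1) * t = -((((j + 1 : ℕ) : ℝ) + 1) * t) := by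
    push_cast; ring
  have e3 : m + (j + 1) = m + j + 1 := rfl
  rw [e1, e2, sin_neg, sin_neg]
  rw [e3] at h1
  have key : ∀ X Y : ℝ, X / sin t - Y = (X - sin t * Y) / sin t := by
    intro X Y
    field_simp
  rw [key, ← mul_div_assoc, ← h1]
  congr 1
  ring

/-- the sinusoid in the standard form -/
theorem GG_form (m0 : ℕ) : ∃ A B : ℝ, ∀ m : ℕ, GG t ψ m0 m =
    A * cos (((m : ℝ) - 4) * t) + B * sin (((m : ℝ) - 4) * t) := by
  refine ⟨(uu t ψ (m0 + 1) * sin ((4 - (m0 : ℝ)) * t) - uu t ψ m0 * sin ((4 - (m0 : ℝ) - 1) * t)) /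
    sin t, (uu t ψ (m0 + 1) * cos ((4 - (m0 : ℝ)) * t) -
      uu t ψ m0 * cos ((4 - (m0 : ℝ) - 1) * t)) / sin t, ?_⟩
  intro m
  unfold GG
  have e1 : ((m : ℝ) - m0) * t = ((m : ℝ) - 4) * t + (4 - (m0 : ℝ)) * t := by ring
  have e2 : ((m : ℝ) - m0 - 1) * t = ((m : ℝ) - 4) * t + (4 - (m0 : ℝ) - 1) * t := by ring
  rw [e1, e2, sin_add, sin_add]
  ring

variable {t ψ}

/-- positivity of the weights -/
theorem uu_pos {J : ℕ} (hψ : ((J : ℝ) + 1) * ψ = π) (hψ0 : 0 < ψ) (hr : 0 < rr t ψ) {m : ℕ}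
    (h1 : 1 ≤ m) (h2 : m ≤ J) : 0 < uu t ψ m := by
  unfold uu
  apply mul_pos (pow_pos hr m)
  have h1' : (1 : ℝ) ≤ m := by exact_mod_cast h1
  have h2' : (m : ℝ) ≤ J := by exact_mod_cast h2
  apply sin_pos_of_pos_of_lt_pi
  · positivity
  · nlinarith

theorem uu_last {J : ℕ} (hψ : ((J : ℝ) + 1) * ψ = π) : uu t ψ (J + 1) = 0 := by
  unfold uu
  push_cast
  rw [hψ, sin_pi, mul_zero]

theorem uu_nonneg {J : ℕ} (hψ : ((J : ℝ) + 1) * ψ = π) (hψ0 : 0 < ψ) (hr : 0 < rr t ψ) {m : ℕ}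
    (h2 : m ≤ J + 1) : 0 ≤ uu t ψ m := by
  rcases Nat.eq_zero_or_pos m with h | h
  · subst h; exact (uu_zero t ψ).ge
  · rcases Nat.lt_or_ge J m with h3 | h3
    · have : m = J + 1 := by omega
      rw [this, uu_last hψ]
    · exact (uu_pos hψ hψ0 hr h h3).le

theorem sin_nn {J : ℕ} (ht : 0 ≤ t) (hJt : (J : ℝ) * t ≤ π) {i : ℕ} (hi : i ≤ J) :
    0 ≤ sin (i * t) := by
  have hi' : (i : ℝ) ≤ J := by exact_mod_cast hi
  apply sin_nonneg_of_nonneg_of_le_pi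
  · positivity
  · nlinarith

/-- weights after the sides `1, …, i` have been pushed -/
def wz (t ψ : ℝ) (J i m : ℕ) : ℝ :=
  if m ≤ J then (if m ≤ i then rr t ψ ^ 2 * uu t ψ m else uu t ψ m) else 0

theorem wz_zero (J m : ℕ) : wz t ψ J 0 m = if m ≤ J then uu t ψ m else 0 := by
  unfold wz
  split_ifs with h1 h2
  · have : m = 0 := by omega
    rw [this, uu_zero, mul_zero]
  · rfl
  · rfl

theorem wz_last (J m : ℕ) : wz t ψ J J m = rr t ψ ^ 2 * if m ≤ J then uu t ψ m else 0 := by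
  unfold wz
  split_ifs with h1
  · rfl
  · rw [mul_zero]

theorem wz_succ (J i m : ℕ) (h : m ≠ i + 1) : wz t ψ J (i + 1) m = wz t ψ J i m := by
  unfold wz
  by_cases h1 : m ≤ J
  · by_cases h2 : m ≤ i
    · simp only [h1, h2, if_true, show m ≤ i + 1 by omega]
    · simp only [h1, h2, if_true, if_false, show ¬ m ≤ i + 1 by omega]
  · simp only [h1, if_false]

/-- the certificate -/
theorem cert {J : ℕ} (hψ : ((J : ℝ) + 1) * ψ = π) (hψ0 : 0 < ψ) (hc : cos ψ ≠ 0)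
    (hr : 0 < rr t ψ) (ht0 : 0 ≤ t) (ht : 0 < sin t) (hJt : (J : ℝ) * t ≤ π) {i m : ℕ} (hi : i < J)
    (hm : m ≤ J + 1) (hne : m ≠ i + 1) :
    ∃ R, 0 ≤ R ∧ GG t ψ (i + 1) m - wz t ψ J i m = (rr t ψ ^ 2 - 1) * R := by
  rcases Nat.lt_or_gt_of_ne hne with h | h
  · obtain ⟨R, hR, h1⟩ := GG_below t ψ ht hc h (fun i' hi' => sin_nn ht0 hJt (by omega))
      (fun i' hi' => uu_nonneg hψ hψ0 hr (by omega))
    refine ⟨R, hR, ?_⟩
    rw [← h1]
    unfold wz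
    rw [if_pos (by omega), if_pos (by omega)]
  · obtain ⟨R, hR, h1⟩ := GG_above t ψ ht hc h (fun i' hi' => sin_nn ht0 hJt (by omega))
      (fun i' hi' => uu_nonneg hψ hψ0 hr (by omega))
    refine ⟨R, hR, ?_⟩
    rw [← h1]
    unfold wz
    split_ifs with h2 h3
    · omega
    · rfl
    · have : m = J + 1 := by omega
      rw [this, uu_last hψ]

theorem wz_self {J i : ℕ} (hi : i < J) : wz t ψ J i (i + 1) = uu t ψ (i + 1) := by
  unfold wz
  rw [if_pos (by omega), if_neg (by omega)]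

end Pool.Agent.H97.ON.Tr
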