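import Pool.Agent.H97.ON.Wind
import Pool.Agent.H97.ON.Trig
import Pool.Graph.R_seed8.TH232.WX.Fin

set_option autoImplicit false
set_option linter.unusedSimpArgs false

/-!
The sweeps: the potential of the sides is multiplied by at most / at least `(cos ψ / cos t) ^ 2`.
-/

noncomputable section

namespace Pool.Agent.H97.ON

open H978R2.Hex H978R3.Wedge
open Pool.Agent.X136.ON (Dir)
open TH508.ON (exits wL ZL loops loopsAt verts CL loopOf)
open Pool.Agent.TH232.Hex (push st good_push om_push out_push inactive_push good_st om_st)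
open Pool.Agent.TH232.WX (WP wp_push wp_st domJ good_domJ wp_domJ om_domJ xPar ok_x wp_x om_x
  x_finite scaleJ sJ sJ_gt aJ xJ xJ_pos Wg)
open Tr

/-- admissible parameters of the model -/
structure Prm (n x t : ℝ) : Prop where
  hn : 1 ≤ n
  hx : 0 < x
  hnt : n = -2 * Real.cos (4 * t)
  hxt : x * (2 * Real.cos t) = 1
  hnx : n * x ^ 2 ≤ 1
  t0 : Real.pi / 6 ≤ t
  t1 : t ≤ Real.pi / 4

variable {n x t : ℝ}

theorem Prm.n0 (h : Prm n x t) : 0 ≤ n := by have := h.hn; linarith

theorem Prm.tpos (h : Prm n x t) : 0 < t := by have := h.t0; have := Real.pi_pos; linarith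

theorem Prm.sin_pos (h : Prm n x t) : 0 < Real.sin t :=
  Real.sin_pos_of_pos_of_lt_pi h.tpos (by have := h.t1; have := Real.pi_pos; linarith)

theorem Prm.cos_pos (h : Prm n x t) : 0 < Real.cos t :=
  Real.cos_pos_of_mem_Ioo ⟨by have := h.tpos; have := Real.pi_pos; linarith,
    by have := h.t1; have := Real.pi_pos; linarith⟩

theorem Prm.x_le (h : Prm n x t) : x ≤ 1 := by
  have := h.hnx
  have := h.hn
  have := h.hx
  nlinarith

/-- the masses, indexed by `0, …, 9` -/
def Nm (n x : ℝ) (p : Par) (m : ℕ) : ℝ := Mk n x p ((m : ℤ) - 4)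

theorem Nm_nonneg (h : Prm n x t) (p : Par) (m : ℕ) : 0 ≤ Nm n x p m :=
  Mk_nonneg h.n0 h.hx.le p _

theorem sum_reindex (f : ℤ → ℝ) :
    ∑ k ∈ Finset.Icc (-4 : ℤ) 5, f k = ∑ m ∈ Finset.range 10, f ((m : ℤ) - 4) := by
  refine Finset.sum_nbij' (fun k => (k + 4).toNat) (fun m => (m : ℤ) - 4) ?_ ?_ ?_ ?_ ?_
  · intro k hk
    rw [Finset.mem_Icc] at hk
    rw [Finset.mem_range]
    omega
  · intro m hm
    rw [Finset.mem_range] at hm
    rw [Finset.mem_Icc]
    omega
  · intro k hk
    rw [Finset.mem_Icc] at hk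
    omega
  · intro m _
    omega
  · intro k hk
    rw [Finset.mem_Icc] at hk
    congr 1
    omega

theorem ident_N (h : Prm n x t) {p : Par} (hp : Ok p) (A B : ℝ) :
    ∑ m ∈ Finset.range 10, (A * Real.cos (((m : ℝ) - 4) * t) + B * Real.sin (((m : ℝ) - 4) * t)) *
      Nm n x p m = A := by
  have h1 := ident_F h.n0 h.hx h.hnt h.hxt hp A B
  rw [sum_reindex] at h1
  refine Eq.trans (Finset.sum_congr rfl fun m _ => ?_) h1
  unfold Nm
  push_cast
  rfl

/-- one push, abstractly -/
theorem pot_gen (σ g : ℝ) (N N' w w' G : ℕ → ℝ) (m0 : ℕ)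
    (h : ∑ m ∈ Finset.range 10, G m * N m = g) (h' : ∑ m ∈ Finset.range 10, G m * N' m = g)
    (hz : N' m0 = 0) (hG0 : G m0 = w m0)
    (hc : ∀ m < 10, m ≠ m0 → w' m = w m ∧
      ((N m ≤ N' m ∧ 0 ≤ σ * (G m - w m)) ∨ (w m = 0 ∧ N' m = N m))) :
    0 ≤ σ * (∑ m ∈ Finset.range 10, w m * N m - ∑ m ∈ Finset.range 10, w' m * N' m) := by
  have e : σ * (∑ m ∈ Finset.range 10, w m * N m - ∑ m ∈ Finset.range 10, w' m * N' m) =
      ∑ m ∈ Finset.range 10, σ * ((w m - G m) * N m - (w' m - G m) * N' m) := by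
    rw [← Finset.mul_sum, Finset.sum_sub_distrib]
    congr 1
    have e1 : ∑ m ∈ Finset.range 10, (w m - G m) * N m =
        ∑ m ∈ Finset.range 10, w m * N m - g := by
      rw [← h, ← Finset.sum_sub_distrib]
      exact Finset.sum_congr rfl fun m _ => by ring
    have e2 : ∑ m ∈ Finset.range 10, (w' m - G m) * N' m =
        ∑ m ∈ Finset.range 10, w' m * N' m - g := by
      rw [← h', ← Finset.sum_sub_distrib]
      exact Finset.sum_congr rfl fun m _ => by ring
    rw [e1, e2]
    ring
  rw [e]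
  apply Finset.sum_nonneg
  intro m hm
  rw [Finset.mem_range] at hm
  by_cases hm0 : m = m0
  · subst hm0
    rw [hz, hG0]
    simp
  · obtain ⟨a, b | ⟨b, c⟩⟩ := hc m hm hm0
    · rw [a]
      have : σ * ((w m - G m) * N m - (w m - G m) * N' m) =
          (σ * (G m - w m)) * (N' m - N m) := by ring
      rw [this]
      exact mul_nonneg b.2 (by linarith [b.1])
    · rw [a, b, c]
      simp

/-! ### sides without mass -/

theorem zero_Mk {J : ℕ} (hJ : 3 ≤ J) (hJ6 : J ≤ 6) {p : Par} (hp : Ok p) (h : WP J p) (k : ℤ)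
    (hk : (J : ℤ) - 2 ≤ k) (hk1 : k ≠ 1) (hk5 : k ≤ 5) : Mk n x p k = 0 := by
  obtain ⟨w4, w3, w2, w1, w0⟩ := h
  rcases eq_or_ne k 5 with rfl | h5
  · apply Mk_zero
    intro l hl
    exact no_five p hp (blocked p (Or.inl (by omega))) (exits_fs hl).1 (exits_fs hl).2
  · apply Mk_zero_of hp
    intro v z hv ha _ ho
    rw [adj_iff] at ha
    obtain ⟨o1, o2, o3, o4, o5, o6, o7⟩ := hv
    unfold Out Slit at ho
    interval_cases J
    · have := w2 (by norm_num)
      have := w1 (by norm_num)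
      have := w0 (by norm_num)
      push_cast at hk
      rcases lt_trichotomy v.2 0 with c | c | c <;> omega
    · have := w2 (by norm_num)
      have := w1 (by norm_num)
      push_cast at hk
      rcases lt_trichotomy v.2 0 with c | c | c <;> omega
    · have := w2 (by norm_num)
      push_cast at hk
      rcases lt_trichotomy v.2 0 with c | c | c <;> omega
    · push_cast at hk
      rcases lt_trichotomy v.2 0 with c | c | c <;> omega

/-- the side `1` of the wedge of 60 degrees -/
theorem one_Mk (h : Prm n x t) {p : Par} (hp : Ok p) (hw : WP 3 p) : Mk n x p 1 = x := by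
  obtain ⟨w4, w3, w2, w1, w0⟩ := hw
  have e2 := w2 (by norm_num)
  have e1 := w1 (by norm_num)
  have e0 := w0 (by norm_num)
  have h10 : ((1, 0) : V) ∈ fs p := mem_fs.2 (om_base hp)
  have h20 : ((2, 0) : V) ∉ fs p := by
    rw [mem_fs]
    rintro ⟨_, _, o3, _⟩
    rw [e1] at o3
    norm_num at o3
  have h00 := zero_fs p
  have hset : (exits (fs p)).filter (fun l => W l = 1) = {[(2, 0), (1, 0), (0, 0)]} := by
    ext l
    rw [Finset.mem_filter, Finset.mem_singleton]
    constructor
    · rintro ⟨hl, hW⟩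
      obtain ⟨z, y, x', t', e, a1, a2, a3, a4, a5, a6⟩ := exits_form h10 hl
      have ho := out_exits hp hl
      rw [hW, e] at ho
      simp only [List.headD_cons] at ho
      unfold Out Slit at ho
      have hz : 1 < z.1 + z.2 := by
        rw [e1] at ho
        omega
      have hy := mem_fs.1 a3
      obtain ⟨o1, o2, o3, o4, o5, o6, o7⟩ := hy
      have ha := a1
      rw [adj_iff] at ha
      rw [e1] at o3
      rw [e0] at o4
      have hy1 : y.1 = 1 ∧ y.2 = 0 := by
        rcases lt_trichotomy y.2 0 with c | c | c <;> omega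
      have hy' : y = (1, 0) := Prod.ext hy1.1 hy1.2
      subst hy'
      subst e
      -- the list is the trivial one
      have hg := (val_iff _ _).1 a5
      have hnd := hg.nodup
      have hsuf := hg.suff
      have hxt : ((1, 0) : V) ∉ x' :: t' := (List.nodup_cons.1 hnd).1
      have hs2 : [((1, 0) : V), (0, 0)] <:+ (1, 0) :: x' :: t' :=
        List.suffix_of_suffix_length_le hsuf (List.suffix_cons _ _) (by simp)
      have hx' : x' :: t' = [(0, 0)] := by
        rcases List.suffix_cons_iff.1 hs2 with h1 | h1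
        · exact (List.cons.inj h1).2.symm
        · exact absurd (h1.subset (by simp)) hxt
      have hzz : z = (2, 0) := by
        simp only at ha
        rcases ha with c | c | c | c
        · exact Prod.ext (by simp only; omega) (by simp only; omega)
        · omega
        · exfalso; omega
        · omega
      rw [hzz, hx']
    · rintro rfl
      refine ⟨?_, ?_⟩
      · unfold TH508.ON.exits
        rw [Finset.mem_filter, TH508.ON.mem_AP]
        refine ⟨⟨?_, by simp, h10, by simp, rfl, rfl⟩, h20⟩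
        unfold Adj
        left
        norm_num
      · norm_num [W, turn, ht]
  unfold Mk
  rw [hset, Finset.sum_singleton]
  unfold TH508.ON.wL
  have hZ : ZL n x (fs p \ [((1, 0) : V), (0, 0)].toFinset) = ZL n x (fs p) := by
    have e : fs p \ [((1, 0) : V), (0, 0)].toFinset = (fs p).erase (1, 0) := by
      ext w
      simp only [Finset.mem_sdiff, List.mem_toFinset, List.mem_cons, List.not_mem_nil, or_false,
        Finset.mem_erase, not_or]
      constructor
      · rintro ⟨a, b, _⟩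
        exact ⟨b, a⟩
      · rintro ⟨a, b⟩
        exact ⟨b, a, fun hh => h00 (hh ▸ b)⟩
    rw [e, TH508.ON.ZL_rec n x (fs p) (1, 0)]
    have : loopsAt (fs p) ((1, 0) : V) = ∅ := by
      rw [Finset.eq_empty_iff_forall_notMem]
      intro c hc
      unfold loopsAt at hc
      rw [Finset.mem_filter, TH508.ON.mem_loops] at hc
      obtain ⟨⟨c1, c2⟩, c3⟩ := hc
      obtain ⟨A, hA, rfl⟩ := TH508.ON.exists_list c2 c3
      have hAS : ∀ w ∈ A, w ∈ fs p := fun w hw => c1 ((TH508.ON.verts_loopOf hA w).2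
        (List.mem_cons_of_mem _ hw))
      have hmem := (mem_CLs h10).2 ⟨hA, hAS⟩
      unfold CLs at hmem
      rw [Finset.mem_biUnion] at hmem
      obtain ⟨d, _, hmem⟩ := hmem
      rw [Finset.mem_biUnion] at hmem
      obtain ⟨d', hd', hmem⟩ := hmem
      rw [mem_PF] at hmem
      obtain ⟨_, g2, g3, _, g5, _⟩ := hmem
      have f1 := hAS _ (List.mem_of_mem_head? g2)
      have f2 := hAS _ (List.mem_of_getLast? g3)
      obtain ⟨n1, n2, n3⟩ := nb_odd (a := 1) (b := 0) (by norm_num)
      norm_num at n1 n2 n3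
      have hdd := (Finset.mem_erase.1 hd').1
      cases d
      · cases d'
        · exact hdd rfl
        · rw [n2] at f2; exact h20 f2
        · rw [n3] at f2; exact h00 f2
      · rw [n2] at f1; exact h20 f1
      · rw [n3] at f1; exact h00 f1
    rw [this]
    simp
  simp only [List.tail_cons, List.length_cons, List.length_nil]
  rw [hZ]
  have hZp := TH508.ON.ZL_pos h.n0 h.hx.le (fs p)
  have : ZL n x (fs p) ≠ 0 := by positivity
  field_simp
  norm_num

/-! ### one push -/

theorem push_gen (h : Prm n x t) {J : ℕ} (hJ : 3 ≤ J) (hJ6 : J ≤ 6) {ψ σ : ℝ}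
    (hψ : ((J : ℝ) + 1) * ψ = Real.pi) (hσ : 0 ≤ σ * (rr t ψ ^ 2 - 1))
    (hJt : (J : ℝ) * t ≤ Real.pi) {p : Par} (hg : Pool.Agent.TH232.Hex.Good p) (hw : WP J p)
    (i : ℕ) (hi : i < J) :
    0 ≤ σ * (∑ m ∈ Finset.range 10, wz t ψ J i m * Nm n x p m -
      ∑ m ∈ Finset.range 10, wz t ψ J (i + 1) m * Nm n x (push p i) m) := by
  have hJ3 : (3 : ℝ) ≤ J := by exact_mod_cast hJ
  have hpi := Real.pi_pos
  have hψ0 : 0 < ψ := by
    by_contra hc
    push Not at hc
    nlinarith
  have hψ1 : ψ < Real.pi / 2 := by nlinarith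
  have hcψ : 0 < Real.cos ψ := Real.cos_pos_of_mem_Ioo ⟨by linarith, hψ1⟩
  have hr : 0 < rr t ψ := by
    unfold rr
    exact div_pos h.cos_pos hcψ
  have hg' := good_push hg i (by omega)
  have hw' := wp_push hw hJ6 i hi
  obtain ⟨A, B, hAB⟩ := GG_form t ψ (i + 1)
  have id1 : ∑ m ∈ Finset.range 10, GG t ψ (i + 1) m * Nm n x p m = A := by
    rw [← ident_N h hg.ok A B]
    exact Finset.sum_congr rfl fun m _ => by rw [hAB]
  have id2 : ∑ m ∈ Finset.range 10, GG t ψ (i + 1) m * Nm n x (push p i) m = A := by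
    rw [← ident_N h hg'.ok A B]
    exact Finset.sum_congr rfl fun m _ => by rw [hAB]
  refine pot_gen σ A _ _ _ _ _ (i + 1) id1 id2 ?_ ?_ ?_
  · unfold Nm
    have e : (((i + 1 : ℕ) : ℤ) - 4) = (i : ℤ) - 3 := by push_cast; ring
    rw [e]
    exact Mk_zero_of hg'.ok _ (inactive_push hg i (by omega))
  · rw [GG_self t ψ h.sin_pos.ne', wz_self hi]
  · intro m hm hne
    refine ⟨wz_succ J i m hne, ?_⟩
    rcases Nat.lt_or_ge (J + 1) m with hm1 | hm1
    · right
      refine ⟨?_, ?_⟩
      · unfold wz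
        rw [if_neg (by omega)]
      · unfold Nm
        by_cases h3 : m = 5
        · have hJ3' : J = 3 := by omega
          subst h3
          subst hJ3'
          have e : (((5 : ℕ) : ℤ) - 4) = 1 := by norm_num
          rw [e, one_Mk h hg'.ok hw', one_Mk h hg.ok hw]
        · rw [zero_Mk hJ hJ6 hg'.ok hw' _ (by omega) (by omega) (by omega),
            zero_Mk hJ hJ6 hg.ok hw _ (by omega) (by omega) (by omega)]
    · left
      refine ⟨?_, ?_⟩
      · unfold Nm
        apply Mk_mono h.hn h.hx h.hnx hg.ok hg'.ok (om_push hg i (by omega))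
        exact out_push i (by omega) _ (by omega)
      · obtain ⟨R, hR, hR2⟩ := cert (t := t) hψ hψ0 hcψ.ne' hr h.tpos.le h.sin_pos hJt hi hm1 hne
        rw [hR2]
        have : σ * ((rr t ψ ^ 2 - 1) * R) = (σ * (rr t ψ ^ 2 - 1)) * R := by ring
        rw [this]
        exact mul_nonneg hσ hR

/-- the potential -/
def PP (n x t ψ : ℝ) (J : ℕ) (p : Par) : ℝ :=
  ∑ m ∈ Finset.range 10, (if m ≤ J then uu t ψ m else 0) * Nm n x p m

/-- one sweep -/
theorem sweep_gen (h : Prm n x t) {J : ℕ} (hJ : 3 ≤ J) (hJ6 : J ≤ 6) {ψ σ : ℝ}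
    (hψ : ((J : ℝ) + 1) * ψ = Real.pi) (hσ : 0 ≤ σ * (rr t ψ ^ 2 - 1))
    (hJt : (J : ℝ) * t ≤ Real.pi) {p : Par} (hg : Pool.Agent.TH232.Hex.Good p) (hw : WP J p) :
    0 ≤ σ * (PP n x t ψ J p - rr t ψ ^ 2 * PP n x t ψ J (st p J)) := by
  have key : ∀ i : ℕ, i ≤ J → 0 ≤ σ * (∑ m ∈ Finset.range 10, wz t ψ J 0 m * Nm n x p m -
      ∑ m ∈ Finset.range 10, wz t ψ J i m * Nm n x (st p i) m) := by
    intro i
    induction i with
    | zero => intro _; simp [st]
    | succ i ih =>
      intro hi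
      have h1 := ih (by omega)
      have h2 := push_gen h hJ hJ6 hψ hσ hJt (good_st hg i (by omega)) (wp_st hw hJ6 i (by omega)) i
        (by omega)
      have e : st p (i + 1) = push (st p i) i := rfl
      rw [e]
      nlinarith
  have h1 := key J le_rfl
  unfold PP
  have e1 : ∑ m ∈ Finset.range 10, wz t ψ J 0 m * Nm n x p m =
      ∑ m ∈ Finset.range 10, (if m ≤ J then uu t ψ m else 0) * Nm n x p m :=
    Finset.sum_congr rfl fun m _ => by rw [wz_zero]
  have e2 : ∑ m ∈ Finset.range 10, wz t ψ J J m * Nm n x (st p J) m =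
      rr t ψ ^ 2 * ∑ m ∈ Finset.range 10, (if m ≤ J then uu t ψ m else 0) * Nm n x (st p J) m := by
    rw [Finset.mul_sum]
    exact Finset.sum_congr rfl fun m _ => by rw [wz_last]; ring
  rw [e1, e2] at h1
  exact h1

end Pool.Agent.H97.ON
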