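import Pool.Agent.H97.ON.Rows
import Pool.Graph.R_pool_sql_team_seeded_ab47071d.TH508.ON.Main

set_option autoImplicit false
set_option linter.unusedSimpArgs false

/-!
The winding of a path is determined by its last edge; monotonicity of the masses.
-/

noncomputable section

namespace Pool.Agent.H97.ON

open H978R2.Hex
open Pool.Agent.X136.ON (Dir)
open TH508.ON (exits wL ZL Paths tl tl_mem tl_inj exists_tl mem_exits wt_eq wt wL_nonneg)

/-- direction of a step -/
def dr (v w : V) : ℤ :=
  if w.1 = v.1 + 1 then (if (v.1 + v.2) % 2 = 0 then 0 else 1) else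
  if w.1 = v.1 - 1 then (if (v.1 + v.2) % 2 = 0 then 4 else 3) else
  (if (v.1 + v.2) % 2 = 0 then 2 else 5)

theorem nb_even {a b : ℤ} (h : (a + b) % 2 = 0) : nb (a, b) .A = (a, b + 1) ∧
    nb (a, b) .B = (a - 1, b) ∧ nb (a, b) .C = (a + 1, b) := by
  unfold nb
  simp only [h, if_true, and_self]

theorem nb_odd {a b : ℤ} (h : (a + b) % 2 = 1) : nb (a, b) .A = (a, b - 1) ∧
    nb (a, b) .B = (a + 1, b) ∧ nb (a, b) .C = (a - 1, b) := by
  unfold nb
  have h0 : ¬ (a + b) % 2 = 0 := by omega
  simp only [h0, if_false, and_self]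

theorem turn_dr (x : V) {d d' : Dir} (h : d' ≠ d) :
    (turn x (nb x d) (nb (nb x d) d') + dr x (nb x d) - dr (nb x d) (nb (nb x d) d')) % 6 = 0 := by
  obtain ⟨a, b⟩ := x
  rcases even_cases (a, b) with hp | hp <;> simp only at hp
  · obtain ⟨e1, e2, e3⟩ := nb_even hp
    cases d
    · rw [e1]
      obtain ⟨f1, f2, f3⟩ := nb_odd (a := a) (b := b + 1) (by omega)
      cases d'
      · exact absurd rfl h
      · rw [f2]
        have t : turn (a, b) (a, b + 1) (a + 1, b + 1) = -1 := by
          unfold turn ht; simp only; omega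
        rw [t]; unfold dr; simp only; split_ifs <;> omega
      · rw [f3]
        have t : turn (a, b) (a, b + 1) (a - 1, b + 1) = 1 := by
          unfold turn ht; simp only; omega
        rw [t]; unfold dr; simp only; split_ifs <;> omega
    · rw [e2]
      obtain ⟨f1, f2, f3⟩ := nb_odd (a := a - 1) (b := b) (by omega)
      cases d'
      · rw [f1]
        have t : turn (a, b) (a - 1, b) (a - 1, b - 1) = 1 := by
          unfold turn ht; simp only; omega
        rw [t]; unfold dr; simp only; split_ifs <;> omega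
      · exact absurd rfl h
      · rw [f3]
        have t : turn (a, b) (a - 1, b) (a - 1 - 1, b) = -1 := by
          unfold turn ht; simp only; omega
        rw [t]; unfold dr; simp only; split_ifs <;> omega
    · rw [e3]
      obtain ⟨f1, f2, f3⟩ := nb_odd (a := a + 1) (b := b) (by omega)
      cases d'
      · rw [f1]
        have t : turn (a, b) (a + 1, b) (a + 1, b - 1) = -1 := by
          unfold turn ht; simp only; omega
        rw [t]; unfold dr; simp only; split_ifs <;> omega
      · rw [f2]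
        have t : turn (a, b) (a + 1, b) (a + 1 + 1, b) = 1 := by
          unfold turn ht; simp only; omega
        rw [t]; unfold dr; simp only; split_ifs <;> omega
      · exact absurd rfl h
  · obtain ⟨e1, e2, e3⟩ := nb_odd hp
    cases d
    · rw [e1]
      obtain ⟨f1, f2, f3⟩ := nb_even (a := a) (b := b - 1) (by omega)
      cases d'
      · exact absurd rfl h
      · rw [f2]
        have t : turn (a, b) (a, b - 1) (a - 1, b - 1) = -1 := by
          unfold turn ht; simp only; omega
        rw [t]; unfold dr; simp only; split_ifs <;> omega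
      · rw [f3]
        have t : turn (a, b) (a, b - 1) (a + 1, b - 1) = 1 := by
          unfold turn ht; simp only; omega
        rw [t]; unfold dr; simp only; split_ifs <;> omega
    · rw [e2]
      obtain ⟨f1, f2, f3⟩ := nb_even (a := a + 1) (b := b) (by omega)
      cases d'
      · rw [f1]
        have t : turn (a, b) (a + 1, b) (a + 1, b + 1) = 1 := by
          unfold turn ht; simp only; omega
        rw [t]; unfold dr; simp only; split_ifs <;> omega
      · exact absurd rfl h
      · rw [f3]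
        have t : turn (a, b) (a + 1, b) (a + 1 + 1, b) = -1 := by
          unfold turn ht; simp only; omega
        rw [t]; unfold dr; simp only; split_ifs <;> omega
    · rw [e3]
      obtain ⟨f1, f2, f3⟩ := nb_even (a := a - 1) (b := b) (by omega)
      cases d'
      · rw [f1]
        have t : turn (a, b) (a - 1, b) (a - 1, b + 1) = -1 := by
          unfold turn ht; simp only; omega
        rw [t]; unfold dr; simp only; split_ifs <;> omega
      · rw [f2]
        have t : turn (a, b) (a - 1, b) (a - 1 - 1, b) = 1 := by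
          unfold turn ht; simp only; omega
        rw [t]; unfold dr; simp only; split_ifs <;> omega
      · exact absurd rfl h

theorem nb_nb (v : V) (d : Dir) : nb (nb v d) d = v := by
  obtain ⟨a, b⟩ := v
  rcases even_cases (a, b) with hp | hp <;> simp only at hp
  · obtain ⟨e1, e2, e3⟩ := nb_even hp
    cases d
    · rw [e1, (nb_odd (by omega)).1]; simp
    · rw [e2, (nb_odd (by omega)).2.1]; simp
    · rw [e3, (nb_odd (by omega)).2.2]; simp
  · obtain ⟨e1, e2, e3⟩ := nb_odd hp
    cases d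
    · rw [e1, (nb_even (by omega)).1]; simp
    · rw [e2, (nb_even (by omega)).2.1]; simp
    · rw [e3, (nb_even (by omega)).2.2]; simp

theorem W_dr {Om : V → Prop} : ∀ (t : List V) (z y : V), Val Om (z :: y :: t) →
    (W (z :: y :: t) - dr y z) % 6 = 0 ∧ Adj y z := by
  intro t
  induction t with
  | nil =>
    intro z y h
    obtain ⟨rfl, rfl⟩ := h
    refine ⟨?_, adj_10⟩
    unfold dr W
    norm_num
  | cons x t ih =>
    intro z y h
    obtain ⟨h1, h2, _, _, h5⟩ := h
    obtain ⟨i1, i2⟩ := ih y x h5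
    refine ⟨?_, h1⟩
    obtain ⟨d, rfl⟩ := adj_iff_nb.1 i2
    obtain ⟨d', rfl⟩ := adj_iff_nb.1 h1
    have hdd : d' ≠ d := fun hh => h2 (by rw [hh, nb_nb])
    have ht := turn_dr x hdd
    rw [W]
    omega

/-- the last edge of a reversed path -/
def le (l : List V) : V × V := (l.tail.headD (0, 0), l.headD (0, 0))

theorem exits_form {S : Finset V} (h1 : ((1, 0) : V) ∈ S) {l : List V} (hl : l ∈ exits S) :
    ∃ z y x t, l = z :: y :: x :: t ∧ Adj y z ∧ z ≠ x ∧ y ∈ S ∧ z ∉ S ∧
      Val (fun v => v ∈ S) l ∧ (y = (1, 0) → z ≠ (0, 0)) := by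
  unfold TH508.ON.exits at hl
  rw [Finset.mem_filter, TH508.ON.mem_AP] at hl
  obtain ⟨hv, hz⟩ := hl
  match l, hv, hz with
  | [], hv, _ => exact hv.elim
  | [_], hv, _ => exact hv.elim
  | [z, y], hv, hz =>
    obtain ⟨rfl, rfl⟩ := hv
    exact absurd h1 hz
  | z :: y :: x :: t, hv, hz =>
    have hv' := hv
    obtain ⟨a1, a2, a3, a4, a5⟩ := hv
    refine ⟨z, y, x, t, rfl, a1, a2, a3, hz, hv', ?_⟩
    rintro rfl hz0
    -- the list starts with (1,0) only if it is the beginning
    match t, a4, a5, a2 with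
    | [], _, a5, a2 =>
      obtain ⟨_, rfl⟩ := a5
      exact a2 hz0
    | x' :: t', a4, a5, _ =>
      have hg := (val_iff _ _).1 a5
      have hsuf := hg.suff
      have : ((1, 0) : V) ∈ x :: x' :: t' := by
        have h6 : [((1, 0) : V), (0, 0)] <:+ x :: x' :: t' :=
          List.suffix_of_suffix_length_le hsuf (List.suffix_cons _ _) (by simp)
        exact h6.subset (by simp)
      exact a4 this

/-- the walks of one last edge -/
theorem sum_edge {n x : ℝ} {S : Finset V} (h1 : ((1, 0) : V) ∈ S) (h00 : ((0, 0) : V) ∉ S)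
    {v z : V} (hz : z ∉ S) (hvz : Adj v z) (hne : ¬ (v = (1, 0) ∧ z = (0, 0))) :
    ∑ l ∈ (exits S).filter (fun l => le l = (v, z)), wL n x S l = mE n x S v := by
  symm
  unfold mE
  refine Finset.sum_bij (fun γ _ => tl (γ, z)) ?_ ?_ ?_ ?_
  · intro γ hγ
    rw [mem_PF] at hγ
    obtain ⟨g1, g2, g3, g4, g5, g6⟩ := hγ
    obtain ⟨u, γ', rfl⟩ : ∃ u γ', γ = u :: γ' := by
      cases γ with
      | nil => simp at g2
      | cons u γ' => exact ⟨u, γ', rfl⟩
    simp only [List.head?_cons, Option.some.injEq] at g2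
    subst g2
    have hP : ((((1, 0) : V) :: γ', z) : List V × V) ∈ Paths S := by
      refine ⟨by simp, g4, g5, ?_, hz, ?_⟩
      · rw [List.isChain_append]
        refine ⟨g6, by simp, ?_⟩
        intro a ha b hb
        rw [g3] at ha
        simp only [Option.mem_def, Option.some.injEq, List.head?_cons] at ha hb
        rw [← ha, ← hb]
        exact hvz
      · intro hlen hz0
        have : γ' = [] := by
          simp only [List.length_cons] at hlen
          exact List.eq_nil_of_length_eq_zero (by omega)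
        subst this
        simp only [List.getLast?_singleton, Option.some.injEq] at g3
        exact hne ⟨g3.symm, hz0⟩
    rw [Finset.mem_filter]
    refine ⟨tl_mem hP h00, ?_⟩
    unfold le tl
    simp only [List.tail_cons, List.headD_cons, Prod.mk.injEq, and_true]
    obtain ⟨ys, hys⟩ : ∃ ys, ((1, 0) : V) :: γ' = ys ++ [v] := by
      have hne' : ((1, 0) : V) :: γ' ≠ [] := by simp
      refine ⟨(((1, 0) : V) :: γ').dropLast, ?_⟩
      rw [List.getLast?_eq_getLast_of_ne_nil hne', Option.some.injEq] at g3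
      rw [← g3, List.dropLast_append_getLast hne']
    rw [hys]
    simp
  · intro γ _ γ' _ h
    have := tl_inj h
    exact (Prod.mk.inj this).1
  · intro l hl
    rw [Finset.mem_filter] at hl
    obtain ⟨hl1, hl2⟩ := hl
    obtain ⟨⟨γ, z'⟩, hq, rfl⟩ := exists_tl hl1
    unfold le tl at hl2
    simp only [List.tail_cons, List.headD_cons, Prod.mk.injEq] at hl2
    obtain ⟨hl2, rfl⟩ := hl2
    obtain ⟨q1, q2, q3, q4, q5, q6⟩ := hq
    simp only at q1 q2 q3 q4 q5 q6
    have hγ : γ ≠ [] := by
      rintro rfl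
      simp only [List.nil_append, List.head?_cons, Option.some.injEq] at q1
      exact q5 (q1 ▸ h1)
    refine ⟨γ, ?_, rfl⟩
    rw [mem_PF]
    obtain ⟨u, γ', rfl⟩ : ∃ u γ', γ = u :: γ' := by
      cases γ with
      | nil => exact absurd rfl hγ
      | cons u γ' => exact ⟨u, γ', rfl⟩
    refine ⟨?_, by simpa using q1, ?_, q2, q3, ?_⟩
    · have hsub : (u :: γ').toFinset ⊆ S := fun w hw => q3 w (List.mem_toFinset.1 hw)
      have := Finset.card_le_card hsub
      rwa [List.toFinset_card_of_nodup q2] at this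
    · rw [List.getLast?_eq_getLast_of_ne_nil hγ, Option.some.injEq]
      have hys : u :: γ' = (u :: γ').dropLast ++ [(u :: γ').getLast hγ] :=
        (List.dropLast_append_getLast hγ).symm
      rw [hys] at hl2
      simpa using hl2
    · exact (List.isChain_append.1 q4).1
  · intro γ hγ
    rw [← wt_eq h00]
    rfl

/-- paths stay paths in a larger domain -/
theorem exits_sub {S S' : Finset V} (hsub : S ⊆ S') {l : List V} (hl : l ∈ exits S)
    (hz : l.headD (0, 0) ∉ S') : l ∈ exits S' := by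
  unfold TH508.ON.exits at hl ⊢
  rw [Finset.mem_filter, TH508.ON.mem_AP] at hl ⊢
  exact ⟨TH508.ON.val_mono (fun v hv => hsub hv) hl.1, hz⟩

/-- **monotonicity of the masses** -/
theorem sum_mono {n x : ℝ} (hn : 1 ≤ n) (hx : 0 < x) (hnx : n * x ^ 2 ≤ 1) {S S' : Finset V}
    (hsub : S ⊆ S') (hC : Cc S) (hC' : Cc S') (h1 : ((1, 0) : V) ∈ S) (h0 : ((0, 0) : V) ∉ S')
    (Pd : List V → Prop) [DecidablePred Pd]
    (hi : ∀ l ∈ exits S, Pd l → l.headD (0, 0) ∉ S')
    (hii : ∀ l ∈ exits S', ∀ l' ∈ exits S', le l = le l' → Pd l → Pd l') :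
    ∑ l ∈ (exits S).filter Pd, wL n x S l ≤ ∑ l ∈ (exits S').filter Pd, wL n x S' l := by
  classical
  have h00 : ((0, 0) : V) ∉ S := fun h => h0 (hsub h)
  have h1' : ((1, 0) : V) ∈ S' := hsub h1
  have hn0 : (0 : ℝ) ≤ n := by linarith
  set E := ((exits S).filter Pd).image le with hE
  have hmaps : ∀ l ∈ (exits S).filter Pd, le l ∈ E := fun l hl =>
    Finset.mem_image_of_mem _ hl
  rw [← Finset.sum_fiberwise_of_maps_to hmaps]
  have hle : ∀ e ∈ E, ∑ l ∈ ((exits S).filter Pd).filter (fun l => le l = e), wL n x S l ≤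
      ∑ l ∈ ((exits S').filter Pd).filter (fun l => le l = e), wL n x S' l := by
    intro e he
    rw [hE, Finset.mem_image] at he
    obtain ⟨l0, hl0, rfl⟩ := he
    rw [Finset.mem_filter] at hl0
    obtain ⟨z, y, w, t, hl, a1, a2, a3, a4, a5, a6⟩ := exits_form h1 hl0.1
    have hle0 : le l0 = (y, z) := by rw [hl]; rfl
    have hz' : z ∉ S' := by
      have := hi l0 hl0.1 hl0.2
      rw [hl] at this
      exact this
    have hne : ¬ (y = (1, 0) ∧ z = (0, 0)) := fun h => a6 h.1 h.2
    rw [hle0]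
    have b1 : ∑ l ∈ ((exits S).filter Pd).filter (fun l => le l = (y, z)), wL n x S l ≤
        mE n x S y := by
      rw [← sum_edge h1 h00 a4 a1 hne]
      apply Finset.sum_le_sum_of_subset_of_nonneg
      · intro l hl
        rw [Finset.mem_filter, Finset.mem_filter] at hl
        exact Finset.mem_filter.2 ⟨hl.1.1, hl.2⟩
      · intro l _ _
        exact wL_nonneg hn0 hx.le S l
    have b2 : mE n x S' y ≤
        ∑ l ∈ ((exits S').filter Pd).filter (fun l => le l = (y, z)), wL n x S' l := by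
      rw [← sum_edge h1' h0 hz' a1 hne]
      apply le_of_eq
      refine Finset.sum_congr ?_ (fun _ _ => rfl)
      ext l
      rw [Finset.mem_filter, Finset.mem_filter, Finset.mem_filter]
      constructor
      · rintro ⟨c1, c2⟩
        refine ⟨⟨c1, ?_⟩, c2⟩
        have c3 : l0 ∈ exits S' := exits_sub hsub hl0.1 (hi l0 hl0.1 hl0.2)
        exact hii l0 c3 l c1 (hle0.trans c2.symm) hl0.2
      · rintro ⟨⟨c1, _⟩, c2⟩
        exact ⟨c1, c2⟩
    exact b1.trans ((mE_mono hn hx hnx hsub hC hC' h1 h0 a3 hz' a1 hne).trans b2)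
  refine (Finset.sum_le_sum hle).trans ?_
  rw [Finset.sum_fiberwise_eq_sum_filter]
  apply Finset.sum_le_sum_of_subset_of_nonneg
  · exact Finset.filter_subset _ _
  · intro l _ _
    exact wL_nonneg hn0 hx.le S' l

/-! ### the domains `fs p` -/

theorem val_fs {p : Par} {l : List V} (h : Val (fun v => v ∈ fs p) l) : Val (Om p) l :=
  TH508.ON.val_mono (fun _ hv => mem_fs.1 hv) h

theorem exits_fs {p : Par} {l : List V} (hl : l ∈ exits (fs p)) :
    l ∈ P (Om p) (l.length - 2) ∧ ¬ Om p (l.headD (0, 0)) := by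
  have hlen := TH508.ON.exits_len hl
  unfold TH508.ON.exits at hl
  rw [Finset.mem_filter, TH508.ON.mem_AP] at hl
  refine ⟨mem_P.2 ⟨val_fs hl.1, by omega⟩, fun h => hl.2 (mem_fs.2 h)⟩

theorem out_exits {p : Par} (hp : Ok p) {l : List V} (hl : l ∈ exits (fs p)) :
    Out p (W l) (l.headD (0, 0)) :=
  class_om p hp _ l (exits_fs hl).1 (exits_fs hl).2

theorem out_unique {p : Par} (hp : Ok p) {k k' : ℤ} {z : V} (h : Out p k z) (h' : Out p k' z)
    (hk : (k - k') % 6 = 0) : k = k' := by
  have hR := hp.hR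
  have hQ := hp.hQ
  unfold Out Slit at h h'
  rcases h with h | h | h | h | h | h | h | h | h | h <;>
    rcases h' with h' | h' | h' | h' | h' | h' | h' | h' | h' | h' <;> omega

theorem wind_unique {p : Par} (hp : Ok p) {l l' : List V} (hl : l ∈ exits (fs p))
    (hl' : l' ∈ exits (fs p)) (he : le l = le l') : W l = W l' := by
  have h1 : ((1, 0) : V) ∈ fs p := mem_fs.2 (om_base hp)
  obtain ⟨z, y, x, t, e1, -, -, -, -, v1, -⟩ := exits_form h1 hl
  obtain ⟨z', y', x', t', e1', -, -, -, -, v1', -⟩ := exits_form h1 hl'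
  have o1 := out_exits hp hl
  have o2 := out_exits hp hl'
  rw [e1] at he v1 o1 ⊢
  rw [e1'] at he v1' o2 ⊢
  simp only [le, List.tail_cons, List.headD_cons, Prod.mk.injEq] at he
  obtain ⟨rfl, rfl⟩ := he
  have w1 := (W_dr _ _ _ v1).1
  have w2 := (W_dr _ _ _ v1').1
  exact out_unique hp o1 o2 (by omega)

/-- the mass of the side `k` -/
def Mk (n x : ℝ) (p : Par) (k : ℤ) : ℝ :=
  ∑ l ∈ (exits (fs p)).filter (fun l => W l = k), wL n x (fs p) l

theorem Mk_nonneg {n x : ℝ} (hn : 0 ≤ n) (hx : 0 ≤ x) (p : Par) (k : ℤ) : 0 ≤ Mk n x p k :=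
  Finset.sum_nonneg fun l _ => wL_nonneg hn hx _ l

theorem fs_sub {p p' : Par} (h : ∀ v, Om p v → Om p' v) : fs p ⊆ fs p' := fun v hv =>
  mem_fs.2 (h v (mem_fs.1 hv))

theorem zero_fs (p : Par) : ((0, 0) : V) ∉ fs p := by
  rw [mem_fs]
  intro h
  exact om_not_slit h ⟨rfl, le_refl _⟩

theorem Mk_mono {n x : ℝ} (hn : 1 ≤ n) (hx : 0 < x) (hnx : n * x ^ 2 ≤ 1) {p p' : Par} (hp : Ok p)
    (hp' : Ok p') (hsub : ∀ v, Om p v → Om p' v) (k : ℤ)
    (hout : ∀ z, Out p k z → ¬ Om p' z) : Mk n x p k ≤ Mk n x p' k := by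
  unfold Mk
  apply sum_mono hn hx hnx (fs_sub hsub) (cc_fs p) (cc_fs p') (mem_fs.2 (om_base hp)) (zero_fs p')
  · intro l hl hW
    rw [mem_fs]
    apply hout
    rw [← hW]
    exact out_exits hp hl
  · intro l hl l' hl' he hW
    rw [← wind_unique hp' hl hl' he]
    exact hW

theorem Mk_zero {n x : ℝ} {p : Par} (k : ℤ)
    (h : ∀ l ∈ exits (fs p), W l ≠ k) : Mk n x p k = 0 := by
  unfold Mk
  apply Finset.sum_eq_zero
  intro l hl
  rw [Finset.mem_filter] at hl
  exact absurd hl.2 (h l hl.1)

theorem Mk_zero_of {n x : ℝ} {p : Par} (hp : Ok p) (k : ℤ)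
    (h : ∀ v z, Om p v → Adj v z → ¬ Om p z → ¬ Out p k z) : Mk n x p k = 0 := by
  apply Mk_zero
  intro l hl hW
  have o := out_exits hp hl
  obtain ⟨z, y, x', t, e1, a1, -, a3, a4, -, -⟩ := exits_form (mem_fs.2 (om_base hp)) hl
  rw [hW, e1] at o
  exact h y z (mem_fs.1 a3) a1 (fun hh => a4 (mem_fs.2 hh)) o

/-- the identity -/
theorem ident_F {n x t : ℝ} (h0 : 0 ≤ n) (hx0 : 0 < x) (hn : n = -2 * Real.cos (4 * t))
    (hx : x * (2 * Real.cos t) = 1) {p : Par} (hp : Ok p) (A B : ℝ) :
    ∑ k ∈ Finset.Icc (-4 : ℤ) 5, (A * Real.cos (k * t) + B * Real.sin (k * t)) * Mk n x p k = A := by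
  have hS : ∀ v ∈ fs p, ¬ Slit v := fun v hv => om_not_slit (mem_fs.1 hv)
  have i1 := TH508.ON.ident_r h0 hx0 hn hx (fs p) hS 0
  have i2 := TH508.ON.ident_r h0 hx0 hn hx (fs p) hS (-(Real.pi / 2))
  have i3 : ∑ l ∈ exits (fs p), (A * Real.cos (W l * t) + B * Real.sin (W l * t)) *
      wL n x (fs p) l = A := by
    have e : ∀ l ∈ exits (fs p), (A * Real.cos (W l * t) + B * Real.sin (W l * t)) *
        wL n x (fs p) l = A * (Real.cos (W l * t + 0) * wL n x (fs p) l) +
          B * (Real.cos (W l * t + -(Real.pi / 2)) * wL n x (fs p) l) := by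
      intro l _
      rw [add_zero, ← sub_eq_add_neg, Real.cos_sub_pi_div_two]
      ring
    rw [Finset.sum_congr rfl e, Finset.sum_add_distrib, ← Finset.mul_sum, ← Finset.mul_sum, i1, i2]
    simp
  conv_rhs => rw [← i3]
  rw [← Finset.sum_fiberwise_of_maps_to (s := exits (fs p)) (t := Finset.Icc (-4 : ℤ) 5) (g := W)]
  · refine Finset.sum_congr rfl fun k _ => ?_
    unfold Mk
    rw [Finset.mul_sum]
    refine Finset.sum_congr rfl fun l hl => ?_
    rw [(Finset.mem_filter.1 hl).2]
  · intro l hl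
    exact out_range (out_exits hp hl)

end Pool.Agent.H97.ON
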